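import Mathlib
import Pool.Agent.helper67.ND.Defs

/-! From the holomorphic functional equation to a polynomial identity. -/

namespace Pool.Agent.helper14.CND

open Filter Topology MvPolynomial
open Pool.Agent.helper67.ND

section Basic

variable {R S : Type} [CommRing R] [CommRing S] {n : ℕ}

lemma Nw_nil (f : MvPolynomial (Fin n) R) (s : R) : Nw f s [] = f := rfl

lemma Nw_cons (f : MvPolynomial (Fin n) R) (s : R) (i : Fin n) (w : List (Fin n)) :
    Nw f s (i :: w) = f * pderiv i (Nw f s w) + C (s - (w.length : R)) *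
      (pderiv i f * Nw f s w) := rfl

lemma map_Nw (φ : R →+* S) (f : MvPolynomial (Fin n) R) (s : R) (w : List (Fin n)) :
    MvPolynomial.map φ (Nw f s w) = Nw (MvPolynomial.map φ f) (φ s) w := by
  induction w with
  | nil => rfl
  | cons i w ih =>
    rw [Nw_cons, Nw_cons, ← ih]
    simp [pderiv_map]

lemma Nw_homog {f : MvPolynomial (Fin n) R} {d : ℕ} (hd : 1 ≤ d) (hf : f.IsHomogeneous d)
    (s : R) (w : List (Fin n)) : (Nw f s w).IsHomogeneous (d + w.length * (d - 1)) := by
  induction w with
  | nil => simpa [Nw_nil] using hf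
  | cons i w ih =>
    rw [Nw_cons]
    refine IsHomogeneous.add ?_ ?_
    · have h := hf.mul (ih.pderiv (i := i))
      convert h using 1
      simp only [List.length_cons]
      obtain ⟨k, rfl⟩ : ∃ k, d = k + 1 := ⟨d - 1, by omega⟩
      simp only [Nat.add_sub_cancel]
      have : k + 1 + w.length * k - 1 = k + w.length * k := by omega
      rw [this]; ring
    · have h0 : (C (s - (w.length : R)) : MvPolynomial (Fin n) R).IsHomogeneous 0 :=
        isHomogeneous_C _ _
      have h := h0.mul ((hf.pderiv (i := i)).mul ih)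
      convert h using 1
      simp only [List.length_cons]
      ring

end Basic

/-- A polynomial is differentiable, with the formal derivatives. -/
lemma hasFDerivAt_eval {n : ℕ} (P : MvPolynomial (Fin n) ℂ) (z : Fin n → ℂ) :
    HasFDerivAt (fun y : Fin n → ℂ => eval y P)
      (∑ i, (eval z (pderiv i P)) • ContinuousLinearMap.proj (R := ℂ) (φ := fun _ : Fin n => ℂ) i)
      z := by
  induction P using MvPolynomial.induction_on with
  | C a =>
    have e0 : (fun y : Fin n → ℂ => eval y (C a : MvPolynomial (Fin n) ℂ)) = fun _ => a := by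
      funext y; simp
    rw [e0]
    refine (hasFDerivAt_const a z).congr_fderiv ?_
    ext v
    simp only [zero_apply, sum_apply, smul_apply, ContinuousLinearMap.proj_apply, smul_eq_mul,
      pderiv_C, map_zero, zero_mul, Finset.sum_const_zero]
  | add p q hp hq =>
    have e0 : (fun y : Fin n → ℂ => eval y (p + q)) = (fun y => eval y p) + fun y => eval y q := by
      funext y; simp
    rw [e0]
    refine (hp.add hq).congr_fderiv ?_
    ext v
    simp only [add_apply, sum_apply, smul_apply, ContinuousLinearMap.proj_apply, smul_eq_mul,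
      map_add, add_mul, Finset.sum_add_distrib]
  | mul_X p j hp =>
    have hX : HasFDerivAt (fun y : Fin n → ℂ => y j)
        (ContinuousLinearMap.proj (R := ℂ) (φ := fun _ : Fin n => ℂ) j) z :=
      hasFDerivAt_apply j z
    have h := hp.mul hX
    have e1 : (fun y : Fin n → ℂ => eval y (p * X j)) =
        (fun y => eval y p) * fun y => y j := by
      funext y; simp
    rw [e1]
    refine h.congr_fderiv ?_
    ext v
    simp only [add_apply, smul_apply,
      ContinuousLinearMap.proj_apply, smul_eq_mul, sum_apply, pderiv_mul,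
      map_add, map_mul, eval_X, add_mul, Finset.sum_add_distrib]
    rw [add_comm]
    congr 1
    · rw [Finset.mul_sum]
      refine Finset.sum_congr rfl fun i _ => by ring
    · rw [Finset.sum_eq_single j]
      · simp
      · intro i _ hij
        rw [pderiv_X_of_ne hij.symm]; simp
      · simp

lemma fderiv_eval {n : ℕ} (P : MvPolynomial (Fin n) ℂ) (z : Fin n → ℂ) (i : Fin n) :
    fderiv ℂ (fun y : Fin n → ℂ => eval y P) z (Pi.single i 1) = eval z (pderiv i P) := by
  rw [(hasFDerivAt_eval P z).fderiv]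
  simp [Pi.single_apply]

lemma differentiableAt_eval {n : ℕ} (P : MvPolynomial (Fin n) ℂ) (z : Fin n → ℂ) :
    DifferentiableAt ℂ (fun y : Fin n → ℂ => eval y P) z :=
  (hasFDerivAt_eval P z).differentiableAt

/-- The derivative of `N / f ^ k`. -/
lemma hasFDerivAt_quot {n : ℕ} (N f : MvPolynomial (Fin n) ℂ) (k : ℕ) (z : Fin n → ℂ)
    (hz : eval z f ≠ 0) (i : Fin n) :
    DifferentiableAt ℂ (fun y : Fin n → ℂ => eval y N / (eval y f) ^ k) z ∧
    fderiv ℂ (fun y : Fin n → ℂ => eval y N / (eval y f) ^ k) z (Pi.single i 1) =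
      eval z (f * pderiv i N - C (k : ℂ) * pderiv i f * N) / (eval z f) ^ (k + 1) := by
  have hN := hasFDerivAt_eval N z
  have hF := hasFDerivAt_eval f z
  have h1 : HasDerivAt (fun u : ℂ => (u ^ k)⁻¹)
      (-(k * (eval z f) ^ (k - 1)) / ((eval z f) ^ k) ^ 2) (eval z f) :=
    (hasDerivAt_pow k (eval z f)).fun_inv (pow_ne_zero _ hz)
  have h2 := h1.comp_hasFDerivAt z hF
  have h3 := hN.mul h2
  have e : (fun y : Fin n → ℂ => eval y N / (eval y f) ^ k) =
      (fun y => eval y N) * ((fun u : ℂ => (u ^ k)⁻¹) ∘ fun y => eval y f) := by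
    funext y; simp [div_eq_mul_inv]
  rw [e]
  refine ⟨h3.differentiableAt, ?_⟩
  rw [h3.fderiv]
  simp only [add_apply, smul_apply, sum_apply, ContinuousLinearMap.proj_apply, smul_eq_mul,
    Pi.single_apply, mul_ite, mul_one, mul_zero, Finset.sum_ite_eq',
    Finset.mem_univ, if_true, Function.comp, map_sub, map_mul, eval_C]
  rcases Nat.eq_zero_or_pos k with rfl | hk
  · simp
    field_simp
  · obtain ⟨m, rfl⟩ : ∃ m, k = m + 1 := ⟨k - 1, by omega⟩
    simp only [Nat.add_sub_cancel]
    field_simp
    ring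

/-- `∇_w f = N_w / f ^ |w|`. -/
lemma foldr_nabla_eq {n : ℕ} (f : MvPolynomial (Fin n) ℂ) (s : ℂ) (w : List (Fin n)) :
    ∀ z : Fin n → ℂ, eval z f ≠ 0 →
      (w.foldr (nabla (fun y => eval y f) s) (fun y => eval y f)) z =
        eval z (Nw f s w) / (eval z f) ^ w.length := by
  induction w with
  | nil => intro z hz; simp [Nw_nil]
  | cons i w ih =>
    intro z hz
    have hopen : ∀ᶠ y in 𝓝 z, eval y f ≠ 0 := by
      have hc : ContinuousAt (fun y : Fin n → ℂ => eval y f) z :=
        (differentiableAt_eval f z).continuousAt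
      exact hc.eventually_ne hz
    have hev : (w.foldr (nabla (fun y => eval y f) s) (fun y => eval y f)) =ᶠ[𝓝 z]
        fun y => eval y (Nw f s w) / (eval y f) ^ w.length := by
      filter_upwards [hopen] with y hy using ih y hy
    have hfd := (hasFDerivAt_quot (Nw f s w) f w.length z hz i).2
    rw [← hev.fderiv_eq] at hfd
    rw [List.foldr_cons]
    simp only [nabla]
    rw [hfd, fderiv_eval, ih z hz, Nw_cons]
    simp only [map_add, map_mul, map_sub, eval_C, List.length_cons]
    field_simp
    ring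

lemma foldr_nabla_differentiableAt {n : ℕ} (f : MvPolynomial (Fin n) ℂ) (s : ℂ)
    (w : List (Fin n)) (z : Fin n → ℂ) (hz : eval z f ≠ 0) :
    DifferentiableAt ℂ (w.foldr (nabla (fun y => eval y f) s) (fun y => eval y f)) z := by
  have hopen : ∀ᶠ y in 𝓝 z, eval y f ≠ 0 := by
    have hc : ContinuousAt (fun y : Fin n → ℂ => eval y f) z :=
      (differentiableAt_eval f z).continuousAt
    exact hc.eventually_ne hz
  have hev : (w.foldr (nabla (fun y => eval y f) s) (fun y => eval y f)) =ᶠ[𝓝 z]
      fun y => eval y (Nw f s w) / (eval y f) ^ w.length := by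
    filter_upwards [hopen] with y hy using foldr_nabla_eq f s w y hy
  rcases Nat.eq_zero_or_pos n with rfl | hn
  · exact hasFDerivAt_of_subsingleton _ _ |>.differentiableAt
  · exact ((hasFDerivAt_quot (Nw f s w) f w.length z hz ⟨0, hn⟩).1).congr_of_eventuallyEq hev

lemma coeff_zero_of_hasSum (q : ℕ → ℂ)
    (h : ∀ᶠ l in 𝓝 (0 : ℂ), HasSum (fun m => l ^ m * q m) 0) : ∀ m, q m = 0 := by
  intro m
  have h1 : HasFPowerSeriesAt (0 : ℂ → ℂ)
      (FormalMultilinearSeries.ofScalars (𝕜 := ℂ) ℂ q) 0 := by
    rw [hasFPowerSeriesAt_iff]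
    filter_upwards [h] with l hl
    simpa [FormalMultilinearSeries.coeff_ofScalars] using hl
  have h2 := HasFPowerSeriesAt.eq_zero h1
  have h3 := congrArg (fun p => FormalMultilinearSeries.coeff p m) h2
  simp only [FormalMultilinearSeries.coeff_ofScalars] at h3
  rw [h3]; rfl

/-- The homogeneous polynomial `z ↦ p (z, …, z)`. -/
noncomputable def homPart {n k : ℕ}
    (p : ContinuousMultilinearMap ℂ (fun _ : Fin k => (Fin n → ℂ)) ℂ) : MvPolynomial (Fin n) ℂ :=
  ∑ v : Fin k → Fin n, C (p (fun j => Pi.single (v j) 1)) * ∏ j, X (v j)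

lemma homPart_homog {n k : ℕ}
    (p : ContinuousMultilinearMap ℂ (fun _ : Fin k => (Fin n → ℂ)) ℂ) :
    (homPart p).IsHomogeneous k := by
  refine IsHomogeneous.sum _ _ _ fun v _ => ?_
  have h := (isHomogeneous_C (Fin n) (p (fun j => Pi.single (v j) 1))).mul
    (IsHomogeneous.prod (Finset.univ) (fun j => (X (v j) : MvPolynomial (Fin n) ℂ)) (fun _ => 1)
      (fun j _ => isHomogeneous_X ℂ (v j)))
  simpa using h

lemma eval_homPart {n k : ℕ}
    (p : ContinuousMultilinearMap ℂ (fun _ : Fin k => (Fin n → ℂ)) ℂ) (z : Fin n → ℂ) :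
    eval z (homPart p) = p (fun _ => z) := by
  have hz : z = ∑ i, z i • (Pi.single i (1:ℂ) : Fin n → ℂ) := by
    funext j; simp [Finset.sum_apply, Pi.single_apply]
  have h1 : p (fun _ => z) = p (fun _ : Fin k => ∑ i, z i • (Pi.single i (1:ℂ) : Fin n → ℂ)) := by
    rw [← hz]
  rw [h1, p.map_sum]
  simp only [homPart, map_sum, map_mul, eval_C, map_prod, eval_X]
  refine Finset.sum_congr rfl fun v _ => ?_
  rw [p.map_smul_univ, smul_eq_mul, mul_comm]

lemma eval_smul_homog {n d : ℕ} {P : MvPolynomial (Fin n) ℂ} (hP : P.IsHomogeneous d) (l : ℂ)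
    (z : Fin n → ℂ) : eval (l • z) P = l ^ d * eval z P := by
  rw [eval_eq', eval_eq', Finset.mul_sum]
  refine Finset.sum_congr rfl fun m hm => ?_
  have h1 : ∑ i, m i = d := by
    have h2 := hP (mem_support_iff.1 hm)
    rw [← h2, Finsupp.weight_apply, Finsupp.sum_fintype _ _ (fun i => by simp)]
    simp
  simp only [Pi.smul_apply, smul_eq_mul, mul_pow, Finset.prod_mul_distrib]
  rw [Finset.prod_pow_eq_pow_sum, h1]
  ring

lemma hasSum_shift {l g : ℂ} {c : ℕ → ℂ} (e : ℕ) (h : HasSum (fun m => l ^ m * c m) g) :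
    HasSum (fun m => l ^ m * (if e ≤ m then c (m - e) else 0)) (l ^ e * g) := by
  have hinj : Function.Injective (fun m : ℕ => m + e) := add_left_injective e
  rw [← hinj.hasSum_iff]
  · refine (h.mul_left (l ^ e)).congr_fun fun m => ?_
    simp only [Function.comp, Nat.le_add_left, if_true, Nat.add_sub_cancel]
    rw [pow_add]; ring
  · intro m hm
    have : ¬ e ≤ m := by
      intro hle
      exact hm ⟨m - e, by simp; omega⟩
    simp [this]

/-- The pointwise functional equation with homogeneous coefficients. -/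
lemma bernstein_pointwise {n : ℕ} (f : MvPolynomial (Fin n) ℂ) (d : ℕ) (hd : 1 ≤ d)
    (hf : f.IsHomogeneous d) (b : Polynomial ℂ) (h : IsBernstein (fun z => eval z f) b) :
    ∃ (T : Finset (List (Fin n) × ℕ)) (A : List (Fin n) × ℕ → MvPolynomial (Fin n) ℂ),
      (∀ t ∈ T, d ≤ t.1.length) ∧ (∀ t ∈ T, (A t).IsHomogeneous (t.1.length - d)) ∧
      ∀ z : Fin n → ℂ, eval z f ≠ 0 → ∀ s : ℂ,
        ∑ t ∈ T, eval z (A t) * s ^ t.2 * (eval z (Nw f s t.1) / (eval z f) ^ t.1.length) =
          b.eval s := by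
  classical
  obtain ⟨T, a, ha, hev⟩ := h
  have ha' : ∀ t : List (Fin n) × ℕ, ∃ p : FormalMultilinearSeries ℂ (Fin n → ℂ) ℂ,
      t ∈ T → HasFPowerSeriesAt (a t) p 0 := by
    intro t
    by_cases ht : t ∈ T
    · obtain ⟨p, hp⟩ := ha t ht
      exact ⟨p, fun _ => hp⟩
    · exact ⟨0, fun h => absurd h ht⟩
  choose p hp using ha'
  refine ⟨T.filter (fun t => d ≤ t.1.length), fun t => homPart (p t (t.1.length - d)),
    fun t ht => (Finset.mem_filter.1 ht).2, fun t _ => homPart_homog _, ?_⟩
  intro z hz s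
  -- the bound on the lengths
  set M : ℕ := T.sup (fun t => t.1.length) + 1 with hM
  have hlen : ∀ t ∈ T, t.1.length ≤ M :=
    fun t ht => (Finset.le_sup (f := fun t => t.1.length) ht).trans (Nat.le_succ _)
  set R : List (Fin n) × ℕ → ℂ :=
    fun t => s ^ t.2 * (eval z (Nw f s t.1) / (eval z f) ^ t.1.length) with hR
  -- the series of `a t` along the line through `z`
  have hline : Tendsto (fun l : ℂ => l • z) (𝓝 0) (𝓝 (0 : Fin n → ℂ)) := by
    have : ContinuousAt (fun l : ℂ => l • z) 0 := by fun_prop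
    simpa [ContinuousAt] using this
  have hser : ∀ t ∈ T, ∀ᶠ l in 𝓝 (0 : ℂ),
      HasSum (fun m => l ^ m * p t m (fun _ => z)) (a t (l • z)) := by
    intro t ht
    have h1 := (hp t ht).eventually_hasSum
    have h2 := hline.eventually h1
    filter_upwards [h2] with l hl
    simp only [zero_add] at hl
    refine hl.congr_fun fun m => ?_
    have := (p t m).map_smul_univ (fun _ => l) (fun _ => z)
    rw [this]
    simp
  have hser' : ∀ᶠ l in 𝓝 (0 : ℂ), ∀ t ∈ T,
      HasSum (fun m => l ^ m * p t m (fun _ => z)) (a t (l • z)) :=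
    (Finset.eventually_all T).2 hser
  -- the functional equation along the line
  have heq : ∀ᶠ l in 𝓝 (0 : ℂ),
      ∑ t ∈ T, R t * (l ^ (M + d - t.1.length) * a t (l • z)) - l ^ M * b.eval s = 0 := by
    have h2 := hline.eventually hev
    filter_upwards [h2] with l hl
    by_cases hl0 : l = 0
    · subst hl0
      rw [zero_pow (by omega), zero_mul, sub_zero]
      refine Finset.sum_eq_zero fun t ht => ?_
      have := hlen t ht
      rw [zero_pow (by omega)]; ring
    · have hfl : eval (l • z) f ≠ 0 := by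
        rw [eval_smul_homog hf]
        exact mul_ne_zero (pow_ne_zero _ hl0) hz
      have h3 := hl hfl s
      rw [← h3, Finset.mul_sum, ← Finset.sum_sub_distrib]
      refine Finset.sum_eq_zero fun t ht => ?_
      rw [foldr_nabla_eq f s t.1 (l • z) hfl, eval_smul_homog hf,
        eval_smul_homog (Nw_homog hd hf s t.1)]
      have hle := hlen t ht
      have e1 : l ^ (M + d - t.1.length) * (l ^ d) ^ t.1.length =
          l ^ M * l ^ (d + t.1.length * (d - 1)) := by
        rw [← pow_mul, ← pow_add, ← pow_add]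
        congr 1
        obtain ⟨k, rfl⟩ : ∃ k, d = k + 1 := ⟨d - 1, by omega⟩
        simp only [Nat.add_sub_cancel]
        have : (k + 1) * t.1.length = t.1.length * k + t.1.length := by ring
        omega
      rw [sub_eq_zero]
      simp only [hR]
      have hz' : eval z f ^ t.1.length ≠ 0 := pow_ne_zero _ hz
      have hl' : (l ^ d) ^ t.1.length ≠ 0 := pow_ne_zero _ (pow_ne_zero _ hl0)
      rw [mul_pow]
      field_simp
      linear_combination (a t (l • z) * s ^ t.2 * eval z (Nw f s t.1)) * e1
  set q : ℕ → ℂ := fun m => ∑ t ∈ T, R t *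
    (if M + d - t.1.length ≤ m then p t (m - (M + d - t.1.length)) (fun _ => z) else 0) -
    (if m = M then b.eval s else 0) with hq
  have hq0 : ∀ m, q m = 0 := by
    refine coeff_zero_of_hasSum q ?_
    filter_upwards [hser', heq] with l h1 h2
    rw [← h2]
    have h3 : HasSum (fun m => ∑ t ∈ T, R t * (l ^ m *
        (if M + d - t.1.length ≤ m then p t (m - (M + d - t.1.length)) (fun _ => z) else 0)))
        (∑ t ∈ T, R t * (l ^ (M + d - t.1.length) * a t (l • z))) := by
      refine hasSum_sum fun t ht => ?_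
      exact (hasSum_shift (M + d - t.1.length) (h1 t ht)).mul_left (R t)
    have h4 : HasSum (fun m => l ^ m * (if m = M then b.eval s else 0)) (l ^ M * b.eval s) := by
      have := hasSum_ite_eq M (l ^ M * b.eval s)
      refine this.congr_fun fun m => ?_
      by_cases hm : m = M
      · rw [if_pos hm, if_pos hm, hm]
      · rw [if_neg hm, if_neg hm, mul_zero]
    have h5 := h3.sub h4
    refine h5.congr_fun fun m => ?_
    simp only [hq, mul_sub, Finset.mul_sum]
    congr 1
    refine Finset.sum_congr rfl fun t _ => by ring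
  have h6 := hq0 M
  simp only [hq, if_true] at h6
  rw [sub_eq_zero] at h6
  rw [← h6, Finset.sum_filter]
  refine Finset.sum_congr rfl fun t ht => ?_
  have hle := hlen t ht
  by_cases hdt : d ≤ t.1.length
  · have e1 : M + d - t.1.length ≤ M := by omega
    have e2 : M - (M + d - t.1.length) = t.1.length - d := by omega
    rw [if_pos hdt, if_pos e1, e2, eval_homPart]
    simp only [hR]; ring
  · have e1 : ¬ (M + d - t.1.length ≤ M) := by omega
    rw [if_neg hdt, if_neg e1, mul_zero]

/-- The functional equation as a polynomial identity, for every complex value of `s`. -/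
lemma bernstein_poly {n : ℕ} (f : MvPolynomial (Fin n) ℂ) (d : ℕ) (hd : 1 ≤ d) (hf0 : f ≠ 0)
    (hf : f.IsHomogeneous d) (b : Polynomial ℂ) (h : IsBernstein (fun z => eval z f) b) :
    ∃ (T : Finset (List (Fin n) × ℕ)) (A : List (Fin n) × ℕ → MvPolynomial (Fin n) ℂ) (M : ℕ),
      (∀ t ∈ T, d ≤ t.1.length) ∧ (∀ t ∈ T, t.1.length ≤ M) ∧
      (∀ t ∈ T, (A t).IsHomogeneous (t.1.length - d)) ∧
      ∀ s : ℂ, ∑ t ∈ T, A t * C (s ^ t.2) * Nw f s t.1 * f ^ (M - t.1.length) =
          C (b.eval s) * f ^ M := by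
  obtain ⟨T, A, h1, h2, h3⟩ := bernstein_pointwise f d hd hf b h
  set M : ℕ := T.sup (fun t => t.1.length) with hM
  have hlen : ∀ t ∈ T, t.1.length ≤ M :=
    fun t ht => Finset.le_sup (f := fun t => t.1.length) ht
  refine ⟨T, A, M, h1, hlen, h2, fun s => ?_⟩
  have h4 : (∑ t ∈ T, A t * C (s ^ t.2) * Nw f s t.1 * f ^ (M - t.1.length) -
      C (b.eval s) * f ^ M) * f = 0 := by
    refine MvPolynomial.funext fun z => ?_
    rw [map_mul, map_zero]
    by_cases hz : eval z f = 0
    · rw [hz, mul_zero]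
    · have h5 := h3 z hz s
      rw [map_sub, map_sum, map_mul, map_pow, eval_C, ← h5, Finset.sum_mul,
        ← Finset.sum_sub_distrib, Finset.sum_eq_zero, zero_mul]
      intro t ht
      rw [sub_eq_zero]
      simp only [map_mul, map_pow, eval_C]
      have e1 : eval z f ^ M = eval z f ^ (M - t.1.length) * eval z f ^ t.1.length := by
        rw [← pow_add]; congr 1; have := hlen t ht; omega
      rw [e1]
      have hz' : eval z f ^ t.1.length ≠ 0 := pow_ne_zero _ hz
      field_simp
  have h5 := (mul_eq_zero.1 h4).resolve_right hf0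
  exact sub_eq_zero.1 h5

/-- The functional equation as a polynomial identity, for every value of `s` in a commutative
algebra. -/
theorem bernstein_alg {n : ℕ} (f : MvPolynomial (Fin n) ℂ) (d : ℕ) (hd : 1 ≤ d) (hf0 : f ≠ 0)
    (hf : f.IsHomogeneous d) (b : Polynomial ℂ) (h : IsBernstein (fun z => eval z f) b) :
    ∃ (T : Finset (List (Fin n) × ℕ)) (A : List (Fin n) × ℕ → MvPolynomial (Fin n) ℂ) (M : ℕ),
      (∀ t ∈ T, d ≤ t.1.length) ∧ (∀ t ∈ T, t.1.length ≤ M) ∧
      (∀ t ∈ T, (A t).IsHomogeneous (t.1.length - d)) ∧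
      ∀ (K : Type) [CommRing K] [Algebra ℂ K] (s : K),
        ∑ t ∈ T, MvPolynomial.map (algebraMap ℂ K) (A t) * C (s ^ t.2) *
          Nw (MvPolynomial.map (algebraMap ℂ K) f) s t.1 *
          (MvPolynomial.map (algebraMap ℂ K) f) ^ (M - t.1.length) =
          C (Polynomial.aeval s b) * (MvPolynomial.map (algebraMap ℂ K) f) ^ M := by
  obtain ⟨T, A, M, h1, h2, h3, h4⟩ := bernstein_poly f d hd hf0 hf b h
  refine ⟨T, A, M, h1, h2, h3, ?_⟩
  -- the universal case
  have huniv : ∑ t ∈ T, MvPolynomial.map Polynomial.C (A t) * C (Polynomial.X ^ t.2) *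
          Nw (MvPolynomial.map Polynomial.C f) Polynomial.X t.1 *
          (MvPolynomial.map Polynomial.C f) ^ (M - t.1.length) =
          C b * (MvPolynomial.map Polynomial.C f) ^ M := by
    refine MvPolynomial.ext _ _ fun m => ?_
    refine Polynomial.funext fun s => ?_
    have h5 := congrArg (coeff m) (h4 s)
    have hcomp : ∀ P : MvPolynomial (Fin n) ℂ,
        MvPolynomial.map (Polynomial.evalRingHom s) (MvPolynomial.map Polynomial.C P) = P := by
      intro P
      rw [MvPolynomial.map_map]
      have : (Polynomial.evalRingHom s).comp Polynomial.C = RingHom.id ℂ := by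
        ext x; simp
      rw [this, MvPolynomial.map_id]
    have h6 : ∀ P : MvPolynomial (Fin n) (Polynomial ℂ), Polynomial.eval s (coeff m P) =
        coeff m (MvPolynomial.map (Polynomial.evalRingHom s) P) := by
      intro P; rw [coeff_map]; rfl
    rw [h6, h6]
    simp only [map_sum, map_mul, map_pow, map_Nw, hcomp, map_C, Polynomial.coe_evalRingHom,
      Polynomial.eval_X]
    simpa only [map_pow] using h5
  intro K _ _ s
  have h7 := congrArg (MvPolynomial.map (Polynomial.aeval s : Polynomial ℂ →ₐ[ℂ] K).toRingHom)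
    huniv
  have hcomp : ∀ P : MvPolynomial (Fin n) ℂ,
      MvPolynomial.map (Polynomial.aeval s : Polynomial ℂ →ₐ[ℂ] K).toRingHom
        (MvPolynomial.map Polynomial.C P) = MvPolynomial.map (algebraMap ℂ K) P := by
    intro P
    rw [MvPolynomial.map_map]
    congr 1
    ext x <;> simp
  simp only [map_sum, map_mul, map_pow, map_Nw, hcomp, map_C] at h7
  simpa using h7

/-- (E1) extraction of the homogeneous part. -/
theorem bernstein_relation {n : ℕ} (P : MvPolynomial (Fin n) ℂ) (hP0 : P ≠ 0) (d : ℕ)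
    (hd : 1 ≤ d) (hP : P.IsHomogeneous d) (b : Polynomial ℂ)
    (hb : IsBernstein (fun z => eval z P) b) :
    ∃ (T : Finset (List (Fin n) × ℕ)) (A : List (Fin n) × ℕ → MvPolynomial (Fin n) ℂ) (M : ℕ),
      (∀ t ∈ T, t.1.length ≤ M ∧ (A t).IsHomogeneous (t.1.length - d) ∧
        (t.1.length < d → A t = 0)) ∧
      ∀ s : ℂ, ∑ t ∈ T, A t * C (s ^ t.2) * Nw P s t.1 * P ^ (M - t.1.length) =
        C (b.eval s) * P ^ M := by
  obtain ⟨T, A, M, h1, h2, h3, h4⟩ := bernstein_poly P d hd hP0 hP b hb
  exact ⟨T, A, M, fun t ht => ⟨h2 t ht, h3 t ht, fun h => absurd (h1 t ht) (by omega)⟩, h4⟩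

end Pool.Agent.helper14.CND
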