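import Mathlib
import Pool.Agent.helper67.ND.Defs
import Pool.Agent.helper14.ND_E1

/-! The value of `b` at `- n / d` from the functional of the algebraic main theorem. -/

namespace Pool.Agent.helper14.CND

open Filter Topology MvPolynomial
open Pool.Agent.helper67 Pool.Agent.helper67.ND

section Claims

variable {K : Type} [Field K] {n d : ℕ} (R : Subring K) (f : MvPolynomial (Fin n) K) (s0 t : K)
  (κ : Fin n → K) (L : ℕ → MvPolynomial (Fin n) K →ₗ[K] K)

/-- The induction formula. -/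
lemma L_cons (hd : 1 ≤ d) (hf : f.IsHomogeneous d)
    (h1 : ∀ m p, L (m + 1) (f * p) = L m p)
    (h2 : ∀ (i : Fin n) (m e : ℕ) (p : MvPolynomial (Fin n) K), p.IsHomogeneous e →
        L (m + 1) (f * pderiv i p + C (s0 + t - m) * (pderiv i f * p)) =
          κ i * ((e : K) - m * d - 1 + t * d) * L m p)
    (i : Fin n) (w : List (Fin n)) (A : MvPolynomial (Fin n) K) (a : ℕ)
    (hA : A.IsHomogeneous a) :
    L (w.length + 1) (A * Nw f (s0 + t) (i :: w)) =
      κ i * ((a : K) + d - w.length - 1 + t * d) * L w.length (A * Nw f (s0 + t) w) -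
        L w.length (pderiv i A * Nw f (s0 + t) w) := by
  have hN := Nw_homog hd hf (s0 + t) w
  have h3 := h2 i w.length (a + (d + w.length * (d - 1))) (A * Nw f (s0 + t) w) (hA.mul hN)
  have h4 := h1 w.length (pderiv i A * Nw f (s0 + t) w)
  have e1 : ((a + (d + w.length * (d - 1)) : ℕ) : K) - w.length * d - 1 + t * d =
      (a : K) + d - w.length - 1 + t * d := by
    obtain ⟨k, rfl⟩ : ∃ k, d = k + 1 := ⟨d - 1, by omega⟩
    simp only [Nat.add_sub_cancel]
    push_cast
    ring
  rw [e1] at h3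
  rw [← h3, ← h4, ← map_sub]
  congr 1
  rw [Nw_cons, pderiv_mul]
  ring

lemma claimR (hd : 1 ≤ d) (hf : f.IsHomogeneous d) (ht : t ∈ R) (hκ : ∀ i, κ i ∈ R)
    (h1 : ∀ m p, L (m + 1) (f * p) = L m p)
    (h2 : ∀ (i : Fin n) (m e : ℕ) (p : MvPolynomial (Fin n) K), p.IsHomogeneous e →
        L (m + 1) (f * pderiv i p + C (s0 + t - m) * (pderiv i f * p)) =
          κ i * ((e : K) - m * d - 1 + t * d) * L m p)
    (h3 : ∀ h : MvPolynomial (Fin n) K, (∀ m, h.coeff m ∈ R) → L 0 (f * h) ∈ R)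
    (w : List (Fin n)) : ∀ (A : MvPolynomial (Fin n) K) (a : ℕ), A.IsHomogeneous a →
      (∀ m, A.coeff m ∈ R) → L w.length (A * Nw f (s0 + t) w) ∈ R := by
  induction w with
  | nil =>
    intro A a hA hAR
    rw [Nw_nil, mul_comm]
    exact h3 A hAR
  | cons i w ih =>
    intro A a hA hAR
    rw [List.length_cons, L_cons f s0 t κ L hd hf h1 h2 i w A a hA]
    refine R.sub_mem (R.mul_mem (R.mul_mem (hκ i) ?_) (ih A a hA hAR)) ?_
    · refine R.add_mem (R.sub_mem (R.sub_mem (R.add_mem (natCast_mem R _) (natCast_mem R _))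
        (natCast_mem R _)) R.one_mem) (R.mul_mem ht (natCast_mem R _))
    · refine ih _ (a - 1) (hA.pderiv) fun m => ?_
      rw [coeff_pderiv]
      exact R.mul_mem (hAR _) (R.add_mem (natCast_mem R _) R.one_mem)

lemma claimT (hd : 1 ≤ d) (hf : f.IsHomogeneous d) (ht : t ∈ R) (hκ : ∀ i, κ i ∈ R)
    (h1 : ∀ m p, L (m + 1) (f * p) = L m p)
    (h2 : ∀ (i : Fin n) (m e : ℕ) (p : MvPolynomial (Fin n) K), p.IsHomogeneous e →
        L (m + 1) (f * pderiv i p + C (s0 + t - m) * (pderiv i f * p)) =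
          κ i * ((e : K) - m * d - 1 + t * d) * L m p)
    (h3 : ∀ h : MvPolynomial (Fin n) K, (∀ m, h.coeff m ∈ R) → L 0 (f * h) ∈ R)
    (w : List (Fin n)) : ∀ (A : MvPolynomial (Fin n) K) (a : ℕ), A.IsHomogeneous a →
      (∀ m, A.coeff m ∈ R) → a + d = w.length →
      ∃ r ∈ R, L w.length (A * Nw f (s0 + t) w) = t * r := by
  induction w with
  | nil =>
    intro A a hA hAR h
    simp at h
    omega
  | cons i w ih =>
    intro A a hA hAR h
    rw [List.length_cons] at h
    rw [List.length_cons, L_cons f s0 t κ L hd hf h1 h2 i w A a hA]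
    have e1 : (a : K) + d - w.length - 1 + t * d = t * d := by
      have h' : ((a + d : ℕ) : K) = ((w.length + 1 : ℕ) : K) := by rw [h]
      push_cast at h'
      rw [h']; ring
    rw [e1]
    have hR := claimR R f s0 t κ L hd hf ht hκ h1 h2 h3 w A a hA hAR
    have hD : ∃ r ∈ R, L w.length (pderiv i A * Nw f (s0 + t) w) = t * r := by
      rcases Nat.eq_zero_or_pos a with ha | ha
      · subst ha
        have hA0 : pderiv i A = 0 := by
          have := (totalDegree_zero_iff_isHomogeneous (Fin n)).2 hA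
          rw [totalDegree_eq_zero_iff_eq_C] at this
          rw [this, pderiv_C]
        exact ⟨0, R.zero_mem, by rw [hA0, zero_mul, map_zero, mul_zero]⟩
      · refine ih _ (a - 1) hA.pderiv (fun m => ?_) (by omega)
        rw [coeff_pderiv]
        exact R.mul_mem (hAR _) (R.add_mem (natCast_mem R _) R.one_mem)
    obtain ⟨r, hr, hr'⟩ := hD
    refine ⟨κ i * d * L w.length (A * Nw f (s0 + t) w) - r,
      R.sub_mem (R.mul_mem (R.mul_mem (hκ i) (natCast_mem R _)) hR) hr, ?_⟩
    rw [hr']; ring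

end Claims

/-- The fraction field of the ring of power series. -/
abbrev KK : Type := FractionRing (PowerSeries ℂ)

/-- The subring of power series. -/
noncomputable abbrev RR : Subring KK := (algebraMap (PowerSeries ℂ) KK).range

/-- The variable. -/
noncomputable abbrev tt : KK := algebraMap (PowerSeries ℂ) KK PowerSeries.X

lemma KK_algebraMap (c : ℂ) : algebraMap ℂ KK c =
    algebraMap (PowerSeries ℂ) KK (PowerSeries.C c) := by
  rw [IsScalarTower.algebraMap_apply ℂ (PowerSeries ℂ) KK]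
  rfl

lemma KK_const_mem (c : ℂ) : algebraMap ℂ KK c ∈ RR := by
  rw [KK_algebraMap]
  exact ⟨_, rfl⟩

lemma KK_t_mem : tt ∈ RR := ⟨_, rfl⟩

lemma KK_unit (d m : ℕ) (hm : 1 ≤ m) : ∃ u ∈ RR, u * ((m : KK) + tt * (d : ℕ)) = 1 := by
  have h1 : IsUnit ((m : PowerSeries ℂ) + PowerSeries.X * (d : PowerSeries ℂ)) := by
    rw [PowerSeries.isUnit_iff_constantCoeff]
    simp
    omega
  obtain ⟨u, hu⟩ := h1.exists_left_inv
  refine ⟨algebraMap (PowerSeries ℂ) KK u, ⟨u, rfl⟩, ?_⟩
  have := congrArg (algebraMap (PowerSeries ℂ) KK) hu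
  simpa using this

lemma KK_tr (c : ℂ) (m : ℕ) (hm : 1 ≤ m) : algebraMap ℂ KK c + m * tt ≠ 0 := by
  intro h
  have h1 : algebraMap (PowerSeries ℂ) KK (PowerSeries.C c + (m : PowerSeries ℂ) * PowerSeries.X)
      = 0 := by
    rw [map_add, map_mul, map_natCast, ← KK_algebraMap]
    exact h
  have h2 := (IsFractionRing.injective (PowerSeries ℂ) KK) (h1.trans (map_zero _).symm)
  have h3 := congrArg (PowerSeries.coeff 1) h2
  have h4 : (m : PowerSeries ℂ) = PowerSeries.C (m : ℂ) := by simp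
  rw [h4] at h3
  simp at h3
  omega

/-- `b (s₀) = 0` as soon as `b (s₀ + t)` is divisible by `t` in the power series ring. -/
lemma eval_zero_of_dvd (b : Polynomial ℂ) (s0 : ℂ) (r : KK) (hr : r ∈ RR)
    (h : Polynomial.aeval (algebraMap ℂ KK s0 + tt) b = tt * r) : b.eval s0 = 0 := by
  obtain ⟨r', rfl⟩ := hr
  have h1 : Polynomial.aeval (algebraMap ℂ KK s0 + tt) b =
      algebraMap (PowerSeries ℂ) KK (Polynomial.aeval (PowerSeries.C s0 + PowerSeries.X) b) := by
    rw [KK_algebraMap, ← map_add, Polynomial.aeval_algebraMap_apply]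
  rw [h1, ← map_mul] at h
  have h2 := (IsFractionRing.injective (PowerSeries ℂ) KK) h
  have h3 := congrArg PowerSeries.constantCoeff h2
  rw [map_mul, PowerSeries.constantCoeff_X, zero_mul] at h3
  have h4 : PowerSeries.constantCoeff (Polynomial.aeval (PowerSeries.C s0 + PowerSeries.X) b) =
      b.eval s0 := by
    rw [Polynomial.aeval_def, Polynomial.hom_eval₂]
    have h5 : (PowerSeries.constantCoeff (R := ℂ)).comp (algebraMap ℂ (PowerSeries ℂ)) =
        RingHom.id ℂ := by
      ext x; simp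
    rw [h5, map_add, PowerSeries.constantCoeff_C, PowerSeries.constantCoeff_X, add_zero]
    simp [Polynomial.eval₂_id]
  rw [← h4, h3]

/-- The conclusion from the functional of the algebraic main theorem. -/
theorem eval_zero_of_functional {n d : ℕ} (P : MvPolynomial (Fin n) ℂ) (hP0 : P ≠ 0)
    (hd : 1 ≤ d) (hP : P.IsHomogeneous d) (b : Polynomial ℂ)
    (hb : IsBernstein (fun z => eval z P) b) (κ : Fin n → KK)
    (L : ℕ → MvPolynomial (Fin n) KK →ₗ[KK] KK) (hκ : ∀ i, κ i ∈ RR)
    (h1 : ∀ m p, L (m + 1) (map (algebraMap ℂ KK) P * p) = L m p)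
    (h2 : ∀ (i : Fin n) (m e : ℕ) (p : MvPolynomial (Fin n) KK), p.IsHomogeneous e →
        L (m + 1) (map (algebraMap ℂ KK) P * pderiv i p +
          C (- (n : KK) / (d : ℕ) + tt - m) * (pderiv i (map (algebraMap ℂ KK) P) * p)) =
          κ i * ((e : KK) - m * (d : ℕ) - 1 + tt * (d : ℕ)) * L m p)
    (h3 : ∀ h : MvPolynomial (Fin n) KK, (∀ m, h.coeff m ∈ RR) →
        L 0 (map (algebraMap ℂ KK) P * h) ∈ RR)
    (h4 : ∃ u ∈ RR, u * L 0 1 = 1) :
    b.eval (- (n : ℂ) / (d : ℕ)) = 0 := by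
  obtain ⟨T, A, M, hT1, hT2, hT3, hT⟩ := bernstein_alg P d hd hP0 hP b hb
  set f : MvPolynomial (Fin n) KK := map (algebraMap ℂ KK) P with hf
  have hfd : f.IsHomogeneous d := hP.map _
  have es : algebraMap ℂ KK (- (n : ℂ) / (d : ℕ)) = - (n : KK) / (d : ℕ) := by
    rw [map_div₀, map_neg, map_natCast, map_natCast]
  set s : KK := - (n : KK) / (d : ℕ) + tt with hs
  have hpow : ∀ (m j : ℕ) (p : MvPolynomial (Fin n) KK), L (j + m) (p * f ^ m) = L j p := by
    intro m
    induction m with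
    | zero => intro j p; simp
    | succ m ih =>
      intro j p
      have e1 : p * f ^ (m + 1) = f * (p * f ^ m) := by ring
      rw [← add_assoc, e1, h1, ih]
  have hid := congrArg (L M) (hT KK s)
  rw [map_sum] at hid
  have hR : ∀ t ∈ T, ∃ r ∈ RR, L M (map (algebraMap ℂ KK) (A t) * C (s ^ t.2) * Nw f s t.1 *
      f ^ (M - t.1.length)) = tt * r := by
    intro t ht
    have hA : (map (algebraMap ℂ KK) (A t)).IsHomogeneous (t.1.length - d) := (hT3 t ht).map _
    have hle := hT1 t ht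
    have hle' := hT2 t ht
    obtain ⟨r, hr, hr'⟩ := claimT RR f (- (n : KK) / (d : ℕ)) tt κ L hd hfd KK_t_mem hκ h1 h2 h3
      t.1 (map (algebraMap ℂ KK) (A t)) (t.1.length - d) hA
      (fun m => by rw [coeff_map]; exact KK_const_mem _) (by omega)
    have hsR : s ∈ RR := by
      rw [hs, ← es]
      exact RR.add_mem (KK_const_mem _) KK_t_mem
    refine ⟨s ^ t.2 * r, RR.mul_mem (RR.pow_mem hsR _) hr, ?_⟩
    have e2 : M = t.1.length + (M - t.1.length) := by omega
    have e3 : L M (map (algebraMap ℂ KK) (A t) * C (s ^ t.2) * Nw f s t.1 *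
        f ^ (M - t.1.length)) = L (t.1.length + (M - t.1.length))
          (map (algebraMap ℂ KK) (A t) * C (s ^ t.2) * Nw f s t.1 * f ^ (M - t.1.length)) := by
      rw [← e2]
    rw [e3, hpow]
    have e4 : map (algebraMap ℂ KK) (A t) * C (s ^ t.2) * Nw f s t.1 =
        (s ^ t.2) • (map (algebraMap ℂ KK) (A t) * Nw f s t.1) := by
      rw [smul_eq_C_mul]; ring
    rw [e4, map_smul, smul_eq_mul, hr']
    ring
  have hsum : ∃ r ∈ RR, ∑ t ∈ T, L M (map (algebraMap ℂ KK) (A t) * C (s ^ t.2) * Nw f s t.1 *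
      f ^ (M - t.1.length)) = tt * r := by
    choose! r hr hr' using hR
    refine ⟨∑ t ∈ T, r t, RR.sum_mem hr, ?_⟩
    rw [Finset.mul_sum]
    exact Finset.sum_congr rfl hr'
  obtain ⟨r, hr, hr'⟩ := hsum
  rw [hr'] at hid
  have hrhs : L M (C (Polynomial.aeval s b) * f ^ M) = Polynomial.aeval s b * L 0 1 := by
    have e5 : C (Polynomial.aeval s b) * f ^ M = (Polynomial.aeval s b) • (1 * f ^ M) := by
      rw [smul_eq_C_mul, one_mul]
    rw [e5, map_smul, smul_eq_mul]
    have := hpow M 0 1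
    rw [zero_add] at this
    rw [this]
  rw [hrhs] at hid
  obtain ⟨u, hu, hu1⟩ := h4
  refine eval_zero_of_dvd b _ (u * r) (RR.mul_mem hu hr) ?_
  rw [es]
  calc Polynomial.aeval s b = (u * L 0 1) * Polynomial.aeval s b := by rw [hu1, one_mul]
    _ = u * (Polynomial.aeval s b * L 0 1) := by ring
    _ = u * (tt * r) := by rw [← hid]
    _ = tt * (u * r) := by ring

end Pool.Agent.helper14.CND
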