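import Pool.Agent.helper14.KusDefs

/-!
# Small perturbations of the identity are deformations
-/

open Set Metric MeasureTheory
open scoped NNReal ENNReal ContDiff

namespace Kusner

/-- `ρ τ = (1 + τ)^(1/3)`. -/
noncomputable def rho (τ : ℝ) : ℝ := (1 + τ) ^ (1 / 3 : ℝ)

lemma rho_zero : rho 0 = 1 := by simp [rho]

lemma rho_pos {τ : ℝ} (h : -1 < τ) : 0 < rho τ := Real.rpow_pos_of_pos (by linarith) _

lemma rho_cube {τ : ℝ} (h : -1 < τ) : rho τ ^ 3 = 1 + τ := by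
  rw [rho, ← Real.rpow_natCast, ← Real.rpow_mul (by linarith)]
  norm_num

lemma rho_sq {τ : ℝ} (h : -1 < τ) : rho τ ^ 2 = (1 + τ) ^ (2 / 3 : ℝ) := by
  rw [rho, ← Real.rpow_natCast, ← Real.rpow_mul (by linarith)]
  norm_num

lemma half_le_rho {τ : ℝ} (h : -(1 / 2) ≤ τ) : 1 / 2 ≤ rho τ := by
  by_contra hlt
  push Not at hlt
  have h3 := rho_cube (τ := τ) (by linarith)
  have hp := rho_pos (τ := τ) (by linarith)
  nlinarith [sq_nonneg (rho τ), mul_pos hp hp]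

lemma abs_rho_sub_le {a b : ℝ} (ha : |a| ≤ 1 / 2) (hb : |b| ≤ 1 / 2) :
    |rho a - rho b| ≤ 2 * |a - b| := by
  obtain ⟨ha1, ha2⟩ := abs_le.mp ha
  obtain ⟨hb1, hb2⟩ := abs_le.mp hb
  have h3a := rho_cube (τ := a) (by linarith)
  have h3b := rho_cube (τ := b) (by linarith)
  have hxa := half_le_rho ha1
  have hxb := half_le_rho hb1
  have key : a - b = (rho a - rho b) * (rho a ^ 2 + rho a * rho b + rho b ^ 2) := by
    nlinarith
  have hge : 1 / 2 ≤ rho a ^ 2 + rho a * rho b + rho b ^ 2 := by nlinarith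
  rw [key, abs_mul, abs_of_nonneg (by linarith : 0 ≤ rho a ^ 2 + rho a * rho b + rho b ^ 2)]
  nlinarith [abs_nonneg (rho a - rho b)]

/-- The coefficient functions. -/
noncomputable def coef (κ ε t : ℝ) : ℝ := rho (κ * (ε * Real.sin t)) - 1

lemma abs_arg_le {κ ε : ℝ} (hκ : |κ| ≤ 1) (hε : 0 ≤ ε) (t : ℝ) :
    |κ * (ε * Real.sin t)| ≤ ε := by
  rw [abs_mul, abs_mul, abs_of_nonneg hε]
  have := Real.abs_sin_le_one t
  have h1 : ε * |Real.sin t| ≤ ε := by nlinarith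
  have h0 : 0 ≤ ε * |Real.sin t| := by positivity
  calc |κ| * (ε * |Real.sin t|) ≤ 1 * (ε * |Real.sin t|) := by gcongr
    _ ≤ ε := by linarith

lemma abs_coef_le {κ ε : ℝ} (hκ : |κ| ≤ 1) (hε : 0 ≤ ε) (hε' : ε ≤ 1 / 2) (t : ℝ) :
    |coef κ ε t| ≤ 2 * ε := by
  have h1 := abs_arg_le hκ hε t
  have h2 := abs_rho_sub_le (a := κ * (ε * Real.sin t)) (b := 0) (by linarith) (by simp)
  rw [rho_zero, sub_zero] at h2
  rw [coef]
  linarith

lemma abs_coef_sub_le {κ ε : ℝ} (hκ : |κ| ≤ 1) (hε : 0 ≤ ε) (hε' : ε ≤ 1 / 2) (t t' : ℝ) :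
    |coef κ ε t - coef κ ε t'| ≤ 2 * ε * |t - t'| := by
  have h1 := abs_arg_le hκ hε t
  have h1' := abs_arg_le hκ hε t'
  have h2 := abs_rho_sub_le (a := κ * (ε * Real.sin t)) (b := κ * (ε * Real.sin t'))
    (by linarith) (by linarith)
  have h3 := Real.abs_sin_sub_sin_le t t'
  have h4 : |κ * (ε * Real.sin t) - κ * (ε * Real.sin t')| ≤ ε * |t - t'| := by
    rw [← mul_sub, ← mul_sub, abs_mul, abs_mul, abs_of_nonneg hε]
    calc |κ| * (ε * |Real.sin t - Real.sin t'|) ≤ 1 * (ε * |t - t'|) := by gcongr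
      _ = ε * |t - t'| := one_mul _
  rw [coef, coef, sub_sub_sub_cancel_right]
  linarith

lemma coef_contDiff {κ ε : ℝ} (hκ : |κ| ≤ 1) (hε : 0 ≤ ε) (hε' : ε ≤ 1 / 2) :
    ContDiff ℝ ∞ (coef κ ε) := by
  unfold coef rho
  refine ContDiff.sub ?_ contDiff_const
  refine ContDiff.rpow_const_of_ne ?_ fun t => ?_
  · exact contDiff_const.add (contDiff_const.mul (contDiff_const.mul Real.contDiff_sin))
  · have := abs_le.mp (abs_arg_le hκ hε t)
    linarith [this.1]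

lemma coef_zero (κ ε : ℝ) : coef κ ε 0 = 0 := by simp [coef, rho_zero]

/-- The perturbation of the identity. -/
noncomputable def pert {ι : Type*} [Fintype ι] (V : ι → E3 → E3) (κ : ι → ℝ) (ε : ℝ)
    (t : ℝ) (x : E3) : E3 :=
  x + ∑ i, coef (κ i) ε t • V i x

theorem exists_deformation {ι : Type*} [Fintype ι] (V : ι → E3 → E3) (κ : ι → ℝ)
    (hV : ∀ i, ContDiff ℝ ∞ (V i)) (hVc : ∀ i, HasCompactSupport (V i)) (hκ : ∀ i, |κ i| ≤ 1) :
    ∃ ε : ℝ, 0 < ε ∧ ε ≤ 1 / 2 ∧ IsDeformation (pert V κ ε) := by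
  -- bounds
  have hL : ∀ i, ∃ C : ℝ≥0, LipschitzWith C (V i) := fun i =>
    (hV i).lipschitzWith_of_hasCompactSupport (𝕂 := ℝ) (hVc i) (by simp)
  choose C hC using hL
  have hB : ∀ i, ∃ B : ℝ, ∀ x, ‖V i x‖ ≤ B := fun i =>
    (hV i).continuous.bounded_above_of_compact_support (hVc i)
  choose B hB using hB
  have hS : ∀ i, ∃ R : ℝ, 0 < R ∧ ∀ x : E3, R ≤ ‖x‖ → V i x = 0 := fun i =>
    (hVc i).exists_pos_le_norm
  choose R hR0 hR using hS
  have hB0 : ∀ i, 0 ≤ B i := fun i => (norm_nonneg _).trans (hB i 0)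
  set M : ℝ := ∑ i, (C i + B i) with hM
  have hM0 : 0 ≤ M := Finset.sum_nonneg fun i _ => add_nonneg (C i).2 (hB0 i)
  set ε : ℝ := 1 / (4 * (M + 1)) with hε
  have hεpos : 0 < ε := by positivity
  have hεle : ε ≤ 1 / 2 := by
    rw [hε, div_le_div_iff₀ (by positivity) (by norm_num)]
    linarith
  have hεM : 2 * ε * M ≤ 1 / 2 := by
    rw [hε]
    rw [mul_one_div, div_mul_eq_mul_div, div_le_div_iff₀ (by positivity) (by norm_num)]
    nlinarith
  refine ⟨ε, hεpos, hεle, ?_⟩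
  -- the map on space-time
  set G : ℝ × E3 → E3 := fun p => ∑ i, coef (κ i) ε p.1 • V i p.2 with hG
  have hGs : ContDiff ℝ ∞ G := by
    refine ContDiff.sum fun i _ => ?_
    exact ((coef_contDiff (hκ i) hεpos.le hεle).comp contDiff_fst).smul
      ((hV i).comp contDiff_snd)
  have hGl : LipschitzWith (1 / 2 : ℝ≥0) G := by
    refine LipschitzWith.of_dist_le_mul fun p q => ?_
    rw [dist_eq_norm, dist_eq_norm]
    have hp1 : |p.1 - q.1| ≤ ‖p - q‖ := by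
      have := norm_fst_le (p - q)
      simpa using this
    have hp2 : ‖p.2 - q.2‖ ≤ ‖p - q‖ := by
      have := norm_snd_le (p - q)
      simpa using this
    have hterm : ∀ i, ‖coef (κ i) ε p.1 • V i p.2 - coef (κ i) ε q.1 • V i q.2‖ ≤
        2 * ε * (C i + B i) * ‖p - q‖ := by
      intro i
      have : coef (κ i) ε p.1 • V i p.2 - coef (κ i) ε q.1 • V i q.2 =
          coef (κ i) ε p.1 • (V i p.2 - V i q.2) +
            (coef (κ i) ε p.1 - coef (κ i) ε q.1) • V i q.2 := by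
        rw [smul_sub, sub_smul]; abel
      rw [this]
      refine (norm_add_le _ _).trans ?_
      rw [norm_smul, norm_smul, Real.norm_eq_abs, Real.norm_eq_abs]
      have h1 := abs_coef_le (hκ i) hεpos.le hεle p.1
      have h2 := abs_coef_sub_le (hκ i) hεpos.le hεle p.1 q.1
      have h3 : ‖V i p.2 - V i q.2‖ ≤ C i * ‖p.2 - q.2‖ := (hC i).norm_sub_le _ _
      have h4 := hB i q.2
      have hCi : (0 : ℝ) ≤ C i := (C i).2
      calc |coef (κ i) ε p.1| * ‖V i p.2 - V i q.2‖ +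
            |coef (κ i) ε p.1 - coef (κ i) ε q.1| * ‖V i q.2‖
          ≤ (2 * ε) * (C i * ‖p - q‖) + (2 * ε * ‖p - q‖) * B i := by
            have h3' : ‖V i p.2 - V i q.2‖ ≤ C i * ‖p - q‖ :=
              h3.trans (by gcongr)
            have h2' : |coef (κ i) ε p.1 - coef (κ i) ε q.1| ≤ 2 * ε * ‖p - q‖ :=
              h2.trans (by gcongr)
            gcongr
        _ = 2 * ε * (C i + B i) * ‖p - q‖ := by ring
    calc ‖G p - G q‖ = ‖∑ i, (coef (κ i) ε p.1 • V i p.2 - coef (κ i) ε q.1 • V i q.2)‖ := by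
          rw [Finset.sum_sub_distrib]
      _ ≤ ∑ i, 2 * ε * (C i + B i) * ‖p - q‖ :=
          (norm_sum_le _ _).trans (Finset.sum_le_sum fun i _ => hterm i)
      _ = 2 * ε * M * ‖p - q‖ := by rw [hM, Finset.mul_sum, Finset.sum_mul]
      _ ≤ ((1 / 2 : ℝ≥0) : ℝ) * ‖p - q‖ := by
          have : ((1 / 2 : ℝ≥0) : ℝ) = 1 / 2 := by simp
          rw [this]
          gcongr
  set F : ℝ × E3 → ℝ × E3 := fun p => (p.1, p.2 + G p) with hF
  have hFs : ContDiff ℝ ∞ F := contDiff_fst.prodMk (contDiff_snd.add hGs)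
  have happ : ApproximatesLinearOn F
      ((ContinuousLinearEquiv.refl ℝ (ℝ × E3) : (ℝ × E3) ≃L[ℝ] (ℝ × E3)) :
        (ℝ × E3) →L[ℝ] (ℝ × E3)) univ (1 / 2 : ℝ≥0) := by
    intro p _ q _
    have h1 : F p - F q - ((ContinuousLinearEquiv.refl ℝ (ℝ × E3) :
        (ℝ × E3) ≃L[ℝ] (ℝ × E3)) : (ℝ × E3) →L[ℝ] (ℝ × E3)) (p - q) = (0, G p - G q) := by
      ext1
      · simp [hF]
      · simp [hF]
        abel
    rw [h1]
    have h2 := hGl.norm_sub_le p q
    calc ‖((0 : ℝ), G p - G q)‖ = ‖G p - G q‖ := by simp [Prod.norm_def]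
      _ ≤ _ := h2
  have hc : Subsingleton (ℝ × E3) ∨ (1 / 2 : ℝ≥0) <
      ‖(((ContinuousLinearEquiv.refl ℝ (ℝ × E3)).symm : (ℝ × E3) ≃L[ℝ] (ℝ × E3)) :
        (ℝ × E3) →L[ℝ] (ℝ × E3))‖₊⁻¹ := by
    right
    have : ‖(((ContinuousLinearEquiv.refl ℝ (ℝ × E3)).symm : (ℝ × E3) ≃L[ℝ] (ℝ × E3)) :
        (ℝ × E3) →L[ℝ] (ℝ × E3))‖₊ = 1 := by
      have : (((ContinuousLinearEquiv.refl ℝ (ℝ × E3)).symm : (ℝ × E3) ≃L[ℝ] (ℝ × E3)) :
        (ℝ × E3) →L[ℝ] (ℝ × E3)) = ContinuousLinearMap.id ℝ (ℝ × E3) := rfl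
      rw [this]
      exact ContinuousLinearMap.nnnorm_id
    rw [this]
    simp only [inv_one]
    rw [div_lt_one (by norm_num)]
    norm_num
  set H : (ℝ × E3) ≃ₜ (ℝ × E3) := happ.toHomeomorph F hc with hH
  have hHF : ∀ p, H p = F p := fun p => rfl
  -- the derivative is invertible
  have hder : ∀ p, ∃ e : (ℝ × E3) ≃L[ℝ] (ℝ × E3),
      HasFDerivAt H (e : (ℝ × E3) →L[ℝ] (ℝ × E3)) p := by
    intro p
    have hGd : HasFDerivAt G (fderiv ℝ G p) p :=
      (hGs.differentiable (by simp) p).hasFDerivAt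
    have hGn : ‖fderiv ℝ G p‖ ≤ 1 / 2 := by
      have := norm_fderiv_le_of_lipschitz ℝ (x₀ := p) hGl
      simpa using this
    set T : (ℝ × E3) →L[ℝ] (ℝ × E3) :=
      -((ContinuousLinearMap.inr ℝ ℝ E3).comp (fderiv ℝ G p)) with hT
    have hTn : ‖T‖ < 1 := by
      rw [hT, norm_neg]
      refine (ContinuousLinearMap.opNorm_comp_le _ _).trans_lt ?_
      have h1 : ‖ContinuousLinearMap.inr ℝ ℝ E3‖ ≤ 1 := by
        refine ContinuousLinearMap.opNorm_le_bound _ zero_le_one fun x => ?_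
        simp [Prod.norm_def]
      nlinarith [norm_nonneg (fderiv ℝ G p), norm_nonneg (ContinuousLinearMap.inr ℝ ℝ E3)]
    refine ⟨ContinuousLinearEquiv.unitsEquiv ℝ _ (Units.oneSub T hTn), ?_⟩
    have h2 : HasFDerivAt F ((ContinuousLinearMap.fst ℝ ℝ E3).prod
        (ContinuousLinearMap.snd ℝ ℝ E3 + fderiv ℝ G p)) p :=
      hasFDerivAt_fst.prodMk (hasFDerivAt_snd.add hGd)
    have h3 : ((ContinuousLinearEquiv.unitsEquiv ℝ (ℝ × E3) (Units.oneSub T hTn) :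
        (ℝ × E3) ≃L[ℝ] (ℝ × E3)) : (ℝ × E3) →L[ℝ] (ℝ × E3)) =
        ((ContinuousLinearMap.fst ℝ ℝ E3).prod
        (ContinuousLinearMap.snd ℝ ℝ E3 + fderiv ℝ G p)) := by
      refine ContinuousLinearMap.ext fun v => ?_
      have h4 : ((ContinuousLinearEquiv.unitsEquiv ℝ (ℝ × E3) (Units.oneSub T hTn) :
        (ℝ × E3) ≃L[ℝ] (ℝ × E3)) : (ℝ × E3) →L[ℝ] (ℝ × E3)) v =
          ((Units.oneSub T hTn : ((ℝ × E3) →L[ℝ] (ℝ × E3))ˣ) :
            (ℝ × E3) →L[ℝ] (ℝ × E3)) v := rfl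
      rw [h4]
      have h5 : ((Units.oneSub T hTn : ((ℝ × E3) →L[ℝ] (ℝ × E3))ˣ) :
            (ℝ × E3) →L[ℝ] (ℝ × E3)) = 1 - T := rfl
      rw [h5, hT]
      ext1
      · simp
      · simp
    rw [h3]
    exact h2
  choose e he using hder
  have hHs : ContDiff ℝ ∞ H := hFs
  have hinv : ContDiff ℝ ∞ H.symm := H.contDiff_symm he hHs
  have hfst : ∀ p, (H.symm p).1 = p.1 := by
    intro p
    have h1 : H (H.symm p) = p := H.apply_symm_apply p
    have h2 : (H (H.symm p)).1 = (H.symm p).1 := rfl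
    rw [← h2, h1]
  refine ⟨?_, ?_, ⟨fun t x => (H.symm (t, x)).2, ?_, ?_, ?_⟩, ?_⟩
  · exact contDiff_snd.comp hFs
  · intro x
    simp [pert, coef_zero]
  · exact contDiff_snd.comp hinv
  · intro t x
    have h1 : H (t, x) = (t, pert V κ ε t x) := rfl
    have h2 : H.symm (t, pert V κ ε t x) = (t, x) := by
      rw [← h1, H.symm_apply_apply]
    simp only [h2]
  · intro t x
    have h1 : H (H.symm (t, x)) = (t, x) := H.apply_symm_apply _
    have h2 : H.symm (t, x) = (t, (H.symm (t, x)).2) := by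
      ext1
      · exact hfst _
      · rfl
    have h3 : H (t, (H.symm (t, x)).2) = (t, pert V κ ε t (H.symm (t, x)).2) := rfl
    rw [h2, h3] at h1
    exact (Prod.ext_iff.mp h1).2
  · refine ⟨∑ i, R i, fun t x hx => ?_⟩
    have hz : ∀ i, V i x = 0 := fun i => by
      refine hR i x (le_trans ?_ hx.le)
      exact Finset.single_le_sum (fun j _ => (hR0 j).le) (Finset.mem_univ i)
    simp [pert, hz]

end Kusner
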