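import Pool.Agent.helper14.KusSphere
import Pool.Agent.helper14.KusDiffeo

/-!
# The cluster: a cell with two components, each wrapped in its own shell
-/

open Set Metric MeasureTheory
open scoped NNReal ENNReal ContDiff Topology

namespace Kusner

/-- The two centres. -/
noncomputable def cen : Fin 2 → E3 := ![0, !₂[10, 0, 0]]

/-- The two radii. -/
noncomputable def rad : Fin 2 → ℝ := ![1, 2]

/-- The four spheres. -/
noncomputable def S (p : Fin 2 × Fin 2) : Set E3 := sphere (cen p.1) (rad p.2)

/-- The shell of radii `1` and `2`. -/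
def shell (c : E3) : Set E3 := ball c 2 \ closedBall c 1

/-- The cells. -/
noncomputable def Om : Fin 3 → Set E3 :=
  ![ball (cen 0) 1 ∪ ball (cen 1) 1, shell (cen 0), shell (cen 1)]

lemma dist_cen : dist (cen 0) (cen 1) = 10 := by
  rw [EuclideanSpace.dist_eq, Fin.sum_univ_three]
  simp [cen]

lemma far {k k' : Fin 2} (h : k ≠ k') (x : E3) : 10 ≤ dist x (cen k) + dist x (cen k') := by
  have h1 := dist_triangle_left (cen 0) (cen 1) x
  rw [dist_cen] at h1
  fin_cases k <;> fin_cases k' <;> simp at h ⊢ <;> linarith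

lemma far01 (x : E3) : 10 ≤ dist x (cen 0) + dist x (cen 1) := far (by decide) x

lemma rad_pos (l : Fin 2) : 0 < rad l := by fin_cases l <;> simp [rad]

lemma one_le_rad (l : Fin 2) : 1 ≤ rad l := by fin_cases l <;> simp [rad]

lemma rad_le_two (l : Fin 2) : rad l ≤ 2 := by fin_cases l <;> simp [rad]

lemma mem_S {p : Fin 2 × Fin 2} {x : E3} : x ∈ S p ↔ dist x (cen p.1) = rad p.2 := Iff.rfl

/-- Points of two different spheres have distance at least `1`. -/
lemma S_dist {p q : Fin 2 × Fin 2} (h : p ≠ q) {x y : E3} (hx : x ∈ S p) (hy : y ∈ S q) :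
    1 ≤ dist x y := by
  rw [mem_S] at hx hy
  by_cases h1 : p.1 = q.1
  · have h2 : p.2 ≠ q.2 := fun h2 => h (Prod.ext h1 h2)
    rw [h1] at hx
    have t1 := dist_triangle x y (cen q.1)
    have t2 := dist_triangle_left y (cen q.1) x
    rw [hx, hy] at t1
    rw [hx, hy] at t2
    generalize p.2 = a at *
    generalize q.2 = b at *
    fin_cases a <;> fin_cases b <;> simp [rad] at h2 t1 t2 ⊢ <;> linarith
  · have t1 := far h1 x
    have t2 := dist_triangle x y (cen q.1)
    have := rad_le_two p.2
    have := rad_le_two q.2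
    linarith

lemma S_disjoint {p q : Fin 2 × Fin 2} (h : p ≠ q) : S p ∩ S q = ∅ := by
  rw [eq_empty_iff_forall_notMem]
  rintro x ⟨hp, hq⟩
  have := S_dist h hp hq
  rw [dist_self] at this
  linarith

lemma dist_radial (c x : E3) {s : ℝ} (hs : 0 ≤ s) :
    dist (c + s • (x - c)) c = s * dist x c := by
  rw [dist_eq_norm, dist_eq_norm, add_sub_cancel_left, norm_smul, Real.norm_eq_abs,
    abs_of_nonneg hs]

lemma tendsto_radial (c x : E3) (l : Filter ℝ) (hl : l ≤ 𝓝 1) :
    Filter.Tendsto (fun s : ℝ => c + s • (x - c)) l (𝓝 x) := by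
  have h : Filter.Tendsto (fun s : ℝ => c + s • (x - c)) (𝓝 1) (𝓝 (c + (1 : ℝ) • (x - c))) := by
    apply Continuous.tendsto
    fun_prop
  have h1 : c + (1 : ℝ) • (x - c) = x := by rw [one_smul]; abel
  rw [h1] at h
  exact h.mono_left hl

lemma mem_closure_out {c x : E3} {A : Set E3} {δ : ℝ} (hδ : 1 < δ)
    (h : ∀ s, 1 < s → s < δ → c + s • (x - c) ∈ A) : x ∈ closure A := by
  refine mem_closure_of_tendsto (tendsto_radial c x (𝓝[>] 1) nhdsWithin_le_nhds) ?_
  filter_upwards [Ioo_mem_nhdsGT hδ] with s hs using h s hs.1 hs.2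

lemma mem_closure_in {c x : E3} {A : Set E3} {δ : ℝ} (hδ : δ < 1)
    (h : ∀ s, δ < s → s < 1 → c + s • (x - c) ∈ A) : x ∈ closure A := by
  refine mem_closure_of_tendsto (tendsto_radial c x (𝓝[<] 1) nhdsWithin_le_nhds) ?_
  filter_upwards [Ioo_mem_nhdsLT hδ] with s hs using h s hs.1 hs.2

lemma isClosed_ge (c : E3) (a : ℝ) : IsClosed {x : E3 | a ≤ dist x c} :=
  isClosed_le continuous_const (continuous_id.dist continuous_const)

lemma isClosed_le' (c : E3) (a : ℝ) : IsClosed {x : E3 | dist x c ≤ a} :=
  isClosed_le (continuous_id.dist continuous_const) continuous_const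

lemma mem_shell {c x : E3} : x ∈ shell c ↔ 1 < dist x c ∧ dist x c < 2 := by
  simp [shell, and_comm]

lemma isOpen_shell (c : E3) : IsOpen (shell c) := isOpen_ball.sdiff isClosed_closedBall

lemma closure_shell (c : E3) : closure (shell c) = {x | 1 ≤ dist x c ∧ dist x c ≤ 2} := by
  apply Subset.antisymm
  · apply closure_minimal
    · intro x hx
      rw [mem_shell] at hx
      exact ⟨hx.1.le, hx.2.le⟩
    · exact (isClosed_ge c 1).inter (isClosed_le' c 2)
  · rintro x ⟨h1, h2⟩
    rcases h1.lt_or_eq with h1 | h1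
    · rcases h2.lt_or_eq with h2 | h2
      · exact subset_closure (mem_shell.2 ⟨h1, h2⟩)
      · refine mem_closure_in (c := c) (δ := 1 / 2) (by norm_num) fun s hs1 hs2 => ?_
        rw [mem_shell, dist_radial c x (by linarith), h2]
        constructor <;> linarith
    · refine mem_closure_out (c := c) (δ := 2) (by norm_num) fun s hs1 hs2 => ?_
      rw [mem_shell, dist_radial c x (by linarith), ← h1]
      constructor <;> linarith

lemma frontier_shell (c : E3) : frontier (shell c) = sphere c 1 ∪ sphere c 2 := by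
  rw [(isOpen_shell c).frontier_eq, closure_shell]
  ext x
  simp only [mem_sdiff, mem_ofPred_eq, mem_union, mem_sphere, mem_shell]
  constructor
  · rintro ⟨⟨h1, h2⟩, h3⟩
    rcases h1.lt_or_eq with h1 | h1
    · right
      by_contra h4
      exact h3 ⟨h1, lt_of_le_of_ne h2 h4⟩
    · exact Or.inl h1.symm
  · rintro (h | h)
    · rw [h]; norm_num
    · rw [h]; norm_num

lemma frontier_balls :
    frontier (ball (cen 0) 1 ∪ ball (cen 1) 1) = sphere (cen 0) 1 ∪ sphere (cen 1) 1 := by
  rw [(isOpen_ball.union isOpen_ball).frontier_eq, closure_union, closure_ball _ one_ne_zero,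
    closure_ball _ one_ne_zero]
  ext x
  have := far01 x
  simp only [mem_sdiff, mem_union, mem_closedBall, mem_ball, mem_sphere]
  constructor
  · rintro ⟨h1 | h1, h2⟩
    · left
      by_contra h3
      exact h2 (Or.inl (lt_of_le_of_ne h1 h3))
    · right
      by_contra h3
      exact h2 (Or.inr (lt_of_le_of_ne h1 h3))
  · rintro (h | h)
    · refine ⟨Or.inl h.le, ?_⟩
      rintro (h1 | h1) <;> linarith
    · refine ⟨Or.inr h.le, ?_⟩
      rintro (h1 | h1) <;> linarith

lemma closure_union_Om :
    closure (⋃ i, Om i) = closedBall (cen 0) 2 ∪ closedBall (cen 1) 2 := by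
  apply Subset.antisymm
  · apply closure_minimal _ (isClosed_closedBall.union isClosed_closedBall)
    rintro x hx
    obtain ⟨i, hi⟩ := mem_iUnion.mp hx
    fin_cases i
    · rcases hi with h | h
      · left; rw [mem_ball] at h; rw [mem_closedBall]; linarith
      · right; rw [mem_ball] at h; rw [mem_closedBall]; linarith
    · left
      have := mem_shell.mp hi
      rw [mem_closedBall]; linarith [this.2]
    · right
      have := mem_shell.mp hi
      rw [mem_closedBall]; linarith [this.2]
  · rintro x (hx | hx)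
    · rw [mem_closedBall] at hx
      by_cases h1 : dist x (cen 0) < 1
      · exact subset_closure (mem_iUnion.mpr ⟨0, Or.inl h1⟩)
      · have : x ∈ closure (shell (cen 0)) := by
          rw [closure_shell]
          exact ⟨not_lt.mp h1, hx⟩
        exact closure_mono (subset_iUnion Om 1) this
    · rw [mem_closedBall] at hx
      by_cases h1 : dist x (cen 1) < 1
      · exact subset_closure (mem_iUnion.mpr ⟨0, Or.inr h1⟩)
      · have : x ∈ closure (shell (cen 1)) := by
          rw [closure_shell]
          exact ⟨not_lt.mp h1, hx⟩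
        exact closure_mono (subset_iUnion Om 2) this

lemma mem_ext {x : E3} : x ∈ (closure (⋃ i, Om i))ᶜ ↔ 2 < dist x (cen 0) ∧ 2 < dist x (cen 1) := by
  rw [closure_union_Om]
  simp

lemma frontier_ext :
    frontier (closure (⋃ i, Om i))ᶜ = sphere (cen 0) 2 ∪ sphere (cen 1) 2 := by
  rw [isClosed_closure.isOpen_compl.frontier_eq]
  ext x
  have hfar := far01 x
  rw [mem_sdiff, mem_ext]
  simp only [mem_union, mem_sphere]
  constructor
  · rintro ⟨h1, h2⟩
    have h3 : x ∈ {x : E3 | 2 ≤ dist x (cen 0) ∧ 2 ≤ dist x (cen 1)} := by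
      refine closure_minimal ?_ ?_ h1
      · intro y hy
        rw [mem_ext] at hy
        exact ⟨hy.1.le, hy.2.le⟩
      · exact (isClosed_ge (cen 0) 2).inter (isClosed_ge (cen 1) 2)
    obtain ⟨h4, h5⟩ := h3
    by_contra h6
    push Not at h6
    exact h2 ⟨lt_of_le_of_ne h4 (Ne.symm h6.1), lt_of_le_of_ne h5 (Ne.symm h6.2)⟩
  · rintro (h | h)
    · refine ⟨?_, fun h1 => by linarith [h1.1]⟩
      refine mem_closure_out (c := cen 0) (δ := 2) (by norm_num) fun s hs1 hs2 => ?_
      have h2 := dist_radial (cen 0) x (s := s) (by linarith)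
      have h3 := far01 (cen 0 + s • (x - cen 0))
      rw [h] at h2
      rw [mem_ext]
      constructor <;> linarith
    · refine ⟨?_, fun h1 => by linarith [h1.2]⟩
      refine mem_closure_out (c := cen 1) (δ := 2) (by norm_num) fun s hs1 hs2 => ?_
      have h2 := dist_radial (cen 1) x (s := s) (by linarith)
      have h3 := far01 (cen 1 + s • (x - cen 1))
      rw [h] at h2
      rw [mem_ext]
      constructor <;> linarith

/-- The spheres bounding each of the four cells. -/
def idx : Fin 4 → Finset (Fin 2 × Fin 2) :=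
  ![{(0, 0), (1, 0)}, {(0, 0), (0, 1)}, {(1, 0), (1, 1)}, {(0, 1), (1, 1)}]

lemma cell0 : cell Om 0 = ball (cen 0) 1 ∪ ball (cen 1) 1 := rfl
lemma cell1 : cell Om 1 = shell (cen 0) := rfl
lemma cell2 : cell Om 2 = shell (cen 1) := rfl
lemma cell3 : cell Om 3 = (closure (⋃ i, Om i))ᶜ := rfl

lemma frontier_cell (i : Fin 4) : frontier (cell Om i) = ⋃ p ∈ idx i, S p := by
  fin_cases i
  · change frontier (cell Om 0) = _
    rw [cell0, frontier_balls]
    simp [idx, S, rad]
  · change frontier (cell Om 1) = _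
    rw [cell1, frontier_shell]
    simp [idx, S, rad]
  · change frontier (cell Om 2) = _
    rw [cell2, frontier_shell]
    simp [idx, S, rad]
  · change frontier (cell Om 3) = _
    rw [cell3, frontier_ext]
    simp [idx, S, rad]

lemma interface_eq (i j : Fin 4) : interface Om i j = ⋃ p ∈ idx i ∩ idx j, S p := by
  rw [interface, frontier_cell, frontier_cell]
  ext x
  simp only [mem_inter_iff, mem_iUnion, Finset.mem_inter, exists_prop]
  constructor
  · rintro ⟨⟨p, hp, hxp⟩, ⟨q, hq, hxq⟩⟩
    by_cases h : p = q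
    · subst h
      exact ⟨p, ⟨hp, hq⟩, hxp⟩
    · have : x ∈ S p ∩ S q := ⟨hxp, hxq⟩
      rw [S_disjoint h] at this
      exact this.elim
  · rintro ⟨p, ⟨hp, hq⟩, hxp⟩
    exact ⟨⟨p, hp, hxp⟩, ⟨p, hq, hxp⟩⟩

lemma i01 : interface Om 0 1 = S (0, 0) := by
  rw [interface_eq]
  have : idx 0 ∩ idx 1 = {(0, 0)} := by decide
  rw [this]; simp
lemma i02 : interface Om 0 2 = S (1, 0) := by
  rw [interface_eq]
  have : idx 0 ∩ idx 2 = {(1, 0)} := by decide
  rw [this]; simp
lemma i03 : interface Om 0 3 = ∅ := by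
  rw [interface_eq]
  have : idx 0 ∩ idx 3 = ∅ := by decide
  rw [this]; simp
lemma i12 : interface Om 1 2 = ∅ := by
  rw [interface_eq]
  have : idx 1 ∩ idx 2 = ∅ := by decide
  rw [this]; simp
lemma i13 : interface Om 1 3 = S (0, 1) := by
  rw [interface_eq]
  have : idx 1 ∩ idx 3 = {(0, 1)} := by decide
  rw [this]; simp
lemma i23 : interface Om 2 3 = S (1, 1) := by
  rw [interface_eq]
  have : idx 2 ∩ idx 3 = {(1, 1)} := by decide
  rw [this]; simp

lemma interface_comm (i j : Fin 4) : interface Om i j = interface Om j i := inter_comm _ _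

lemma isCluster_Om : IsCluster Om := by
  refine ⟨?_, ?_, ?_, ?_⟩
  · intro i
    fin_cases i
    · exact isOpen_ball.union isOpen_ball
    · exact isOpen_shell _
    · exact isOpen_shell _
  · intro i j hij
    rw [Set.disjoint_left]
    intro x hi hj
    have := far01 x
    fin_cases i <;> fin_cases j <;>
      simp [Om, mem_shell, mem_ball] at hij hi hj <;>
      first
        | (rcases hi with hi | hi <;> linarith [hj.1, hj.2])
        | (rcases hj with hj | hj <;> linarith [hi.1, hi.2])
        | linarith [hi.1, hi.2, hj.1, hj.2]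
  · intro i
    have hs : ∀ c : E3, (shell c).Nonempty := by
      intro c
      refine ⟨c + EuclideanSpace.single 0 (3 / 2 : ℝ), ?_⟩
      rw [mem_shell, dist_eq_norm, add_sub_cancel_left, PiLp.norm_single]
      norm_num
    fin_cases i
    · exact (isOpen_ball.union isOpen_ball).measure_pos _
        ⟨cen 0, Or.inl (mem_ball_self one_pos)⟩
    · exact (isOpen_shell _).measure_pos _ (hs _)
    · exact (isOpen_shell _).measure_pos _ (hs _)
  · intro i
    fin_cases i
    · exact (measure_union_lt_top measure_ball_lt_top measure_ball_lt_top)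
    · exact (measure_mono sdiff_subset).trans_lt measure_ball_lt_top
    · exact (measure_mono sdiff_subset).trans_lt measure_ball_lt_top

lemma spherical_Om : HasSphericalInterfaces Om := by
  have key : ∀ i j : Fin 4, i ≠ j → idx i ∩ idx j = ∅ ∨ ∃ p, idx i ∩ idx j = {p} := by decide
  intro i j hij
  left
  rw [interface_eq]
  rcases key i j hij with h | ⟨p, h⟩
  · exact ⟨0, 1, one_pos, by rw [h]; simp⟩
  · refine ⟨cen p.1, rad p.2, rad_pos _, ?_⟩
    rw [h]
    simp [S]

lemma film_Om : film Om = ⋃ p, S p := by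
  have key : ∀ p : Fin 2 × Fin 2, ∃ i j : Fin 4, i ≠ j ∧ p ∈ idx i ∩ idx j := by decide
  ext x
  simp only [film, mem_iUnion, interface_eq, exists_prop]
  constructor
  · rintro ⟨i, j, _, p, _, hx⟩
    exact ⟨p, hx⟩
  · rintro ⟨p, hx⟩
    obtain ⟨i, j, hij, hp⟩ := key p
    exact ⟨i, j, hij, p, hp, hx⟩

end Kusner
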