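import Mathlib

/-!
# Clusters in `ℝ³`, spherical interfaces, Plateau's laws, stability

Definitions for Kusner's question on the stability of clusters with spherical interfaces.
-/

open Set Metric MeasureTheory
open scoped ContDiff Topology

namespace Kusner

/-- Euclidean three-space. -/
abbrev E3 : Type := EuclideanSpace ℝ (Fin 3)

/-- A cluster: a finite family of pairwise disjoint open sets (the bounded cells)
of finite positive volume. -/
structure IsCluster {k : ℕ} (Ω : Fin k → Set E3) : Prop where
  isOpen : ∀ i, IsOpen (Ω i)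
  disjoint : Pairwise fun i j => Disjoint (Ω i) (Ω j)
  volume_pos : ∀ i, 0 < volume (Ω i)
  volume_lt_top : ∀ i, volume (Ω i) < ⊤

/-- All cells of the cluster, indexed by `Fin (k+1)`: the first `k` are the given ones, the
last one is the unbounded complement `ℝ³ \ closure (Ω₁ ∪ ⋯ ∪ Ω_k)`. -/
def cell {k : ℕ} (Ω : Fin k → Set E3) : Fin (k + 1) → Set E3 :=
  Fin.snoc (α := fun _ => Set E3) Ω (closure (⋃ i, Ω i))ᶜ

/-- The interface `Σᵢⱼ = ∂Ωᵢ ∩ ∂Ωⱼ`. -/
def interface {k : ℕ} (Ω : Fin k → Set E3) (i j : Fin (k + 1)) : Set E3 :=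
  frontier (cell Ω i) ∩ frontier (cell Ω j)

/-- The union of all interfaces. -/
def film {k : ℕ} (Ω : Fin k → Set E3) : Set E3 :=
  ⋃ (i : Fin (k + 1)) (j : Fin (k + 1)) (_ : i ≠ j), interface Ω i j

/-- Every interface is contained in a round sphere or in a plane. -/
def HasSphericalInterfaces {k : ℕ} (Ω : Fin k → Set E3) : Prop :=
  ∀ i j, i ≠ j →
    (∃ c : E3, ∃ r : ℝ, 0 < r ∧ interface Ω i j ⊆ sphere c r) ∨
    (∃ n : E3, n ≠ 0 ∧ ∃ a : ℝ, interface Ω i j ⊆ {x | inner ℝ n x = a})

/-- The model of a regular point: a plane. -/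
def planeCone : Set E3 := {x | x 2 = 0}

/-- The model of a point on a triple curve: three half planes meeting along the third
coordinate axis at angles of `120` degrees. -/
def yCone : Set E3 :=
  {x | ∃ s : ℝ, 0 ≤ s ∧ ((x 0 = s ∧ x 1 = 0) ∨ (x 0 = -s / 2 ∧ x 1 = Real.sqrt 3 / 2 * s) ∨
    (x 0 = -s / 2 ∧ x 1 = -(Real.sqrt 3 / 2 * s)))}

/-- The vertices of a regular tetrahedron centred at the origin. -/
def tetra : Fin 4 → E3 :=
  ![!₂[1, 1, 1], !₂[1, -1, -1], !₂[-1, 1, -1], !₂[-1, -1, 1]]

/-- The model of a point where four triple curves meet: the cone over the edges of a regular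
tetrahedron (the four rays through the vertices make the angles `arccos (-1/3)`). -/
def tCone : Set E3 :=
  {x | ∃ i j : Fin 4, i ≠ j ∧ ∃ a b : ℝ, 0 ≤ a ∧ 0 ≤ b ∧ x = a • tetra i + b • tetra j}

/-- Near `p` the set `S` is the preimage of the cone `C` under a smooth map `Φ` with `Φ p = 0`
whose derivative at `p` is a linear isometry (by the inverse function theorem such a `Φ` is a
smooth local chart, and the angles at `p` are those of the cone). -/
def LocallyLike (S C : Set E3) (p : E3) : Prop :=
  ∃ (W : Set E3) (Φ : E3 → E3) (L : E3 ≃ₗᵢ[ℝ] E3), IsOpen W ∧ p ∈ W ∧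
    ContDiffOn ℝ ∞ Φ W ∧ Φ p = 0 ∧
    HasFDerivAt Φ (L.toContinuousLinearEquiv : E3 →L[ℝ] E3) p ∧
    ∀ x ∈ W, x ∈ S ↔ Φ x ∈ C

/-- Plateau's laws: each point of the union of the interfaces is a regular point, or a point
where three sheets meet at `120` degrees along a smooth curve, or an isolated point where four
such curves meet at tetrahedral angles. -/
def ObeysPlateau {k : ℕ} (Ω : Fin k → Set E3) : Prop :=
  ∀ p ∈ film Ω, LocallyLike (film Ω) planeCone p ∨ LocallyLike (film Ω) yCone p ∨
    LocallyLike (film Ω) tCone p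

/-- The interface of the cells `i` and `j` is nonempty, lies on the sphere with centre `c` and
radius `r`, and at each of its points which is not on a third cell, the cell `i` is locally the
inside of the sphere and the cell `j` the outside. -/
def Inside {k : ℕ} (Ω : Fin k → Set E3) (i j : Fin (k + 1)) (c : E3) (r : ℝ) : Prop :=
  interface Ω i j ⊆ sphere c r ∧
    ∀ p ∈ interface Ω i j, (∀ l, l ≠ i → l ≠ j → p ∉ closure (cell Ω l)) →
      ∃ ε > 0, ball p ε ∩ ball c r ⊆ cell Ω i ∧ ball p ε ∩ (closedBall c r)ᶜ ⊆ cell Ω j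

/-- Laplace's law (with Plateau's laws this is the classical criterion for stationarity under
the volume constraints): there are pressures, zero for the exterior, such that across a sphere
of radius `r` the pressure of the cell inside exceeds that of the cell outside by `2 / r`, and
across a plane the pressures agree. -/
def PressureBalanced {k : ℕ} (Ω : Fin k → Set E3) : Prop :=
  ∃ P : Fin (k + 1) → ℝ, P (Fin.last k) = 0 ∧
    ∀ i j, i ≠ j → (interface Ω i j).Nonempty →
      (∃ c r, 0 < r ∧ Inside Ω i j c r ∧ P i - P j = 2 / r) ∨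
      (∃ c r, 0 < r ∧ Inside Ω j i c r ∧ P j - P i = 2 / r) ∨
      (∃ n : E3, n ≠ 0 ∧ ∃ a : ℝ, interface Ω i j ⊆ {x | inner ℝ n x = a} ∧ P i = P j)

/-- A smooth one-parameter family of deformations of `ℝ³`: a jointly smooth family of
diffeomorphisms (with jointly smooth inverses), equal to the identity outside a fixed ball, and
starting at the identity. -/
structure IsDeformation (φ : ℝ → E3 → E3) : Prop where
  smooth : ContDiff ℝ ∞ fun p : ℝ × E3 => φ p.1 p.2
  zero : ∀ x, φ 0 x = x
  diffeo : ∃ ψ : ℝ → E3 → E3, (ContDiff ℝ ∞ fun p : ℝ × E3 => ψ p.1 p.2) ∧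
    (∀ t x, ψ t (φ t x) = x) ∧ ∀ t x, φ t (ψ t x) = x
  support : ∃ R : ℝ, ∀ t x, R < ‖x‖ → φ t x = x

/-- The total area of the deformed interfaces at time `t` (two-dimensional Hausdorff measure,
in Mathlib's normalisation, which is a constant multiple of the surface area). -/
noncomputable def area {k : ℕ} (Ω : Fin k → Set E3) (φ : ℝ → E3 → E3) (t : ℝ) : ℝ :=
  ∑ i : Fin (k + 1), ∑ j : Fin (k + 1),
    if i < j then (μH[2] (φ t '' interface Ω i j)).toReal else 0

/-- The deformation keeps the volume of every bounded cell fixed. -/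
def PreservesVolumes {k : ℕ} (Ω : Fin k → Set E3) (φ : ℝ → E3 → E3) : Prop :=
  ∀ t i, volume (φ t '' Ω i) = volume (Ω i)

/-- Stability: the second variation of the total interface area is nonnegative along every
smooth one-parameter family of deformations that keeps the volume of each bounded cell fixed. -/
def IsStable {k : ℕ} (Ω : Fin k → Set E3) : Prop :=
  ∀ φ : ℝ → E3 → E3, IsDeformation φ → PreservesVolumes Ω φ →
    0 ≤ deriv (deriv (area Ω φ)) 0

end Kusner
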