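import Pool.Agent.helper14.KusPlateau

/-!
# The unstable deformation
-/

open Set Metric MeasureTheory
open scoped NNReal ENNReal ContDiff Topology

namespace Kusner

/-- A smooth bump around the squared radius. -/
noncomputable def bump (l : Fin 2) : ContDiffBump (rad l ^ 2 : ℝ) where
  rIn := 1 / 4
  rOut := 1 / 2
  rIn_pos := by norm_num
  rIn_lt_rOut := by norm_num

/-- The vector fields: radial around the centre, supported near one sphere. -/
noncomputable def V (p : Fin 2 × Fin 2) (x : E3) : E3 :=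
  (bump p.2 (dist x (cen p.1) ^ 2)) • (x - cen p.1)

/-- The signs. -/
noncomputable def sg : Fin 2 → ℝ := ![1, -1]

/-- The speeds. -/
noncomputable def kap (p : Fin 2 × Fin 2) : ℝ := sg p.1 / rad p.2 ^ 3

lemma abs_kap_le (p : Fin 2 × Fin 2) : |kap p| ≤ 1 := by
  obtain ⟨a, b⟩ := p
  fin_cases a <;> fin_cases b <;> norm_num [kap, sg, rad, abs_div]

lemma V_contDiff (p : Fin 2 × Fin 2) : ContDiff ℝ ∞ (V p) := by
  have h : ContDiff ℝ ∞ (fun x : E3 => x - cen p.1) := contDiff_id.sub contDiff_const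
  have h1 : ContDiff ℝ ∞ (fun x : E3 => ‖x - cen p.1‖ ^ 2) := h.norm_sq ℝ
  have h2 : ContDiff ℝ ∞ (fun x : E3 => bump p.2 (‖x - cen p.1‖ ^ 2)) :=
    (bump p.2).contDiff.comp h1
  have h3 : V p = fun x => (bump p.2 (‖x - cen p.1‖ ^ 2)) • (x - cen p.1) := by
    funext x
    rw [V, dist_eq_norm]
  rw [h3]
  exact h2.smul h

lemma bump_zero {l : Fin 2} {s : ℝ} (h : 1 / 2 ≤ |s - rad l ^ 2|) : bump l s = 0 := by
  refine (bump l).zero_of_le_dist ?_
  rw [Real.dist_eq]
  exact h

lemma bump_one {l : Fin 2} {s : ℝ} (h : s = rad l ^ 2) : bump l s = 1 := by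
  refine (bump l).one_of_mem_closedBall ?_
  rw [h]
  exact mem_closedBall_self (by norm_num [bump])

lemma V_zero_of_far {p : Fin 2 × Fin 2} {x : E3} (h : 3 ≤ dist x (cen p.1)) : V p x = 0 := by
  have h1 : rad p.2 ^ 2 ≤ 4 := by
    have := rad_le_two p.2
    have := rad_pos p.2
    nlinarith
  have h2 : 9 ≤ dist x (cen p.1) ^ 2 := by nlinarith
  rw [V, bump_zero, zero_smul]
  rw [abs_of_nonneg (by linarith)]
  linarith

lemma V_compact (p : Fin 2 × Fin 2) : HasCompactSupport (V p) := by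
  refine HasCompactSupport.intro (isCompact_closedBall (cen p.1) 3) fun x hx => ?_
  rw [mem_closedBall, not_le] at hx
  exact V_zero_of_far hx.le

lemma V_other {p q : Fin 2 × Fin 2} (h : p ≠ q) {x : E3} (hx : x ∈ S p) : V q x = 0 := by
  rw [mem_S] at hx
  by_cases h1 : p.1 = q.1
  · have h2 : p.2 ≠ q.2 := fun h2 => h (Prod.ext h1 h2)
    rw [V, ← h1, hx, bump_zero, zero_smul]
    generalize p.2 = a at *
    generalize q.2 = b at *
    fin_cases a <;> fin_cases b <;> first | exact absurd rfl h2 | norm_num [rad]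
  · apply V_zero_of_far
    have := far h1 x
    have := rad_le_two p.2
    linarith

lemma V_self {p : Fin 2 × Fin 2} {x : E3} (hx : x ∈ S p) : V p x = x - cen p.1 := by
  rw [mem_S] at hx
  rw [V, hx, bump_one rfl, one_smul]

lemma V_cen (p : Fin 2 × Fin 2) (k : Fin 2) : V p (cen k) = 0 := by
  by_cases h : p.1 = k
  · rw [V, h]
    simp
  · apply V_zero_of_far
    have := far (Ne.symm h) (cen k)
    rw [dist_self] at this
    linarith

/-- The deformation. -/
noncomputable def defo (ε : ℝ) : ℝ → E3 → E3 := pert V kap ε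

lemma defo_sphere (ε t : ℝ) {p : Fin 2 × Fin 2} {x : E3} (hx : x ∈ S p) :
    defo ε t x = cen p.1 + rho (kap p * (ε * Real.sin t)) • (x - cen p.1) := by
  rw [defo, pert, Finset.sum_eq_single p]
  · rw [V_self hx, coef, sub_smul, one_smul]
    abel
  · intro q _ hq
    rw [V_other (Ne.symm hq) hx, smul_zero]
  · intro h
    exact (h (Finset.mem_univ p)).elim

lemma defo_cen (ε t : ℝ) (k : Fin 2) : defo ε t (cen k) = cen k := by
  rw [defo, pert]
  simp [V_cen]

/-- The new radius of the sphere. -/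
noncomputable def newRad (ε t : ℝ) (p : Fin 2 × Fin 2) : ℝ :=
  rad p.2 * rho (kap p * (ε * Real.sin t))

variable {ε : ℝ}

lemma arg_gt (hε : 0 ≤ ε) (hε' : ε ≤ 1 / 2) (t : ℝ) (p : Fin 2 × Fin 2) :
    -1 < kap p * (ε * Real.sin t) := by
  have := abs_le.mp (abs_arg_le (abs_kap_le p) hε t)
  linarith [this.1]

lemma newRad_pos (hε : 0 ≤ ε) (hε' : ε ≤ 1 / 2) (t : ℝ) (p : Fin 2 × Fin 2) :
    0 < newRad ε t p :=
  mul_pos (rad_pos _) (rho_pos (arg_gt hε hε' t p))

lemma newRad_cube (hε : 0 ≤ ε) (hε' : ε ≤ 1 / 2) (t : ℝ) (p : Fin 2 × Fin 2) :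
    newRad ε t p ^ 3 = rad p.2 ^ 3 + sg p.1 * (ε * Real.sin t) := by
  have h := rad_pos p.2
  rw [newRad, mul_pow, rho_cube (arg_gt hε hε' t p), kap]
  field_simp

lemma defo_image_sphere (hε : 0 ≤ ε) (hε' : ε ≤ 1 / 2) (t : ℝ) (p : Fin 2 × Fin 2) :
    defo ε t '' S p = sphere (cen p.1) (newRad ε t p) := by
  have hρ : 0 < rho (kap p * (ε * Real.sin t)) := rho_pos (arg_gt hε hε' t p)
  ext y
  constructor
  · rintro ⟨x, hx, rfl⟩
    rw [defo_sphere ε t hx, mem_sphere, dist_radial _ _ hρ.le, mem_S.mp hx, newRad, mul_comm]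
  · intro hy
    rw [mem_sphere] at hy
    set x : E3 := cen p.1 + (rho (kap p * (ε * Real.sin t)))⁻¹ • (y - cen p.1) with hx
    have hxS : x ∈ S p := by
      rw [mem_S, hx, dist_radial _ _ (inv_pos.2 hρ).le, hy, newRad, mul_comm (rad _),
        ← mul_assoc, inv_mul_cancel₀ hρ.ne', one_mul]
    refine ⟨x, hxS, ?_⟩
    rw [defo_sphere ε t hxS, hx, add_sub_cancel_left, smul_smul, mul_inv_cancel₀ hρ.ne',
      one_smul]
    abel

lemma image_ball_subset {f g : E3 → E3} (hf : Continuous f) (hgf : ∀ x, g (f x) = x)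
    {c : E3} (hc : f c = c) {r r' : ℝ} (hr : 0 < r) (hr' : 0 < r')
    (hS : f '' sphere c r = sphere c r') : f '' ball c r ⊆ ball c r' := by
  have hinj : Function.Injective f := Function.LeftInverse.injective hgf
  have h1 : IsPreconnected (f '' ball c r) :=
    (convex_ball c r).isPreconnected.image f hf.continuousOn
  refine h1.subset_left_of_subset_union isOpen_ball
    (isClosed_closedBall (x := c) (ε := r')).isOpen_compl ?_ ?_ ?_
  · rw [Set.disjoint_left]
    intro x hx hx'
    exact hx' (ball_subset_closedBall hx)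
  · intro y hy
    by_cases h2 : y ∈ ball c r'
    · exact Or.inl h2
    · right
      intro h3
      have h4 : y ∈ sphere c r' := by
        rw [mem_sphere]
        rw [mem_ball, not_lt] at h2
        rw [mem_closedBall] at h3
        exact le_antisymm h3 h2
      rw [← hS] at h4
      obtain ⟨a, ha, rfl⟩ := h4
      obtain ⟨b, hb, hab⟩ := hy
      have := hinj hab
      subst this
      rw [mem_sphere] at ha
      rw [mem_ball] at hb
      linarith
  · exact ⟨c, ⟨c, mem_ball_self hr, hc⟩, mem_ball_self hr'⟩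

lemma image_ball_eq {f g : E3 → E3} (hf : Continuous f) (hg : Continuous g)
    (hgf : ∀ x, g (f x) = x) (hfg : ∀ x, f (g x) = x)
    {c : E3} (hc : f c = c) {r r' : ℝ} (hr : 0 < r) (hr' : 0 < r')
    (hS : f '' sphere c r = sphere c r') : f '' ball c r = ball c r' := by
  apply Subset.antisymm (image_ball_subset hf hgf hc hr hr' hS)
  have hgc : g c = c := by
    have := hgf c
    rwa [hc] at this
  have hS' : g '' sphere c r' = sphere c r := by
    rw [← hS, image_image]
    simp [hgf]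
  have := image_ball_subset hg hfg hgc hr' hr hS'
  intro y hy
  exact ⟨g y, this ⟨y, hy, rfl⟩, hfg y⟩

lemma defo_image_ball (hε : 0 ≤ ε) (hε' : ε ≤ 1 / 2) (hD : IsDeformation (defo ε)) (t : ℝ)
    (p : Fin 2 × Fin 2) :
    defo ε t '' ball (cen p.1) (rad p.2) = ball (cen p.1) (newRad ε t p) := by
  obtain ⟨ψ, hψ, h1, h2⟩ := hD.diffeo
  have hc1 : Continuous (defo ε t) :=
    hD.smooth.continuous.comp (Continuous.prodMk_right t)
  have hc2 : Continuous (ψ t) := hψ.continuous.comp (Continuous.prodMk_right t)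
  exact image_ball_eq hc1 hc2 (h1 t) (h2 t) (defo_cen ε t p.1) (rad_pos _)
    (newRad_pos hε hε' t p) (defo_image_sphere hε hε' t p)

lemma volume_ball_E3 (c : E3) {r : ℝ} (hr : 0 ≤ r) :
    volume (ball c r) = ENNReal.ofReal (r ^ 3) * volume (ball (0 : E3) 1) := by
  rw [Measure.addHaar_ball volume c hr]
  simp

lemma defo_image_closedBall (hε : 0 ≤ ε) (hε' : ε ≤ 1 / 2) (hD : IsDeformation (defo ε)) (t : ℝ)
    (p : Fin 2 × Fin 2) :
    defo ε t '' closedBall (cen p.1) (rad p.2) = closedBall (cen p.1) (newRad ε t p) := by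
  rw [← ball_union_sphere, ← ball_union_sphere, image_union, defo_image_ball hε hε' hD,
    ← defo_image_sphere hε hε']
  rfl

lemma volume_shell_image (hε : 0 ≤ ε) (hε' : ε ≤ 1 / 2) (hD : IsDeformation (defo ε)) (t : ℝ)
    (k : Fin 2) :
    volume (defo ε t '' shell (cen k)) = ENNReal.ofReal 7 * volume (ball (0 : E3) 1) := by
  obtain ⟨ψ, hψ, h1, h2⟩ := hD.diffeo
  have hinj : Function.Injective (defo ε t) := Function.LeftInverse.injective (h1 t)
  have e1 : shell (cen k) = ball (cen k) (rad 1) \ closedBall (cen k) (rad 0) := by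
    simp [shell, rad]
  have b1 := defo_image_ball hε hε' hD t (k, 1)
  have b2 := defo_image_closedBall hε hε' hD t (k, 0)
  have hsub : closedBall (cen k) (newRad ε t (k, 0)) ⊆ ball (cen k) (newRad ε t (k, 1)) := by
    rw [← b1, ← b2]
    apply image_mono
    apply closedBall_subset_ball
    simp [rad]
  simp only at b1 b2
  rw [e1, image_sdiff hinj, b1, b2,
    measure_sdiff hsub measurableSet_closedBall.nullMeasurableSet measure_closedBall_lt_top.ne,
    Measure.addHaar_closedBall_eq_addHaar_ball,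
    volume_ball_E3 _ (newRad_pos hε hε' t _).le, volume_ball_E3 _ (newRad_pos hε hε' t _).le,
    ← ENNReal.sub_mul (fun _ _ => measure_ball_lt_top.ne), newRad_cube hε hε', newRad_cube hε hε',
    ← ENNReal.ofReal_sub]
  · congr 2
    simp [rad]
    norm_num
  · rw [← newRad_cube hε hε' t (k, 0)]
    have := newRad_pos hε hε' t (k, 0)
    positivity

lemma volume_balls_image (hε : 0 ≤ ε) (hε' : ε ≤ 1 / 2) (hD : IsDeformation (defo ε)) (t : ℝ) :
    volume (defo ε t '' (ball (cen 0) 1 ∪ ball (cen 1) 1)) =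
      ENNReal.ofReal 2 * volume (ball (0 : E3) 1) := by
  obtain ⟨ψ, hψ, h1, h2⟩ := hD.diffeo
  have hinj : Function.Injective (defo ε t) := Function.LeftInverse.injective (h1 t)
  have b0 := defo_image_ball hε hε' hD t (0, 0)
  have b1 := defo_image_ball hε hε' hD t (1, 0)
  simp only [rad, Matrix.cons_val_zero] at b0 b1
  have hdis : Disjoint (ball (cen 0) (newRad ε t (0, 0))) (ball (cen 1) (newRad ε t (1, 0))) := by
    rw [← b0, ← b1]
    apply (Set.disjoint_image_iff hinj).mpr
    rw [Set.disjoint_left]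
    intro x hx hx'
    rw [mem_ball] at hx hx'
    have := far01 x
    linarith
  rw [image_union, b0, b1, measure_union hdis measurableSet_ball,
    volume_ball_E3 _ (newRad_pos hε hε' t _).le, volume_ball_E3 _ (newRad_pos hε hε' t _).le,
    ← add_mul, ← ENNReal.ofReal_add]
  · congr 2
    rw [newRad_cube hε hε', newRad_cube hε hε']
    simp [rad, sg]
    ring
  · have := newRad_pos hε hε' t (0, 0)
    positivity
  · have := newRad_pos hε hε' t (1, 0)
    positivity

lemma defo_zero (hD : IsDeformation (defo ε)) : defo ε 0 = id := by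
  funext x
  exact hD.zero x

lemma preserves (hε : 0 ≤ ε) (hε' : ε ≤ 1 / 2) (hD : IsDeformation (defo ε)) :
    PreservesVolumes Om (defo ε) := by
  have h0 := defo_zero hD
  intro t i
  fin_cases i
  · have e1 := volume_balls_image hε hε' hD t
    have e2 := volume_balls_image hε hε' hD 0
    rw [h0, image_id] at e2
    change volume (defo ε t '' (ball (cen 0) 1 ∪ ball (cen 1) 1)) =
      volume (ball (cen 0) 1 ∪ ball (cen 1) 1)
    rw [e1, e2]
  · have e1 := volume_shell_image hε hε' hD t 0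
    have e2 := volume_shell_image hε hε' hD 0 0
    rw [h0, image_id] at e2
    change volume (defo ε t '' shell (cen 0)) = volume (shell (cen 0))
    rw [e1, e2]
  · have e1 := volume_shell_image hε hε' hD t 1
    have e2 := volume_shell_image hε hε' hD 0 1
    rw [h0, image_id] at e2
    change volume (defo ε t '' shell (cen 1)) = volume (shell (cen 1))
    rw [e1, e2]

/-- The area of one deformed sphere, divided by the constant. -/
noncomputable def A1 (ε : ℝ) (p : Fin 2 × Fin 2) (t : ℝ) : ℝ :=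
  rad p.2 ^ 2 * (1 + kap p * (ε * Real.sin t)) ^ (2 / 3 : ℝ)

lemma area_sphere (hε : 0 ≤ ε) (hε' : ε ≤ 1 / 2) (t : ℝ) (p : Fin 2 × Fin 2) :
    (μH[2] (defo ε t '' S p)).toReal = K * A1 ε p t := by
  rw [defo_image_sphere hε hε', hausdorff_sphere_toReal _ (newRad_pos hε hε' t p), newRad,
    mul_pow, rho_sq (arg_gt hε hε' t p), A1]

lemma area_eq (hε : 0 ≤ ε) (hε' : ε ≤ 1 / 2) :
    area Om (defo ε) = fun t => K * (A1 ε (0, 0) t + A1 ε (1, 0) t + A1 ε (0, 1) t +
      A1 ε (1, 1) t) := by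
  funext t
  have h01 : (μH[2] (defo ε t '' interface Om 0 1)).toReal = K * A1 ε (0, 0) t := by
    rw [i01, area_sphere hε hε']
  have h02 : (μH[2] (defo ε t '' interface Om 0 2)).toReal = K * A1 ε (1, 0) t := by
    rw [i02, area_sphere hε hε']
  have h03 : (μH[2] (defo ε t '' interface Om 0 3)).toReal = 0 := by
    rw [i03]; simp
  have h12 : (μH[2] (defo ε t '' interface Om 1 2)).toReal = 0 := by
    rw [i12]; simp
  have h13 : (μH[2] (defo ε t '' interface Om 1 3)).toReal = K * A1 ε (0, 1) t := by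
    rw [i13, area_sphere hε hε']
  have h23 : (μH[2] (defo ε t '' interface Om 2 3)).toReal = K * A1 ε (1, 1) t := by
    rw [i23, area_sphere hε hε']
  rw [area]
  change (∑ i : Fin 4, ∑ j : Fin 4,
    if i < j then (μH[2] (defo ε t '' interface Om i j)).toReal else 0) = _
  simp only [Fin.sum_univ_four]
  rw [if_neg (by decide), if_pos (by decide), if_pos (by decide), if_pos (by decide),
    if_neg (by decide), if_neg (by decide), if_pos (by decide), if_pos (by decide),
    if_neg (by decide), if_neg (by decide), if_neg (by decide), if_pos (by decide),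
    if_neg (by decide), if_neg (by decide), if_neg (by decide), if_neg (by decide),
    h01, h02, h03, h12, h13, h23]
  ring

/-- The first derivative of `A1`. -/
noncomputable def B1 (ε : ℝ) (p : Fin 2 × Fin 2) (t : ℝ) : ℝ :=
  rad p.2 ^ 2 * (kap p * (ε * Real.cos t) * (2 / 3 : ℝ) *
    (1 + kap p * (ε * Real.sin t)) ^ ((2 / 3 : ℝ) - 1))

lemma hasDerivAt_arg (ε : ℝ) (p : Fin 2 × Fin 2) (t : ℝ) :
    HasDerivAt (fun t => 1 + kap p * (ε * Real.sin t)) (kap p * (ε * Real.cos t)) t :=
  (((Real.hasDerivAt_sin t).const_mul ε).const_mul (kap p)).const_add 1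

lemma hasDerivAt_A1 (hε : 0 ≤ ε) (hε' : ε ≤ 1 / 2) (p : Fin 2 × Fin 2) (t : ℝ) :
    HasDerivAt (A1 ε p) (B1 ε p t) t := by
  have h := arg_gt hε hε' t p
  have h1 := (hasDerivAt_arg ε p t).rpow_const (p := (2 / 3 : ℝ)) (Or.inl (by linarith))
  exact h1.const_mul (rad p.2 ^ 2)

lemma hasDerivAt_B1 (ε : ℝ) (p : Fin 2 × Fin 2) :
    HasDerivAt (B1 ε p) (rad p.2 ^ 2 * (-(2 / 9) * (kap p * ε) ^ 2)) 0 := by
  have h1 := (hasDerivAt_arg ε p 0).rpow_const (p := (2 / 3 : ℝ) - 1) (Or.inl (by simp))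
  have h2 : HasDerivAt (fun t => kap p * (ε * Real.cos t) * (2 / 3 : ℝ))
      (kap p * (ε * (-Real.sin 0)) * (2 / 3 : ℝ)) 0 :=
    (((Real.hasDerivAt_cos 0).const_mul ε).const_mul (kap p)).mul_const _
  have h3 := (h2.mul h1).const_mul (rad p.2 ^ 2)
  refine h3.congr_deriv ?_
  simp
  ring

lemma B1_zero (ε : ℝ) (p : Fin 2 × Fin 2) :
    B1 ε p 0 = rad p.2 ^ 2 * (kap p * ε * (2 / 3 : ℝ)) := by
  simp [B1]

/-- The second variation is negative. -/
theorem second_variation (hε : 0 < ε) (hε' : ε ≤ 1 / 2) :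
    ContDiff ℝ ∞ (area Om (defo ε)) ∧ deriv (area Om (defo ε)) 0 = 0 ∧
      deriv (deriv (area Om (defo ε))) 0 < 0 := by
  rw [area_eq hε.le hε']
  have hd : ∀ t, HasDerivAt (fun t => K * (A1 ε (0, 0) t + A1 ε (1, 0) t + A1 ε (0, 1) t +
      A1 ε (1, 1) t)) (K * (B1 ε (0, 0) t + B1 ε (1, 0) t + B1 ε (0, 1) t +
      B1 ε (1, 1) t)) t := fun t =>
    ((((hasDerivAt_A1 hε.le hε' (0, 0) t).add (hasDerivAt_A1 hε.le hε' (1, 0) t)).add
      (hasDerivAt_A1 hε.le hε' (0, 1) t)).add (hasDerivAt_A1 hε.le hε' (1, 1) t)).const_mul K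
  have hd' : deriv (fun t => K * (A1 ε (0, 0) t + A1 ε (1, 0) t + A1 ε (0, 1) t +
      A1 ε (1, 1) t)) = fun t => K * (B1 ε (0, 0) t + B1 ε (1, 0) t + B1 ε (0, 1) t +
      B1 ε (1, 1) t) := funext fun t => (hd t).deriv
  have hK := K_pos
  refine ⟨?_, ?_, ?_⟩
  · have hA : ∀ p, ContDiff ℝ ∞ (A1 ε p) := by
      intro p
      unfold A1
      refine contDiff_const.mul (ContDiff.rpow_const_of_ne ?_ fun t => ?_)
      · exact contDiff_const.add (contDiff_const.mul (contDiff_const.mul Real.contDiff_sin))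
      · have := arg_gt hε.le hε' t p
        linarith
    exact contDiff_const.mul ((((hA _).add (hA _)).add (hA _)).add (hA _))
  · rw [hd']
    simp only [B1_zero, kap, sg, rad]
    simp
    ring_nf
    simp
  · rw [hd']
    have h2 : HasDerivAt (fun t => K * (B1 ε (0, 0) t + B1 ε (1, 0) t + B1 ε (0, 1) t +
      B1 ε (1, 1) t)) _ 0 := ((((hasDerivAt_B1 ε (0, 0)).add (hasDerivAt_B1 ε (1, 0))).add
      (hasDerivAt_B1 ε (0, 1))).add (hasDerivAt_B1 ε (1, 1))).const_mul K
    rw [h2.deriv]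
    simp only [kap, sg, rad]
    simp
    have : 0 < ε ^ 2 := by positivity
    nlinarith [mul_pos hK this]

/-- There is a cluster with spherical interfaces obeying Plateau's laws and Laplace's law which
is not stable. -/
theorem exists_unstable : ∃ Ω : Fin 3 → Set E3,
    IsCluster Ω ∧ HasSphericalInterfaces Ω ∧ ObeysPlateau Ω ∧ PressureBalanced Ω ∧
    ∃ φ : ℝ → E3 → E3, IsDeformation φ ∧ PreservesVolumes Ω φ ∧
      (∀ t i j, i ≠ j → μH[2] (φ t '' interface Ω i j) < ⊤) ∧
      ContDiff ℝ ∞ (area Ω φ) ∧ deriv (area Ω φ) 0 = 0 ∧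
      deriv (deriv (area Ω φ)) 0 < 0 := by
  obtain ⟨ε, h1, h2, h3⟩ := exists_deformation V kap V_contDiff V_compact abs_kap_le
  refine ⟨Om, isCluster_Om, spherical_Om, plateau_Om, balanced_Om, defo ε, h3,
    preserves h1.le h2 h3, ?_, second_variation h1 h2⟩
  intro t i j hij
  have key : ∀ i j : Fin 4, i ≠ j → idx i ∩ idx j = ∅ ∨ ∃ p, idx i ∩ idx j = {p} := by decide
  rw [interface_eq]
  rcases key i j hij with h | ⟨p, h⟩
  · rw [h]; simp
  · rw [h]
    simp only [Finset.mem_singleton, iUnion_iUnion_eq_left]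
    rw [defo_image_sphere h1.le h2, hausdorff_sphere_eq _ (newRad_pos h1.le h2 t p)]
    exact ENNReal.ofReal_lt_top

theorem not_stable : ∃ Ω : Fin 3 → Set E3,
    IsCluster Ω ∧ HasSphericalInterfaces Ω ∧ ObeysPlateau Ω ∧ PressureBalanced Ω ∧
    ¬ IsStable Ω := by
  obtain ⟨Ω, h1, h2, h3, h4, φ, h5, h6, -, -, -, h7⟩ := exists_unstable
  exact ⟨Ω, h1, h2, h3, h4, fun h => absurd (h φ h5 h6) (not_le.mpr h7)⟩

end Kusner
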