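import Pool.Agent.helper14.KusCluster

/-!
# Plateau's laws and the pressure balance for the cluster
-/

open Set Metric MeasureTheory
open scoped NNReal ENNReal ContDiff Topology

namespace Kusner

/-- The third basis vector. -/
noncomputable def e3 : E3 := EuclideanSpace.single 2 1

/-- Points of a round sphere are regular points. -/
lemma locallyLike_sphere {F : Set E3} {c p : E3} {r : ℝ} (hr : 0 < r) (hp : dist p c = r)
    (hF : ∀ x ∈ ball p (1 / 2), x ∈ F ↔ dist x c = r) : LocallyLike F planeCone p := by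
  have hpn : ‖p - c‖ = r := by rwa [dist_eq_norm] at hp
  have hn : ‖p - c‖ = ‖r • e3‖ := by
    rw [hpn, norm_smul, e3, PiLp.norm_single, norm_one, mul_one, Real.norm_eq_abs,
      abs_of_pos hr]
  set L : E3 ≃ₗᵢ[ℝ] E3 := (ℝ ∙ ((p - c) - r • e3))ᗮ.reflection with hL
  have hLp : L (p - c) = r • e3 := Submodule.reflection_sub hn
  set q : E3 → ℝ := fun x => (‖x - c‖ ^ 2 - r ^ 2) / (2 * r) - inner ℝ (p - c) (x - c) / r with hq
  have hinner : inner ℝ (p - c) (p - c) = r ^ 2 := by
    rw [real_inner_self_eq_norm_sq, hpn]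
  have hqs : ContDiff ℝ ∞ q := by
    refine ContDiff.sub (ContDiff.div_const (ContDiff.sub ?_ contDiff_const) _)
      (ContDiff.div_const ?_ _)
    · exact (contDiff_id.sub contDiff_const).norm_sq ℝ
    · exact contDiff_const.inner ℝ (contDiff_id.sub contDiff_const)
  have hqp : q p = -r := by
    simp only [hq]
    rw [hinner, hpn]
    field_simp
    ring
  have hqd : HasFDerivAt q (0 : E3 →L[ℝ] ℝ) p := by
    have h0 : HasFDerivAt (fun x : E3 => x - c) (ContinuousLinearMap.id ℝ E3) p :=
      (hasFDerivAt_id p).sub_const c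
    have h1 := h0.norm_sq
    have h2 := (hasFDerivAt_const (p - c) p).inner ℝ h0
    have h3 := ((h1.sub_const (r ^ 2)).mul_const ((2 * r)⁻¹)).sub (h2.mul_const (r⁻¹))
    have h4 : q = fun x => (‖x - c‖ ^ 2 - r ^ 2) * (2 * r)⁻¹ - inner ℝ (p - c) (x - c) * r⁻¹ := by
      funext x
      simp only [hq, div_eq_mul_inv]
    rw [h4]
    refine h3.congr_fderiv ?_
    refine ContinuousLinearMap.ext fun v => ?_
    simp
    field_simp
    rw [inner_sub_left]
    ring
  refine ⟨ball p (1 / 2), fun x => L (x - c) + q x • e3, L, isOpen_ball,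
    mem_ball_self (by norm_num), ?_, ?_, ?_, ?_⟩
  · refine ContDiff.contDiffOn ?_
    exact (L.contDiff.comp (contDiff_id.sub contDiff_const)).add (hqs.smul contDiff_const)
  · simp only [hLp, hqp]
    rw [neg_smul]
    abel
  · have h0 : HasFDerivAt (fun x : E3 => x - c) (ContinuousLinearMap.id ℝ E3) p :=
      (hasFDerivAt_id p).sub_const c
    have h1 := (L.toContinuousLinearEquiv.hasFDerivAt (x := p - c)).comp p h0
    have h2 := hqd.smul_const e3
    refine (h1.add h2).congr_fderiv ?_
    refine ContinuousLinearMap.ext fun v => ?_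
    simp
  · intro x hx
    rw [hF x hx]
    have hthird : (L (x - c)) 2 = inner ℝ (p - c) (x - c) / r := by
      have h1 : inner ℝ (r • e3) (L (x - c)) = inner ℝ (p - c) (x - c) := by
        rw [← hLp, L.inner_map_map]
      have h2 : inner ℝ (r • e3) (L (x - c)) = r * (L (x - c)) 2 := by
        rw [real_inner_smul_left, e3, EuclideanSpace.inner_single_left]
        simp
      rw [← h1, h2]
      field_simp
    have h3 : (L (x - c) + q x • e3) 2 = (‖x - c‖ ^ 2 - r ^ 2) / (2 * r) := by
      have : (L (x - c) + q x • e3) 2 = (L (x - c)) 2 + q x := by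
        simp [e3]
      rw [this, hthird]
      simp only [hq]
      ring
    change dist x c = r ↔ (L (x - c) + q x • e3) 2 = 0
    rw [h3, dist_eq_norm, div_eq_zero_iff, sub_eq_zero]
    constructor
    · intro h
      left
      rw [h]
    · rintro (h | h)
      · exact (sq_eq_sq₀ (norm_nonneg _) hr.le).mp h
      · linarith

lemma plateau_Om : ObeysPlateau Om := by
  intro p hp
  left
  rw [film_Om] at hp ⊢
  obtain ⟨i, hi⟩ := mem_iUnion.mp hp
  refine locallyLike_sphere (rad_pos i.2) (mem_S.mp hi) fun x hx => ?_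
  constructor
  · intro h
    obtain ⟨j, hj⟩ := mem_iUnion.mp h
    by_cases hij : j = i
    · subst hij
      exact mem_S.mp hj
    · have := S_dist hij hj hi
      rw [mem_ball] at hx
      linarith
  · intro h
    exact mem_iUnion.mpr ⟨i, mem_S.mpr h⟩

lemma inside_ball {k : Fin 2} {j : Fin 4} (hint : interface Om 0 j ⊆ S (k, 0))
    (hj : cell Om j = shell (cen k)) : Inside Om 0 j (cen k) 1 := by
  refine ⟨fun x hx => by simpa [S, rad] using hint hx, fun p hp _ => ?_⟩
  have h1 := mem_S.mp (hint hp)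
  simp only [rad] at h1
  refine ⟨1, one_pos, ?_, ?_⟩
  · rintro x ⟨_, hx⟩
    rw [cell0]
    fin_cases k
    · exact Or.inl hx
    · exact Or.inr hx
  · rintro x ⟨hx1, hx2⟩
    rw [hj, mem_shell]
    rw [mem_compl_iff, mem_closedBall, not_le] at hx2
    rw [mem_ball] at hx1
    have := dist_triangle x p (cen k)
    simp at h1
    exact ⟨hx2, by linarith⟩

lemma inside_shell {k : Fin 2} {i : Fin 4} (hint : interface Om i 3 ⊆ S (k, 1))
    (hi : cell Om i = shell (cen k)) : Inside Om i 3 (cen k) 2 := by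
  refine ⟨fun x hx => by simpa [S, rad] using hint hx, fun p hp _ => ?_⟩
  have h1 := mem_S.mp (hint hp)
  simp only [rad] at h1
  simp at h1
  refine ⟨1, one_pos, ?_, ?_⟩
  · rintro x ⟨hx1, hx2⟩
    rw [hi, mem_shell]
    rw [mem_ball] at hx1 hx2
    have := dist_triangle_left p (cen k) x
    rw [h1] at this
    exact ⟨by linarith, hx2⟩
  · rintro x ⟨hx1, hx2⟩
    rw [cell3, mem_ext]
    rw [mem_compl_iff, mem_closedBall, not_le] at hx2
    rw [mem_ball] at hx1
    have := dist_triangle x p (cen k)
    have hfar := far01 x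
    fin_cases k
    · simp at hx2 this h1
      exact ⟨hx2, by linarith⟩
    · simp at hx2 this h1
      exact ⟨by linarith, hx2⟩

lemma balanced_Om : PressureBalanced Om := by
  have n03 : ¬ (interface Om 0 3).Nonempty := by rw [i03]; exact not_nonempty_empty
  have n12 : ¬ (interface Om 1 2).Nonempty := by rw [i12]; exact not_nonempty_empty
  have n30 : ¬ (interface Om 3 0).Nonempty := by rw [interface_comm]; exact n03
  have n21 : ¬ (interface Om 2 1).Nonempty := by rw [interface_comm]; exact n12
  have I01 : Inside Om 0 1 (cen 0) 1 := inside_ball (k := 0) i01.subset cell1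
  have I02 : Inside Om 0 2 (cen 1) 1 := inside_ball (k := 1) i02.subset cell2
  have I13 : Inside Om 1 3 (cen 0) 2 := inside_shell (k := 0) i13.subset cell1
  have I23 : Inside Om 2 3 (cen 1) 2 := inside_shell (k := 1) i23.subset cell2
  refine ⟨![3, 1, 1, 0], rfl, fun i j hij hne => ?_⟩
  fin_cases i <;> fin_cases j
  · exact (hij rfl).elim
  · exact Or.inl ⟨cen 0, 1, one_pos, I01, by simp; norm_num⟩
  · exact Or.inl ⟨cen 1, 1, one_pos, I02, by simp; norm_num⟩
  · exact (n03 hne).elim
  · exact Or.inr (Or.inl ⟨cen 0, 1, one_pos, I01, by simp; norm_num⟩)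
  · exact (hij rfl).elim
  · exact (n12 hne).elim
  · exact Or.inl ⟨cen 0, 2, two_pos, I13, by simp⟩
  · exact Or.inr (Or.inl ⟨cen 1, 1, one_pos, I02, by simp; norm_num⟩)
  · exact (n21 hne).elim
  · exact (hij rfl).elim
  · exact Or.inl ⟨cen 1, 2, two_pos, I23, by simp⟩
  · exact (n30 hne).elim
  · exact Or.inr (Or.inl ⟨cen 0, 2, two_pos, I13, by simp⟩)
  · exact Or.inr (Or.inl ⟨cen 1, 2, two_pos, I23, by simp⟩)
  · exact (hij rfl).elim

end Kusner
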