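import Pool.Agent.helper14.KusDefs

/-!
# The two-dimensional Hausdorff measure of round spheres in `ℝ³`
-/

open Set Metric MeasureTheory
open scoped NNReal ENNReal

namespace Kusner

/-- Spherical coordinates. -/
noncomputable def sph (u : Fin 2 → ℝ) : Fin 3 → ℝ :=
  ![Real.cos (u 0) * Real.cos (u 1), Real.sin (u 0) * Real.cos (u 1), Real.sin (u 1)]

lemma abs_mul_sub_mul_le {a b c d : ℝ} (ha : |a| ≤ 1) (hd : |d| ≤ 1) :
    |a * b - c * d| ≤ |a - c| + |b - d| := by
  have : a * b - c * d = a * (b - d) + (a - c) * d := by ring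
  rw [this]
  refine (abs_add_le _ _).trans ?_
  rw [abs_mul, abs_mul]
  nlinarith [abs_nonneg (b - d), abs_nonneg (a - c)]

lemma sph_lipschitz : LipschitzWith 2 sph := by
  refine LipschitzWith.of_dist_le_mul fun u v => ?_
  have h0 : |u 0 - v 0| ≤ dist u v := by
    have := dist_le_pi_dist u v 0
    rwa [Real.dist_eq] at this
  have h1 : |u 1 - v 1| ≤ dist u v := by
    have := dist_le_pi_dist u v 1
    rwa [Real.dist_eq] at this
  have hn : 0 ≤ dist u v := dist_nonneg
  have c0 := Real.abs_cos_sub_cos_le (u 0) (v 0)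
  have c1 := Real.abs_cos_sub_cos_le (u 1) (v 1)
  have s0 := Real.abs_sin_sub_sin_le (u 0) (v 0)
  have s1 := Real.abs_sin_sub_sin_le (u 1) (v 1)
  rw [dist_pi_le_iff (by positivity)]
  intro i
  rw [Real.dist_eq]
  fin_cases i
  · have := abs_mul_sub_mul_le (b := Real.cos (u 1)) (c := Real.cos (v 0))
      (Real.abs_cos_le_one (u 0)) (Real.abs_cos_le_one (v 1))
    simp only [sph, NNReal.coe_ofNat]
    simp
    linarith
  · have := abs_mul_sub_mul_le (b := Real.cos (u 1)) (c := Real.sin (v 0))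
      (Real.abs_sin_le_one (u 0)) (Real.abs_cos_le_one (v 1))
    simp only [sph, NNReal.coe_ofNat]
    simp
    linarith
  · simp only [sph, NNReal.coe_ofNat]
    simp
    linarith

lemma mem_sphere_zero_one_iff (x : E3) :
    x ∈ sphere (0 : E3) 1 ↔ x 0 ^ 2 + x 1 ^ 2 + x 2 ^ 2 = 1 := by
  rw [mem_sphere_zero_iff_norm, EuclideanSpace.norm_eq, Real.sqrt_eq_one, Fin.sum_univ_three]
  simp [Real.norm_eq_abs, sq_abs]

lemma sphere_subset_image :
    sphere (0 : E3) 1 ⊆
      (fun u => (WithLp.toLp 2 (sph u) : E3)) '' (Icc (fun _ => -4) (fun _ => 4)) := by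
  intro x hx
  rw [mem_sphere_zero_one_iff] at hx
  have h2 : |x 2| ≤ 1 := by
    rw [abs_le_one_iff_mul_self_le_one]
    nlinarith [sq_nonneg (x 0), sq_nonneg (x 1)]
  obtain ⟨h2a, h2b⟩ := abs_le.mp h2
  set z : ℂ := ⟨x 0, x 1⟩ with hz
  have hnz : ‖z‖ = Real.sqrt (1 - x 2 ^ 2) := by
    rw [Complex.norm_def, Complex.normSq_mk]
    congr 1
    nlinarith
  have hpi := Real.pi_lt_d2
  have hp := Real.pi_pos
  refine ⟨![Complex.arg z, Real.arcsin (x 2)], ⟨fun i => ?_, fun i => ?_⟩, ?_⟩
  · fin_cases i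
    · simp
      have := Complex.neg_pi_lt_arg z
      linarith
    · simp
      have := Real.neg_pi_div_two_le_arcsin (x 2)
      linarith
  · fin_cases i
    · simp
      have := Complex.arg_le_pi z
      linarith
    · simp
      have := Real.arcsin_le_pi_div_two (x 2)
      linarith
  · ext i
    fin_cases i
    · simp [sph, Real.cos_arcsin]
      rw [← hnz, mul_comm, Complex.norm_mul_cos_arg]
    · simp [sph, Real.cos_arcsin]
      rw [← hnz, mul_comm, Complex.norm_mul_sin_arg]
    · simp [sph]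
      exact Real.sin_arcsin h2a h2b

lemma hausdorff_sphere_lt_top : μH[2] (sphere (0 : E3) 1) < ⊤ := by
  have hl : LipschitzWith (((Fintype.card (Fin 3) : ℝ≥0) ^ (1 / (2 : ℝ≥0∞)).toReal) * 2)
      (fun u => (WithLp.toLp 2 (sph u) : E3)) :=
    (PiLp.lipschitzWith_toLp (β := fun _ : Fin 3 => ℝ) 2).comp sph_lipschitz
  refine (measure_mono sphere_subset_image).trans_lt ?_
  refine (hl.hausdorffMeasure_image_le (by norm_num) _).trans_lt ?_
  have h2 : (μH[2] : Measure (Fin 2 → ℝ)) = volume := by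
    have := hausdorffMeasure_pi_real (ι := Fin 2)
    simpa using this
  rw [h2]
  refine ENNReal.mul_lt_top ?_ isCompact_Icc.measure_lt_top
  exact ENNReal.rpow_lt_top_of_nonneg (by norm_num) ENNReal.coe_ne_top

lemma hausdorff_sphere_pos : 0 < μH[2] (sphere (0 : E3) 1) := by
  have hl : LipschitzWith 1 (fun (x : E3) (i : Fin 2) => x (Fin.castSucc i)) := by
    refine LipschitzWith.of_dist_le_mul fun x y => ?_
    rw [dist_pi_le_iff (by positivity)]
    intro i
    simpa using PiLp.dist_apply_le (p := 2) x y (Fin.castSucc i)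
  have h2 : (μH[2] : Measure (Fin 2 → ℝ)) = volume := by
    have := hausdorffMeasure_pi_real (ι := Fin 2)
    simpa using this
  have hsub : ball (0 : Fin 2 → ℝ) (1 / 2) ⊆
      (fun (x : E3) (i : Fin 2) => x (Fin.castSucc i)) '' sphere (0 : E3) 1 := by
    intro u hu
    rw [mem_ball_zero_iff, pi_norm_lt_iff (by norm_num)] at hu
    have hu0 := hu 0
    have hu1 := hu 1
    rw [Real.norm_eq_abs, abs_lt] at hu0 hu1
    have hnn : 0 ≤ 1 - u 0 ^ 2 - u 1 ^ 2 := by nlinarith
    refine ⟨!₂[u 0, u 1, Real.sqrt (1 - u 0 ^ 2 - u 1 ^ 2)], ?_, ?_⟩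
    · rw [mem_sphere_zero_one_iff]
      simp [Real.sq_sqrt hnn]
    · ext i
      fin_cases i <;> simp
  have h3 : (0 : ℝ≥0∞) < volume (ball (0 : Fin 2 → ℝ) (1 / 2)) :=
    measure_ball_pos _ _ (by norm_num)
  rw [← h2] at h3
  have h4 := hl.hausdorffMeasure_image_le (d := 2) (by norm_num) (sphere (0 : E3) 1)
  have h5 := h3.trans_le ((measure_mono hsub).trans h4)
  simpa using h5

/-- The (normalised) area of the unit sphere. -/
noncomputable def K : ℝ := (μH[2] (sphere (0 : E3) 1)).toReal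

lemma K_pos : 0 < K :=
  ENNReal.toReal_pos hausdorff_sphere_pos.ne' hausdorff_sphere_lt_top.ne

lemma hausdorff_sphere_eq (c : E3) {r : ℝ} (hr : 0 < r) :
    μH[2] (sphere c r) = ENNReal.ofReal (K * r ^ 2) := by
  have h1 : sphere c 1 = (IsometryEquiv.addLeft c) '' sphere (0 : E3) 1 := by
    ext x
    simp only [mem_image, mem_sphere_iff_norm, sub_zero]
    constructor
    · intro h
      refine ⟨x - c, h, ?_⟩
      change c + (x - c) = x
      abel
    · rintro ⟨y, hy, rfl⟩
      change ‖c + y - c‖ = 1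
      rwa [add_sub_cancel_left]
  have h2 : sphere c r = AffineMap.homothety c r '' sphere c 1 := by
    ext x
    simp only [mem_image, mem_sphere_iff_norm, AffineMap.homothety_apply, vsub_eq_sub,
      vadd_eq_add]
    constructor
    · intro h
      refine ⟨c + r⁻¹ • (x - c), ?_, ?_⟩
      · rw [add_sub_cancel_left, norm_smul, h, Real.norm_eq_abs, abs_of_pos (inv_pos.2 hr),
          inv_mul_cancel₀ hr.ne']
      · rw [add_sub_cancel_left, smul_smul, mul_inv_cancel₀ hr.ne', one_smul]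
        abel
    · rintro ⟨y, hy, rfl⟩
      rw [add_sub_cancel_right, norm_smul, hy, Real.norm_eq_abs, abs_of_pos hr, mul_one]
  rw [h2, hausdorffMeasure_homothety_image (by norm_num) c hr.ne', h1,
    IsometryEquiv.hausdorffMeasure_image, ENNReal.smul_def, smul_eq_mul,
    ENNReal.ofReal_mul K_pos.le, K, ENNReal.ofReal_toReal hausdorff_sphere_lt_top.ne, mul_comm]
  congr 1
  rw [← ENNReal.ofReal_coe_nnreal]
  congr 1
  simp

lemma hausdorff_sphere_toReal (c : E3) {r : ℝ} (hr : 0 < r) :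
    (μH[2] (sphere c r)).toReal = K * r ^ 2 := by
  rw [hausdorff_sphere_eq c hr, ENNReal.toReal_ofReal]
  have := K_pos
  positivity

end Kusner
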