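import Mathlib

/-! Existence of a chamber which is bounded relative to one of the hyperplanes, for an
indecomposable real arrangement. -/

namespace Pool.Agent.helper14.ND

open Finset Module Filter Topology

variable {ι : Type*} [DecidableEq ι] {E : Type*} [AddCommGroup E] [Module ℝ E]

/-- The span of the linear forms indexed by `S`. -/
def spn (l : ι → Dual ℝ E) (S : Finset ι) : Submodule ℝ (Dual ℝ E) :=
  Submodule.span ℝ (l '' (S : Set ι))

omit [DecidableEq ι] in
lemma mem_spn_iff {l : ι → Dual ℝ E} {S : Finset ι} {a : Dual ℝ E} :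
    a ∈ spn l S ↔ ∃ c : ι → ℝ, ∑ i ∈ S, c i • l i = a :=
  Submodule.mem_span_image_finset_iff_exists_fun' ℝ

omit [DecidableEq ι] in
lemma mem_spn {l : ι → Dual ℝ E} {S : Finset ι} {i : ι} (h : i ∈ S) : l i ∈ spn l S :=
  Submodule.subset_span ⟨i, h, rfl⟩

omit [DecidableEq ι] in
lemma spn_mono {l : ι → Dual ℝ E} {S T : Finset ι} (h : S ⊆ T) : spn l S ≤ spn l T :=
  Submodule.span_mono (Set.image_mono (by exact_mod_cast h))

lemma spn_union (l : ι → Dual ℝ E) (S T : Finset ι) :
    spn l (S ∪ T) = spn l S ⊔ spn l T := by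
  simp only [spn, Finset.coe_union, Set.image_union, Submodule.span_union]

omit [DecidableEq ι] in
lemma spn_empty (l : ι → Dual ℝ E) : spn l (∅ : Finset ι) = ⊥ := by simp [spn]

omit [DecidableEq ι] in
/-- a form outside the span of `S` is nonzero at some common zero of the forms in `S` -/
lemma exists_point_of_notMem {l : ι → Dual ℝ E} {S : Finset ι} {a : Dual ℝ E}
    (h : a ∉ spn l S) : ∃ w : E, (∀ i ∈ S, l i w = 0) ∧ a w = 1 := by
  have key : ¬ (⨅ i : S, LinearMap.ker (l i) ≤ LinearMap.ker a) := by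
    intro hle
    apply h
    have := mem_span_of_iInf_ker_le_ker (L := fun i : S => l i) (K := a) hle
    have hr : Set.range (fun i : S => l i) = l '' (S : Set ι) := by
      ext x; simp
    rw [hr] at this
    exact this
  obtain ⟨w, hw, hw'⟩ := SetLike.not_le_iff_exists.mp key
  rw [LinearMap.mem_ker] at hw'
  refine ⟨(a w)⁻¹ • w, fun i hi => ?_, ?_⟩
  · have := (Submodule.mem_iInf _).mp hw ⟨i, hi⟩
    rw [LinearMap.mem_ker] at this
    simp only at this
    rw [map_smul, this, smul_zero]
  · rw [map_smul, smul_eq_mul, inv_mul_cancel₀ hw']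

/-- `x` and the relation `v` certify that the chamber of `x` is bounded relative to `e`. -/
structure Good (l : ι → Dual ℝ E) (e : ι) (S : Finset ι) (x : E) (v : ι → ℝ) : Prop where
  ne : ∀ i ∈ S, l i x ≠ 0
  rel : ∑ i ∈ S, v i • l i = 0
  pos : ∀ i ∈ S, i ≠ e → 0 < v i * l i x

/-- the extension step: a good set can be enlarged -/
lemma good_step {l : ι → Dual ℝ E} {e : ι} {X S : Finset ι} (hSX : S ⊆ X) (heS : e ∈ S)
    (hne : S ≠ X) (hind : ¬ Disjoint (spn l S) (spn l (X \ S))) {x : E} {v : ι → ℝ}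
    (hg : Good l e S x v) :
    ∃ T : Finset ι, S ⊂ T ∧ T ⊆ X ∧ ∃ x' v', Good l e T x' v' := by
  classical
  -- choose `P` of minimal cardinality
  let F : Finset (Finset ι) := (X \ S).powerset.filter fun P => ¬ Disjoint (spn l S) (spn l P)
  have hF : F.Nonempty := ⟨X \ S, by simp [F, hind]⟩
  obtain ⟨P, hPF, hPmin⟩ := Finset.exists_min_image F Finset.card hF
  have hPX : P ⊆ X \ S := by
    have := (Finset.mem_filter.mp hPF).1
    exact Finset.mem_powerset.mp this
  have hPnd : ¬ Disjoint (spn l S) (spn l P) := (Finset.mem_filter.mp hPF).2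
  have hmin : ∀ Q ⊂ P, Disjoint (spn l S) (spn l Q) := by
    intro Q hQ
    by_contra hcon
    have hQF : Q ∈ F := by
      rw [Finset.mem_filter, Finset.mem_powerset]
      exact ⟨hQ.1.trans hPX, hcon⟩
    have := hPmin Q hQF
    have h2 := Finset.card_lt_card hQ
    omega
  rw [Submodule.disjoint_def] at hPnd
  push Not at hPnd
  obtain ⟨lam, hlS, hlP, hl0⟩ := hPnd
  -- perturb `x` so that `lam x ≠ 0`
  obtain ⟨z, hz⟩ : ∃ z, lam z ≠ 0 := by
    by_contra hcon
    push Not at hcon
    exact hl0 (LinearMap.ext hcon)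
  obtain ⟨x₁, hg1, hlx1⟩ : ∃ x₁, Good l e S x₁ v ∧ lam x₁ ≠ 0 := by
    by_cases hlx : lam x = 0
    · have hcont : ∀ i, Tendsto (fun t : ℝ => l i (x + t • z)) (𝓝 0) (𝓝 (l i x)) := by
        intro i
        have : (fun t : ℝ => l i (x + t • z)) = fun t => l i x + t * l i z := by
          ext t; simp
        rw [this]
        have h1 : Tendsto (fun t : ℝ => l i x + t * l i z) (𝓝 0) (𝓝 (l i x + 0 * l i z)) := by
          apply Continuous.tendsto
          fun_prop
        simpa using h1
      have hev : ∀ᶠ t : ℝ in 𝓝 0, (∀ i ∈ S, l i (x + t • z) ≠ 0) ∧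
          (∀ i ∈ S, i ≠ e → 0 < v i * l i (x + t • z)) := by
        refine Filter.Eventually.and ?_ ?_
        · rw [Filter.eventually_all_finset]
          intro i hi
          exact (hcont i).eventually_ne (hg.ne i hi)
        · rw [Filter.eventually_all_finset]
          intro i hi
          by_cases hie : i = e
          · simp [hie]
          · have h2 : Tendsto (fun t : ℝ => v i * l i (x + t • z)) (𝓝 0) (𝓝 (v i * l i x)) :=
              (hcont i).const_mul _
            filter_upwards [h2.eventually (lt_mem_nhds (hg.pos i hi hie))] with t ht _ using ht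
      have hev2 : ∀ᶠ t : ℝ in 𝓝[>] 0, (∀ i ∈ S, l i (x + t • z) ≠ 0) ∧
          (∀ i ∈ S, i ≠ e → 0 < v i * l i (x + t • z)) := hev.filter_mono nhdsWithin_le_nhds
      obtain ⟨t, ht, ht0⟩ := (hev2.and self_mem_nhdsWithin).exists
      refine ⟨x + t • z, ⟨ht.1, hg.rel, ht.2⟩, ?_⟩
      rw [map_add, hlx, zero_add, map_smul, smul_eq_mul]
      exact mul_ne_zero (ne_of_gt ht0) hz
    · exact ⟨x, hg, hlx⟩
  clear hg
  -- normalise so that `lam x₁ > 0`
  obtain ⟨lam', hlS', hlP', hlx'⟩ : ∃ lam', lam' ∈ spn l S ∧ lam' ∈ spn l P ∧ 0 < lam' x₁ := by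
    rcases lt_or_gt_of_ne hlx1 with h | h
    · exact ⟨-lam, Submodule.neg_mem _ hlS, Submodule.neg_mem _ hlP, by simpa using h⟩
    · exact ⟨lam, hlS, hlP, h⟩
  obtain ⟨c, hc⟩ := mem_spn_iff.mp hlS'
  obtain ⟨d, hd⟩ := mem_spn_iff.mp hlP'
  have hl0' : lam' ≠ 0 := by rintro rfl; simp at hlx'
  -- all coefficients `d i` are nonzero
  have hd0 : ∀ i ∈ P, d i ≠ 0 := by
    intro i hi hdi
    have hmem : lam' ∈ spn l (P.erase i) := by
      rw [mem_spn_iff]
      refine ⟨d, ?_⟩
      rw [← hd, ← Finset.add_sum_erase _ _ hi, hdi, zero_smul, zero_add]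
    have := hmin (P.erase i) (Finset.erase_ssubset hi)
    exact hl0' ((Submodule.disjoint_def.mp this) lam' hlS' hmem)
  have hPne : P.Nonempty := by
    rw [Finset.nonempty_iff_ne_empty]
    rintro rfl
    simp at hd
    exact hl0' hd.symm
  obtain ⟨i₀, hi₀⟩ := hPne
  set P₀ := P.erase i₀ with hP₀
  -- independence
  have hindep : ∀ j ∈ P₀, l j ∉ spn l (S ∪ P₀.erase j) := by
    intro j hj hmem
    rw [spn_union] at hmem
    obtain ⟨a, ha, b, hb, hab⟩ := Submodule.mem_sup.mp hmem
    have hjP : j ∈ P := Finset.mem_of_mem_erase hj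
    have ha2 : a ∈ spn l P₀ := by
      have : a = l j - b := by rw [← hab]; abel
      rw [this]
      exact Submodule.sub_mem _ (mem_spn hj) (spn_mono (Finset.erase_subset _ _) hb)
    have ha0 : a = 0 :=
      (Submodule.disjoint_def.mp (hmin P₀ (Finset.erase_ssubset hi₀))) a ha ha2
    rw [ha0, zero_add] at hab
    have hlj : l j ∈ spn l (P.erase j) := by
      rw [← hab]
      refine spn_mono ?_ hb
      intro i hi
      simp only [Finset.mem_erase, hP₀] at hi ⊢
      exact ⟨hi.1, hi.2.2⟩
    have hle : spn l P ≤ spn l (P.erase j) := by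
      rw [spn, Submodule.span_le]
      rintro _ ⟨i, hi, rfl⟩
      by_cases hij : i = j
      · subst hij; exact hlj
      · exact mem_spn (Finset.mem_erase.mpr ⟨hij, hi⟩)
    exact hl0' ((Submodule.disjoint_def.mp (hmin (P.erase j) (Finset.erase_ssubset hjP)))
      lam' hlS' (hle hlP'))
  have hdual : ∀ j : ι, ∃ w : E, j ∈ P₀ → ((∀ i ∈ S ∪ P₀.erase j, l i w = 0) ∧ l j w = 1) := by
    intro j
    by_cases hj : j ∈ P₀
    · obtain ⟨w, hw⟩ := exists_point_of_notMem (hindep j hj)
      exact ⟨w, fun _ => hw⟩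
    · exact ⟨0, fun h => absurd h hj⟩
  choose w hw using hdual
  set κ : ℝ := lam' x₁ / P.card with hκ
  have hcard : 0 < (P.card : ℝ) := by
    exact_mod_cast Finset.card_pos.mpr ⟨i₀, hi₀⟩
  have hκpos : 0 < κ := div_pos hlx' hcard
  let x₂ : E := x₁ + ∑ j ∈ P₀, (κ / d j - l j x₁) • w j
  have hx₂S : ∀ i ∈ S, l i x₂ = l i x₁ := by
    intro i hi
    simp only [x₂, map_add, map_sum, map_smul, smul_eq_mul]
    rw [Finset.sum_eq_zero, add_zero]
    intro j hj
    rw [(hw j hj).1 i (Finset.mem_union_left _ hi), mul_zero]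
  have hx₂P : ∀ i ∈ P₀, l i x₂ = κ / d i := by
    intro i hi
    simp only [x₂, map_add, map_sum, map_smul, smul_eq_mul]
    rw [Finset.sum_eq_single i]
    · rw [(hw i hi).2]; ring
    · intro j hj hji
      rw [(hw j hj).1 i (Finset.mem_union_right _ (Finset.mem_erase.mpr ⟨hji.symm, hi⟩)), mul_zero]
    · intro h; exact absurd hi h
  have hlam2 : lam' x₂ = lam' x₁ := by
    rw [← hc]
    simp only [LinearMap.sum_apply, LinearMap.smul_apply, smul_eq_mul]
    exact Finset.sum_congr rfl fun i hi => by rw [hx₂S i hi]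
  have hdx : ∀ i ∈ P, d i * l i x₂ = κ := by
    intro i hi
    by_cases hii : i = i₀
    · subst hii
      have h1 : lam' x₂ = ∑ j ∈ P, d j * l j x₂ := by
        rw [← hd]; simp [LinearMap.sum_apply]
      rw [← Finset.add_sum_erase _ _ hi, hlam2] at h1
      have h2 : ∑ j ∈ P.erase i, d j * l j x₂ = ((P.card : ℝ) - 1) * κ := by
        have : ∀ j ∈ P.erase i, d j * l j x₂ = κ := by
          intro j hj
          rw [hx₂P j hj]
          have := hd0 j (Finset.mem_of_mem_erase hj)
          field_simp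
        rw [Finset.sum_congr rfl this, Finset.sum_const, Finset.card_erase_of_mem hi, nsmul_eq_mul]
        congr 1
        have : 1 ≤ P.card := Finset.card_pos.mpr ⟨i, hi⟩
        push_cast [Nat.cast_sub this]
        ring
      have h3 : (P.card : ℝ) * κ = lam' x₁ := by
        rw [hκ]; exact mul_div_cancel₀ _ (ne_of_gt hcard)
      rw [h2] at h1
      linarith
    · have hiP₀ : i ∈ P₀ := Finset.mem_erase.mpr ⟨hii, hi⟩
      rw [hx₂P i hiP₀]
      have := hd0 i hi
      field_simp
  have hdisj : Disjoint S P := by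
    rw [Finset.disjoint_left]
    intro i hi hiP
    exact (Finset.mem_sdiff.mp (hPX hiP)).2 hi
  -- choose the size of the perturbation of the relation
  have hev : ∀ᶠ t : ℝ in 𝓝 0, ∀ i ∈ S, i ≠ e → 0 < (v i - t * c i) * l i x₁ := by
    rw [Filter.eventually_all_finset]
    intro i hi
    by_cases hie : i = e
    · simp [hie]
    · have h2 : Tendsto (fun t : ℝ => (v i - t * c i) * l i x₁) (𝓝 0)
          (𝓝 ((v i - 0 * c i) * l i x₁)) := by
        apply Continuous.tendsto
        fun_prop
      have h3 : 0 < (v i - 0 * c i) * l i x₁ := by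
        rw [zero_mul, sub_zero]; exact hg1.pos i hi hie
      filter_upwards [h2.eventually (lt_mem_nhds h3)] with t ht _ using ht
  have hev2 : ∀ᶠ t : ℝ in 𝓝[>] 0, ∀ i ∈ S, i ≠ e → 0 < (v i - t * c i) * l i x₁ :=
    hev.filter_mono nhdsWithin_le_nhds
  obtain ⟨t, ht, ht0⟩ := (hev2.and self_mem_nhdsWithin).exists
  have ht0' : 0 < t := ht0
  refine ⟨S ∪ P, ?_, ?_, x₂, fun i => if i ∈ S then v i - t * c i else t * d i, ?_, ?_, ?_⟩
  · rw [Finset.ssubset_iff_subset_ne]
    refine ⟨Finset.subset_union_left, fun h => ?_⟩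
    have : i₀ ∈ S := by rw [h]; exact Finset.mem_union_right _ hi₀
    exact Finset.disjoint_left.mp hdisj this hi₀
  · exact Finset.union_subset hSX (hPX.trans Finset.sdiff_subset)
  · intro i hi
    rcases Finset.mem_union.mp hi with h | h
    · rw [hx₂S i h]; exact hg1.ne i h
    · intro h0
      have := hdx i h
      rw [h0, mul_zero] at this
      linarith
  · rw [Finset.sum_union hdisj]
    have e1 : ∑ i ∈ S, (if i ∈ S then v i - t * c i else t * d i) • l i =
        ∑ i ∈ S, v i • l i - t • ∑ i ∈ S, c i • l i := by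
      rw [Finset.smul_sum, ← Finset.sum_sub_distrib]
      refine Finset.sum_congr rfl fun i hi => ?_
      rw [if_pos hi]
      module
    have e2 : ∑ i ∈ P, (if i ∈ S then v i - t * c i else t * d i) • l i =
        t • ∑ i ∈ P, d i • l i := by
      rw [Finset.smul_sum]
      refine Finset.sum_congr rfl fun i hi => ?_
      rw [if_neg (fun h => Finset.disjoint_left.mp hdisj h hi)]
      module
    rw [e1, e2, hg1.rel, hc, hd]
    simp
  · intro i hi hie
    by_cases hiS : i ∈ S
    · simp only [if_pos hiS]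
      rw [hx₂S i hiS]
      exact ht i hiS hie
    · have hiP : i ∈ P := (Finset.mem_union.mp hi).resolve_left hiS
      simp only [if_neg hiS]
      rw [mul_assoc, hdx i hiP]
      exact mul_pos ht0' hκpos

/-- For an indecomposable family the whole family is good. -/
lemma exists_good {l : ι → Dual ℝ E} {e : ι} {X : Finset ι} (heX : e ∈ X) (he : l e ≠ 0)
    (hind : ∀ S ⊆ X, S.Nonempty → S ≠ X → ¬ Disjoint (spn l S) (spn l (X \ S))) :
    ∃ x v, Good l e X x v := by
  have main : ∀ k : ℕ, ∀ S : Finset ι, S ⊆ X → e ∈ S → (X \ S).card = k →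
      (∃ x v, Good l e S x v) → ∃ x v, Good l e X x v := by
    intro k
    induction k using Nat.strong_induction_on with
    | _ k ih =>
      intro S hSX heS hk hgood
      by_cases hS : S = X
      · rw [← hS]; exact hgood
      · obtain ⟨x, v, hg⟩ := hgood
        obtain ⟨T, hST, hTX, hT⟩ := good_step hSX heS hS (hind S hSX ⟨e, heS⟩ hS) hg
        refine ih (X \ T).card ?_ T hTX (hST.1 heS) rfl hT
        rw [← hk]
        apply Finset.card_lt_card
        rw [Finset.ssubset_iff_subset_ne]
        refine ⟨Finset.sdiff_subset_sdiff (le_refl _) hST.1, fun h => ?_⟩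
        obtain ⟨j, hjT, hjS⟩ := Finset.exists_of_ssubset hST
        have : j ∈ X \ S := Finset.mem_sdiff.mpr ⟨hTX hjT, hjS⟩
        rw [← h] at this
        exact (Finset.mem_sdiff.mp this).2 hjT
  obtain ⟨z, hz⟩ : ∃ z, l e z ≠ 0 := by
    by_contra hcon
    push Not at hcon
    exact he (LinearMap.ext hcon)
  refine main _ {e} (by simpa using heX) (by simp) rfl ⟨z, fun _ => 0, ?_, ?_, ?_⟩
  · intro i hi
    rw [Finset.mem_singleton.mp hi]; exact hz
  · simp
  · intro i hi hie
    exact absurd (Finset.mem_singleton.mp hi) hie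

/-- **Bounded chamber.**  For an indecomposable family `X` of forms and `e ∈ X` there are a point
`x` off all hyperplanes such that the closure of the chamber of `x` meets `l e = 0` only in the
common zero set of the family. -/
theorem exists_bounded_chamber {l : ι → Dual ℝ E} {e : ι} {X : Finset ι} (heX : e ∈ X)
    (he : l e ≠ 0)
    (hind : ∀ S ⊆ X, S.Nonempty → S ≠ X → ¬ Disjoint (spn l S) (spn l (X \ S))) :
    ∃ x : E, (∀ i ∈ X, l i x ≠ 0) ∧
      ∀ q : E, (∀ i ∈ X, 0 ≤ l i x * l i q) → l e q = 0 → ∀ i ∈ X, l i q = 0 := by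
  obtain ⟨x, v, hg⟩ := exists_good heX he hind
  refine ⟨x, hg.ne, fun q hq heq => ?_⟩
  have hsum : ∑ i ∈ X, v i * l i q = 0 := by
    have := congrArg (fun a : Dual ℝ E => a q) hg.rel
    simpa [LinearMap.sum_apply] using this
  have hnonneg : ∀ i ∈ X, 0 ≤ v i * l i q := by
    intro i hi
    by_cases hie : i = e
    · rw [hie, heq, mul_zero]
    · have h1 := hg.pos i hi hie
      have h2 := hq i hi
      have h3 : 0 ≤ (v i * l i q) * (l i x) ^ 2 := by
        have : (v i * l i q) * (l i x) ^ 2 = (v i * l i x) * (l i x * l i q) := by ring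
        rw [this]; positivity
      have h4 : 0 < (l i x) ^ 2 := by
        have := hg.ne i hi
        positivity
      exact nonneg_of_mul_nonneg_left h3 h4
  intro i hi
  have hz := (Finset.sum_eq_zero_iff_of_nonneg hnonneg).mp hsum i hi
  by_cases hie : i = e
  · rw [hie]; exact heq
  · have h1 := hg.pos i hi hie
    have hv : v i ≠ 0 := by
      intro h0; rw [h0, zero_mul] at h1; exact lt_irrefl _ h1
    exact (mul_eq_zero.mp hz).resolve_left hv

end Pool.Agent.helper14.ND
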