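import Mathlib
import Pool.Agent.helper14.NDChamber

/-! Matroid part: for indecomposable simple arrangements of rank at most four, the flats which are
too large all contain a common hyperplane. -/

namespace Pool.Agent.helper14.ND

open Finset Module

variable {ι : Type*} [DecidableEq ι] {E : Type*} [AddCommGroup E] [Module ℝ E]
  [FiniteDimensional ℝ E]

/-- rank of a set of forms -/
noncomputable def rho (l : ι → Dual ℝ E) (S : Finset ι) : ℕ := finrank ℝ (spn l S)

omit [DecidableEq ι] in
lemma rho_mono {l : ι → Dual ℝ E} {S T : Finset ι} (h : S ⊆ T) : rho l S ≤ rho l T :=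
  Submodule.finrank_mono (spn_mono h)

omit [FiniteDimensional ℝ E] in
lemma rho_le_card {l : ι → Dual ℝ E} (S : Finset ι) : rho l S ≤ S.card := by
  classical
  have h2 : (spn l S) = Submodule.span ℝ ((S.image l : Finset (Dual ℝ E)) : Set (Dual ℝ E)) := by
    rw [spn, Finset.coe_image]
  rw [rho, h2]
  exact (finrank_span_finset_le_card _).trans Finset.card_image_le

lemma rho_submod (l : ι → Dual ℝ E) (S T : Finset ι) :
    rho l (S ∪ T) + rho l (S ∩ T) ≤ rho l S + rho l T := by
  have h1 := Submodule.finrank_sup_add_finrank_inf_eq (spn l S) (spn l T)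
  have h2 : spn l (S ∩ T) ≤ spn l S ⊓ spn l T :=
    le_inf (spn_mono Finset.inter_subset_left) (spn_mono Finset.inter_subset_right)
  have h3 := Submodule.finrank_mono h2
  rw [rho, rho, rho, rho, spn_union]
  omega

/-- flats of `X` -/
def IsFl (l : ι → Dual ℝ E) (X Y : Finset ι) : Prop :=
  Y ⊆ X ∧ ∀ i ∈ X, l i ∈ spn l Y → i ∈ Y

omit [DecidableEq ι] in
lemma IsFl.eq_of_rho {l : ι → Dual ℝ E} {X Y Z : Finset ι} (hY : IsFl l X Y) (hYZ : Y ⊆ Z)
    (hZX : Z ⊆ X) (h : rho l Z ≤ rho l Y) : Z = Y := by
  have h1 : spn l Y = spn l Z := Submodule.eq_of_le_of_finrank_le (spn_mono hYZ) h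
  refine Finset.Subset.antisymm (fun i hi => hY.2 i (hZX hi) ?_) hYZ
  rw [h1]
  exact mem_spn hi

lemma IsFl.inter {l : ι → Dual ℝ E} {X Y Z : Finset ι} (hY : IsFl l X Y) (hZ : IsFl l X Z) :
    IsFl l X (Y ∩ Z) :=
  ⟨Finset.inter_subset_left.trans hY.1, fun i hi h =>
    Finset.mem_inter.mpr ⟨hY.2 i hi (spn_mono Finset.inter_subset_left h),
      hZ.2 i hi (spn_mono Finset.inter_subset_right h)⟩⟩

/-- **Common hyperplane of the large flats, rank at most four.** -/
theorem exists_common {l : ι → Dual ℝ E} {X : Finset ι} (hX : X.Nonempty)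
    (hsimple : ∀ i ∈ X, ∀ j ∈ X, i ≠ j → rho l {i, j} = 2) (hne : ∀ i ∈ X, l i ≠ 0)
    (hind : ∀ S ⊆ X, S.Nonempty → S ≠ X → rho l S + rho l (X \ S) ≠ rho l X)
    (hr : rho l X ≤ 4) :
    ∃ e ∈ X, ∀ Y, IsFl l X Y → Y.Nonempty → Y ≠ X →
      X.card * rho l Y ≤ Y.card * rho l X → e ∈ Y := by
  classical
  -- lower bounds of the rank
  have h1 : ∀ Y ⊆ X, Y.Nonempty → 1 ≤ rho l Y := by
    intro Y hY hYne
    obtain ⟨i, hi⟩ := hYne
    rw [rho, Nat.one_le_iff_ne_zero]
    intro h0
    have h2 : spn l Y = ⊥ := Submodule.finrank_eq_zero.mp h0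
    have h3 : l i ∈ spn l Y := mem_spn hi
    rw [h2, Submodule.mem_bot] at h3
    exact hne i (hY hi) h3
  have h2 : ∀ Y ⊆ X, 2 ≤ Y.card → 2 ≤ rho l Y := by
    intro Y hY hYc
    obtain ⟨i, hi, j, hj, hij⟩ := Finset.one_lt_card.mp (by omega : 1 < Y.card)
    rw [← hsimple i (hY hi) j (hY hj) hij]
    refine rho_mono fun k hk => ?_
    rcases Finset.mem_insert.mp hk with h | h
    · rw [h]; exact hi
    · rw [Finset.mem_singleton.mp h]; exact hj
  -- indecomposability in the strong form
  have hind2 : ∀ S ⊆ X, S.Nonempty → S ≠ X → rho l X + 1 ≤ rho l S + rho l (X \ S) := by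
    intro S hS hSne hSX
    have h3 := rho_submod l S (X \ S)
    rw [Finset.union_sdiff_of_subset hS] at h3
    have h4 := hind S hS hSne hSX
    omega
  have hcard : 2 ≤ rho l X → rho l X + 1 ≤ X.card := by
    intro hr2
    obtain ⟨i, hi⟩ := hX
    have hX2 : 2 ≤ X.card := hr2.trans (rho_le_card X)
    have hs : ({i} : Finset ι) ≠ X := by
      intro h
      rw [← h, Finset.card_singleton] at hX2
      omega
    have h3 := hind2 {i} (by simpa using hi) (by simp) hs
    have h4 := rho_le_card (l := l) {i}
    have h5 := rho_le_card (l := l) (X \ {i})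
    rw [Finset.card_singleton] at h4
    rw [Finset.card_sdiff_of_subset (by simpa using hi), Finset.card_singleton] at h5
    omega
  -- bad flats
  let Bad : Finset ι → Prop := fun Y => IsFl l X Y ∧ Y.Nonempty ∧ Y ≠ X ∧
    X.card * rho l Y ≤ Y.card * rho l X
  have hbadrank : ∀ Y, Bad Y → 2 ≤ rho l Y ∧ rho l Y + 1 ≤ rho l X := by
    rintro Y ⟨hY, hYne, hYX, hb⟩
    have hlt : rho l Y + 1 ≤ rho l X := by
      by_contra hcon
      exact hYX (hY.eq_of_rho hY.1 (Finset.Subset.refl _) (by omega)).symm
    refine ⟨?_, hlt⟩
    by_contra hcon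
    have h3 := h1 Y hY.1 hYne
    have h4 : rho l Y = 1 := by omega
    have h5 : Y.card ≤ 1 := by
      by_contra h6
      have := h2 Y hY.1 (by omega)
      omega
    have h6 := hcard (by omega)
    rw [h4, mul_one] at hb
    have h7 : Y.card * rho l X ≤ 1 * rho l X := Nat.mul_le_mul_right _ h5
    omega
  by_cases hex : ∃ Y, Bad Y
  · -- a bad flat of minimal rank
    obtain ⟨L, hL, hLmin⟩ : ∃ L, Bad L ∧ ∀ Y, Bad Y → rho l L ≤ rho l Y := by
      have hne' : (X.powerset.filter fun Y => Bad Y).Nonempty := by
        obtain ⟨Y, hY⟩ := hex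
        exact ⟨Y, Finset.mem_filter.mpr ⟨Finset.mem_powerset.mpr hY.1.1, hY⟩⟩
      obtain ⟨L, hL, hmin⟩ := Finset.exists_min_image _ (rho l) hne'
      refine ⟨L, (Finset.mem_filter.mp hL).2, fun Y hY => hmin Y ?_⟩
      exact Finset.mem_filter.mpr ⟨Finset.mem_powerset.mpr hY.1.1, hY⟩
    have key : ∀ Z, Bad Z → L ⊆ Z := by
      intro Z hZ
      by_contra hLZ
      have hLr := hbadrank L hL
      have hZr := hbadrank Z hZ
      have hmin := hLmin Z hZ
      have hdr := hcard (by omega)
      have hLb := hL.2.2.2
      have hZb := hZ.2.2.2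
      have hcu := Finset.card_union_add_card_inter L Z
      have hcX : (L ∪ Z).card ≤ X.card :=
        Finset.card_le_card (Finset.union_subset hL.1.1 hZ.1.1)
      have hsub := rho_submod l L Z
      have hfl := hL.1.inter hZ.1
      -- the rank of the intersection is smaller
      have hint : rho l (L ∩ Z) + 1 ≤ rho l L := by
        by_contra hcon
        have := hfl.eq_of_rho Finset.inter_subset_left hL.1.1 (by omega)
        apply hLZ
        rw [this]
        exact Finset.inter_subset_right
      have hint2 : 2 ≤ (L ∩ Z).card → 2 ≤ rho l (L ∩ Z) := fun h =>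
        h2 _ (Finset.inter_subset_left.trans hL.1.1) h
      have hint1 : 1 ≤ (L ∩ Z).card → 1 ≤ rho l (L ∩ Z) := fun h =>
        h1 _ (Finset.inter_subset_left.trans hL.1.1) (Finset.card_pos.mp (by omega))
      have hrX : rho l X = 3 ∨ rho l X = 4 := by omega
      rcases hrX with hrX | hrX
      · -- rank three
        have e1 : rho l L = 2 := by omega
        have e2 : rho l Z = 2 := by omega
        rw [e1, hrX] at hLb
        rw [e2, hrX] at hZb
        have e3 : (L ∩ Z).card ≤ 1 := by
          by_contra h
          have := hint2 (by omega)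
          omega
        omega
      · rw [hrX] at hLb hZb
        have hLcase : rho l L = 2 ∨ rho l L = 3 := by omega
        rcases hLcase with e1 | e1
        · have e3 : (L ∩ Z).card ≤ 1 := by
            by_contra h
            have := hint2 (by omega)
            omega
          have hZcase : rho l Z = 2 ∨ rho l Z = 3 := by omega
          rcases hZcase with e2 | e2
          · rw [e1] at hLb
            rw [e2] at hZb
            -- the union
            by_cases hU : L ∪ Z = X
            · by_cases hI : (L ∩ Z).card = 0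
              · -- disjoint
                have hdisj : L ∩ Z = ∅ := Finset.card_eq_zero.mp hI
                have hZe : X \ L = Z := by
                  rw [← hU, Finset.union_sdiff_left]
                  rw [Finset.sdiff_eq_self_iff_disjoint, Finset.disjoint_iff_inter_eq_empty,
                    Finset.inter_comm]
                  exact hdisj
                have := hind2 L hL.1.1 hL.2.1 hL.2.2.1
                rw [hZe] at this
                omega
              · have := hint1 (by omega)
                rw [hU] at hsub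
                omega
            · have hXu : (X \ (L ∪ Z)).card = X.card - (L ∪ Z).card :=
                Finset.card_sdiff_of_subset (Finset.union_subset hL.1.1 hZ.1.1)
              have h3 := hind2 (L ∪ Z) (Finset.union_subset hL.1.1 hZ.1.1)
                (hL.2.1.mono Finset.subset_union_left) hU
              have h4 := rho_le_card (l := l) (X \ (L ∪ Z))
              have hneq : (L ∪ Z).card ≠ X.card := fun h =>
                hU (Finset.eq_of_subset_of_card_le (Finset.union_subset hL.1.1 hZ.1.1) h.ge)
              by_cases hI : (L ∩ Z).card = 0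
              · omega
              · have := hint1 (by omega)
                omega
          · rw [e1] at hLb
            rw [e2] at hZb
            omega
        · -- both of rank three
          have e2 : rho l Z = 3 := by omega
          rw [e1] at hLb
          rw [e2] at hZb
          have e3 : 2 ≤ (L ∩ Z).card := by omega
          have e4 := hint2 e3
          have e5 : rho l (L ∩ Z) = 2 := by omega
          have hbad : Bad (L ∩ Z) := by
            refine ⟨hfl, Finset.card_pos.mp (by omega), ?_, ?_⟩
            · intro h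
              rw [h, hrX] at e5
              omega
            · rw [e5, hrX]
              omega
          have := hLmin _ hbad
          omega
    obtain ⟨e, he⟩ := hL.2.1
    exact ⟨e, hL.1.1 he, fun Y h1 h2 h3 h4 => key Y ⟨h1, h2, h3, h4⟩ he⟩
  · obtain ⟨e, he⟩ := hX
    refine ⟨e, he, fun Y h1 h2 h3 h4 => ?_⟩
    exact absurd ⟨Y, h1, h2, h3, h4⟩ hex

end Pool.Agent.helper14.ND
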