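import Mathlib

/-! Bernstein functional equation of a holomorphic germ, in terms of the twisted derivatives. -/

namespace Pool.Agent.helper14.ND

open Filter Topology

/-- The operator `∇_i` on functions: `(∇_i g) f ^ s = ∂_i (g f ^ s)`, that is
`∇_i g = ∂_i g + s (∂_i f / f) g`. -/
noncomputable def nabla {n : ℕ} (f : (Fin n → ℂ) → ℂ) (s : ℂ) (i : Fin n)
    (g : (Fin n → ℂ) → ℂ) : (Fin n → ℂ) → ℂ :=
  fun z => fderiv ℂ g z (Pi.single i 1) + s * (fderiv ℂ f z (Pi.single i 1) / f z) * g z

/-- `IsBernstein f b`: there is a differential operator `P(s) = ∑ a_t(z) s^j ∂_w` with coefficients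
`a_t` holomorphic near `0` (the sum is over finitely many pairs `t = (w, j)` of a word `w` in the
variables and an exponent `j`) such that `P(s) f ^ (s + 1) = b(s) f ^ s` near `0`, where
`∂_w (f ^ (s+1)) = (∇_w f) f ^ s`. -/
def IsBernstein {n : ℕ} (f : (Fin n → ℂ) → ℂ) (b : Polynomial ℂ) : Prop :=
  ∃ (T : Finset (List (Fin n) × ℕ)) (a : List (Fin n) × ℕ → (Fin n → ℂ) → ℂ),
    (∀ t ∈ T, AnalyticAt ℂ (a t) 0) ∧
    ∀ᶠ z in 𝓝 (0 : Fin n → ℂ), f z ≠ 0 → ∀ s : ℂ,
      ∑ t ∈ T, a t z * s ^ t.2 * (t.1.foldr (nabla f s) f) z = b.eval s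

/-- Justification of `nabla`: if `F` is a branch of `f ^ s` at `z` (a function whose differential
is `s F df / f`), then the `i`-th derivative of `g F` is `(∇_i g) F`. -/
lemma nabla_spec {n : ℕ} {f g F : (Fin n → ℂ) → ℂ} {s : ℂ} {z : Fin n → ℂ}
    (hg : DifferentiableAt ℂ g z) (hF : HasFDerivAt F ((s * F z / f z) • fderiv ℂ f z) z)
    (i : Fin n) :
    fderiv ℂ (fun y => g y * F y) z (Pi.single i 1) = nabla f s i g z * F z := by
  have h := (hg.hasFDerivAt.fun_mul hF).fderiv
  rw [h]
  simp only [add_apply, smul_apply, smul_eq_mul, nabla]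
  ring

/-- The polynomial `∏ (linear forms with real coefficients)` of a real central arrangement;
`A i` is the coefficient vector of the `i`-th form. -/
noncomputable def arrPoly {n : ℕ} {ι : Type*} [Fintype ι] (A : ι → Fin n → ℝ) :
    (Fin n → ℂ) → ℂ :=
  fun z => ∏ i, ∑ j, (A i j : ℂ) * z j

/-- The polynomial of a real central arrangement with multiplicities `mu`. -/
noncomputable def arrPolyMul {n : ℕ} {ι : Type*} [Fintype ι] (A : ι → Fin n → ℝ) (mu : ι → ℕ) :
    (Fin n → ℂ) → ℂ :=
  fun z => ∏ i, (∑ j, (A i j : ℂ) * z j) ^ mu i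

/-- The rank of the set `S` of forms, that is the codimension of the intersection of the
hyperplanes indexed by `S`. -/
noncomputable def rk {n : ℕ} {ι : Type*} (A : ι → Fin n → ℝ) (S : Finset ι) : ℕ :=
  Module.finrank ℝ (Submodule.span ℝ (A '' (S : Set ι)))

/-- `X` is (the set of hyperplanes containing) a dense edge: it is nonempty, it contains every
hyperplane which contains the intersection of the hyperplanes in `X`, and it is indecomposable:
for no decomposition into two nonempty parts do the ranks add up to the rank of `X`. -/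
structure IsDenseEdge {n : ℕ} {ι : Type*} [DecidableEq ι] (A : ι → Fin n → ℝ)
    (X : Finset ι) : Prop where
  nonempty : X.Nonempty
  flat : ∀ i, A i ∈ Submodule.span ℝ (A '' (X : Set ι)) → i ∈ X
  indec : ∀ S ⊆ X, S.Nonempty → S ≠ X → rk A S + rk A (X \ S) ≠ rk A X

end Pool.Agent.helper14.ND
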