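import Mathlib
import Pool.Agent.helper14.NDDefs

/-! Integration by parts for powers on a chamber. -/

namespace Pool.Agent.helper14.ND

open Filter Topology MeasureTheory Set Asymptotics

open scoped ContDiff

section words

variable {n : ℕ}

/-- numerators of the iterated twisted derivatives of `f` -/
noncomputable def Nw (f : (Fin n → ℂ) → ℂ) (s : ℂ) : List (Fin n) → (Fin n → ℂ) → ℂ
  | [] => f
  | (i :: w) => fun z => f z * fderiv ℂ (Nw f s w) z (Pi.single i 1) +
      (s - w.length) * fderiv ℂ f z (Pi.single i 1) * Nw f s w z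

lemma Nw_contDiff {f : (Fin n → ℂ) → ℂ} (hf : ContDiff ℂ ∞ f) (s : ℂ) (w : List (Fin n)) :
    ContDiff ℂ ∞ (Nw f s w) := by
  induction w with
  | nil => exact hf
  | cons i w ih =>
    have h1 : ContDiff ℂ ∞ fun z => fderiv ℂ (Nw f s w) z (Pi.single i 1) :=
      (ih.fderiv_right (m := ∞) le_rfl).clm_apply contDiff_const
    have h2 : ContDiff ℂ ∞ fun z => fderiv ℂ f z (Pi.single i 1) :=
      (hf.fderiv_right (m := ∞) le_rfl).clm_apply contDiff_const
    exact (hf.mul h1).add ((contDiff_const.mul h2).mul ih)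

lemma foldr_nabla_eq {f : (Fin n → ℂ) → ℂ} (hf : ContDiff ℂ ∞ f) (s : ℂ) (w : List (Fin n))
    (z : Fin n → ℂ) (hz : f z ≠ 0) :
    (w.foldr (nabla f s) f) z = Nw f s w z / (f z) ^ w.length := by
  induction w generalizing z with
  | nil => simp [Nw]
  | cons i w ih =>
    have hfd : HasFDerivAt f (fderiv ℂ f z) z :=
      (hf.differentiable (by simp)).differentiableAt.hasFDerivAt
    have hNd : HasFDerivAt (Nw f s w) (fderiv ℂ (Nw f s w) z) z :=
      ((Nw_contDiff hf s w).differentiable (by simp)).differentiableAt.hasFDerivAt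
    have hev : (w.foldr (nabla f s) f) =ᶠ[𝓝 z] fun y => Nw f s w y / (f y) ^ w.length := by
      filter_upwards [hf.continuous.continuousAt.eventually_ne hz] with y hy using ih y hy
    simp only [List.foldr_cons, nabla, Nw, List.length_cons]
    rw [hev.fderiv_eq, ih z hz]
    have hd : HasFDerivAt (fun y => Nw f s w y / (f y) ^ w.length)
        ((Nw f s w z) • (-(((f z) ^ w.length) ^ 2)⁻¹ •
          ((w.length : ℂ) * f z ^ (w.length - 1)) • fderiv ℂ f z) +
          ((f z) ^ w.length)⁻¹ • fderiv ℂ (Nw f s w) z) z := by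
      have h1 : HasFDerivAt (fun y => (f y) ^ w.length)
          (((w.length : ℂ) * f z ^ (w.length - 1)) • fderiv ℂ f z) z := by
        simpa using hfd.pow w.length
      have h2 := (hasDerivAt_inv (pow_ne_zero w.length hz)).comp_hasFDerivAt z h1
      have h3 := hNd.fun_mul h2
      simpa only [div_eq_mul_inv, Function.comp_def] using h3
    rw [hd.fderiv]
    simp only [add_apply, smul_apply, smul_eq_mul]
    rcases Nat.eq_zero_or_pos w.length with h0 | h0
    · rw [h0]; simp; field_simp
    · obtain ⟨m, hm⟩ : ∃ m, w.length = m + 1 := ⟨w.length - 1, by omega⟩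
      rw [hm]
      simp only [Nat.add_sub_cancel]
      field_simp
      push_cast
      ring

end words

section powers

variable {E : Type*} [NormedAddCommGroup E] [NormedSpace ℝ E]

/-- `g ^ t` on `C`, extended by zero -/
noncomputable def Ft (g : E → ℝ) (C : Set E) (t : ℝ) (x : E) : ℝ :=
  C.indicator (fun x => g x ^ t) x

omit [NormedAddCommGroup E] [NormedSpace ℝ E] in
lemma Ft_abs_le {g : E → ℝ} {C : Set E} (hg : ∀ x ∈ C, 0 < g x) (t : ℝ) (x : E) :
    ‖Ft g C t x‖ ≤ |g x| ^ t := by
  by_cases hx : x ∈ C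
  · rw [Ft, Set.indicator_of_mem hx, Real.norm_of_nonneg (Real.rpow_nonneg (hg x hx).le _),
      abs_of_pos (hg x hx)]
  · rw [Ft, Set.indicator_of_notMem hx, norm_zero]
    exact Real.rpow_nonneg (abs_nonneg _) _

omit [NormedAddCommGroup E] [NormedSpace ℝ E] in
lemma Ft_mul {g : E → ℝ} {C : Set E} (hg : ∀ x ∈ C, 0 < g x) (t : ℝ) (x : E) :
    g x * Ft g C t x = Ft g C (t + 1) x := by
  by_cases hx : x ∈ C
  · rw [Ft, Ft, Set.indicator_of_mem hx, Set.indicator_of_mem hx, Real.rpow_add_one (hg x hx).ne',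
      mul_comm]
  · rw [Ft, Ft, Set.indicator_of_notMem hx, Set.indicator_of_notMem hx, mul_zero]

lemma Ft_hasFDerivAt {g : E → ℝ} {C : Set E} (hC : IsOpen C) (hg : ∀ x ∈ C, 0 < g x)
    (hfr : ∀ x ∈ frontier C, g x = 0) (hgd : Differentiable ℝ g) {t : ℝ} (ht : 1 < t) (x : E) :
    HasFDerivAt (Ft g C t) ((t * Ft g C (t - 1) x) • fderiv ℝ g x) x := by
  by_cases hx : x ∈ C
  · have h1 : HasFDerivAt (fun y => g y ^ t) ((t * g x ^ (t - 1)) • fderiv ℝ g x) x := by
      have := (hgd x).hasFDerivAt.rpow_const (p := t) (Or.inl (hg x hx).ne')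
      simpa using this
    rw [show Ft g C (t - 1) x = g x ^ (t - 1) by rw [Ft, Set.indicator_of_mem hx]]
    refine h1.congr_of_eventuallyEq ?_
    filter_upwards [hC.mem_nhds hx] with y hy
    rw [Ft, Set.indicator_of_mem hy]
  · have hz : Ft g C (t - 1) x = 0 := by rw [Ft, Set.indicator_of_notMem hx]
    have hz2 : Ft g C t x = 0 := by rw [Ft, Set.indicator_of_notMem hx]
    rw [hz, mul_zero, zero_smul]
    by_cases hx2 : x ∈ closure C
    · have hxf : x ∈ frontier C := by
        rw [hC.frontier_eq]; exact ⟨hx2, hx⟩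
      have hgx := hfr x hxf
      rw [hasFDerivAt_iff_isLittleO]
      simp only [hz2, sub_zero, zero_apply]
      have hO : (fun y => g y) =O[𝓝 x] fun y => ‖y - x‖ := by
        have := (hgd x).hasFDerivAt.isBigO_sub
        simpa [hgx] using this.norm_right
      have hO2 : (fun y => |g y| ^ t) =O[𝓝 x] fun y => ‖y - x‖ ^ t :=
        (hO.abs_left).rpow (by linarith) (Eventually.of_forall fun y => norm_nonneg _)
      have hO3 : (fun y => Ft g C t y) =O[𝓝 x] fun y => |g y| ^ t := by
        refine IsBigO.of_bound 1 (Eventually.of_forall fun y => ?_)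
        rw [one_mul, Real.norm_of_nonneg (Real.rpow_nonneg (abs_nonneg _) _)]
        exact Ft_abs_le hg t y
      refine (hO3.trans hO2).trans_isLittleO ?_
      have hl : (fun u : ℝ => u ^ t) =o[𝓝[≥] 0] fun u : ℝ => u := by
        rw [isLittleO_iff]
        intro c hc
        have htend : Tendsto (fun u : ℝ => u ^ (t - 1)) (𝓝[≥] 0) (𝓝 0) := by
          have h3 : ContinuousAt (fun u : ℝ => u ^ (t - 1)) 0 :=
            Real.continuousAt_rpow_const _ _ (Or.inr (by linarith))
          have h4 := h3.tendsto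
          rw [Real.zero_rpow (by linarith)] at h4
          exact h4.mono_left nhdsWithin_le_nhds
        filter_upwards [htend.eventually (gt_mem_nhds hc), self_mem_nhdsWithin] with u hu hu0
        have hu0' : (0:ℝ) ≤ u := hu0
        rw [Real.norm_of_nonneg (Real.rpow_nonneg hu0' _), Real.norm_of_nonneg hu0']
        rcases hu0'.eq_or_lt with h | h
        · rw [← h, Real.zero_rpow (by linarith), mul_zero]
        · have : u ^ t = u ^ (t - 1) * u := by
            rw [← Real.rpow_add_one h.ne']; congr 1; ring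
          rw [this]
          exact mul_le_mul_of_nonneg_right hu.le hu0'
      have hnt : Tendsto (fun y => ‖y - x‖) (𝓝 x) (𝓝[≥] 0) := by
        rw [tendsto_nhdsWithin_iff]
        refine ⟨?_, Eventually.of_forall fun y => norm_nonneg _⟩
        have : Tendsto (fun y => ‖y - x‖) (𝓝 x) (𝓝 ‖x - x‖) := by
          apply Continuous.tendsto
          fun_prop
        simpa using this
      exact isLittleO_norm_right.mp (hl.comp_tendsto hnt)
    · have hev : Ft g C t =ᶠ[𝓝 x] fun _ => 0 := by
        filter_upwards [(isClosed_closure.isOpen_compl).mem_nhds hx2] with y hy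
        rw [Ft, Set.indicator_of_notMem fun h => hy (subset_closure h)]
      exact (hasFDerivAt_const 0 x).congr_of_eventuallyEq hev

omit [NormedSpace ℝ E] in
lemma Ft_continuous {g : E → ℝ} {C : Set E} (hC : IsOpen C) (hg : ∀ x ∈ C, 0 < g x)
    (hfr : ∀ x ∈ frontier C, g x = 0) (hgc : Continuous g) {t : ℝ} (ht : 0 < t) :
    Continuous (Ft g C t) := by
  rw [continuous_iff_continuousAt]
  intro x
  by_cases hx : x ∈ C
  · have h1 : ContinuousAt (fun y => g y ^ t) x :=
      hgc.continuousAt.rpow_const (Or.inl (hg x hx).ne')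
    refine h1.congr ?_
    filter_upwards [hC.mem_nhds hx] with y hy
    rw [Ft, Set.indicator_of_mem hy]
  · by_cases hx2 : x ∈ closure C
    · have hxf : x ∈ frontier C := by
        rw [hC.frontier_eq]; exact ⟨hx2, hx⟩
      have hgx := hfr x hxf
      have hz2 : Ft g C t x = 0 := by rw [Ft, Set.indicator_of_notMem hx]
      rw [ContinuousAt, hz2]
      refine squeeze_zero_norm (Ft_abs_le hg t) ?_
      have h1 : ContinuousAt (fun y => |g y| ^ t) x :=
        (continuous_abs.comp hgc).continuousAt.rpow_const (Or.inr ht.le)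
      have h2 := h1.tendsto
      rw [hgx, abs_zero, Real.zero_rpow ht.ne'] at h2
      exact h2
    · have hev : (fun _ => (0:ℝ)) =ᶠ[𝓝 x] Ft g C t := by
        filter_upwards [(isClosed_closure.isOpen_compl).mem_nhds hx2] with y hy
        rw [Ft, Set.indicator_of_notMem fun h => hy (subset_closure h)]
      exact continuousAt_const.congr hev

end powers

section parts

variable {n : ℕ}

/-- inclusion of the real points -/
noncomputable def cst (n : ℕ) : (Fin n → ℝ) →L[ℝ] (Fin n → ℂ) :=
  ContinuousLinearMap.pi fun i => Complex.ofRealCLM.comp (ContinuousLinearMap.proj i)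

lemma cst_apply (x : Fin n → ℝ) (i : Fin n) : cst n x i = (x i : ℂ) := rfl

lemma cst_single (i : Fin n) : cst n (Pi.single i 1) = Pi.single i 1 := by
  ext j
  rw [cst_apply]
  by_cases h : j = i
  · subst h; simp
  · simp [Pi.single_eq_of_ne h]

/-- data: a holomorphic function `f`, real on real points up to the constant `η = ±1`,
and an open set `C` of real points on which `g = η f` is positive. -/
structure Setup (f : (Fin n → ℂ) → ℂ) (g : (Fin n → ℝ) → ℝ) (C : Set (Fin n → ℝ)) (η : ℂ) :
    Prop where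
  hf : ContDiff ℂ ∞ f
  hC : IsOpen C
  hg : ∀ x ∈ C, 0 < g x
  hfr : ∀ x ∈ frontier C, g x = 0
  hgd : ContDiff ℝ ∞ g
  hη : η * η = 1
  hfg : ∀ x, f (cst n x) = η * g x

/-- twisted derivatives of `f` times `g ^ s` on `C` -/
noncomputable def Uw (f : (Fin n → ℂ) → ℂ) (g : (Fin n → ℝ) → ℝ) (C : Set (Fin n → ℝ)) (η : ℂ)
    (s : ℝ) (w : List (Fin n)) (x : Fin n → ℝ) : ℂ :=
  η ^ w.length * Nw f s w (cst n x) * (Ft g C (s - w.length) x : ℂ)

lemma hasFDerivAt_comp_cst {h : (Fin n → ℂ) → ℂ} (hh : Differentiable ℂ h) (x : Fin n → ℝ) :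
    HasFDerivAt (fun x => h (cst n x))
      (((fderiv ℂ h (cst n x)).restrictScalars ℝ).comp (cst n)) x := by
  have h1 : HasFDerivAt h ((fderiv ℂ h (cst n x)).restrictScalars ℝ) (cst n x) :=
    (hh (cst n x)).hasFDerivAt.restrictScalars ℝ
  exact h1.comp x (cst n).hasFDerivAt

variable {f : (Fin n → ℂ) → ℂ} {g : (Fin n → ℝ) → ℝ} {C : Set (Fin n → ℝ)} {η : ℂ}

lemma Setup.fderiv_f (S : Setup f g C η) (x : Fin n → ℝ) (i : Fin n) :
    fderiv ℂ f (cst n x) (Pi.single i 1) = η * (fderiv ℝ g x (Pi.single i 1) : ℝ) := by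
  have h1 := hasFDerivAt_comp_cst (S.hf.differentiable (by simp)) x
  have h2 : HasFDerivAt (fun x => f (cst n x)) (η • (Complex.ofRealCLM.comp (fderiv ℝ g x))) x := by
    have h3 : HasFDerivAt (fun x => ((g x : ℝ) : ℂ)) (Complex.ofRealCLM.comp (fderiv ℝ g x)) x :=
      Complex.ofRealCLM.hasFDerivAt.comp x
        (S.hgd.differentiable (by simp)).differentiableAt.hasFDerivAt
    have h4 := h3.const_mul η
    refine h4.congr_of_eventuallyEq (Eventually.of_forall fun y => ?_)
    exact S.hfg y
  have h5 := h1.unique h2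
  have h6 := congrArg (fun L : (Fin n → ℝ) →L[ℝ] ℂ => L (Pi.single i 1)) h5
  simp only [ContinuousLinearMap.comp_apply, ContinuousLinearMap.coe_restrictScalars', cst_single,
    smul_apply, Complex.ofRealCLM_apply, smul_eq_mul] at h6
  exact h6

lemma Setup.Uw_hasFDerivAt (S : Setup f g C η) {s : ℝ} (w : List (Fin n))
    (hs : (w.length : ℝ) + 1 < s) (x : Fin n → ℝ) :
    ∃ L : (Fin n → ℝ) →L[ℝ] ℂ, HasFDerivAt (Uw f g C η s w) L x ∧
      ∀ i, L (Pi.single i 1) = Uw f g C η s (i :: w) x := by
  have hN := hasFDerivAt_comp_cst ((Nw_contDiff S.hf s w).differentiable (by simp)) x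
  have hF : HasFDerivAt (fun x => (Ft g C (s - w.length) x : ℂ))
      (Complex.ofRealCLM.comp (((s - w.length) * Ft g C (s - w.length - 1) x) • fderiv ℝ g x)) x :=
    Complex.ofRealCLM.hasFDerivAt.comp x
      (Ft_hasFDerivAt S.hC S.hg S.hfr (S.hgd.differentiable (by simp)) (by linarith) x)
  have hU := (hN.const_mul (η ^ w.length)).fun_mul hF
  refine ⟨_, hU, fun i => ?_⟩
  have hFm : (Ft g C (s - w.length) x : ℂ) = (g x : ℂ) * (Ft g C (s - w.length - 1) x : ℂ) := by
    have := Ft_mul S.hg (s - w.length - 1) x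
    rw [sub_add_cancel] at this
    rw [← this]; push_cast; ring
  simp only [add_apply, smul_apply, smul_eq_mul, ContinuousLinearMap.comp_apply,
    ContinuousLinearMap.coe_restrictScalars', cst_single, Complex.ofRealCLM_apply, Uw, Nw,
    List.length_cons]
  rw [S.fderiv_f x i, S.hfg x, hFm]
  have hexp : s - ((w.length + 1 : ℕ) : ℝ) = s - w.length - 1 := by push_cast; ring
  rw [hexp]
  push_cast
  have h2 : η ^ (w.length + 1) * η = η ^ w.length := by
    rw [pow_succ, mul_assoc, S.hη, mul_one]
  linear_combination (-(g x : ℂ) * fderiv ℂ (Nw f s w) (cst n x) (Pi.single i 1) *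
    (Ft g C (s - w.length - 1) x : ℂ) - (s - w.length) * (fderiv ℝ g x (Pi.single i 1) : ℝ) *
    Nw f s w (cst n x) * (Ft g C (s - w.length - 1) x : ℂ)) * h2

lemma Setup.Uw_continuous (S : Setup f g C η) {s : ℝ} (w : List (Fin n))
    (hs : (w.length : ℝ) < s) : Continuous (Uw f g C η s w) := by
  have h1 : Continuous fun x => Nw f s w (cst n x) :=
    (Nw_contDiff S.hf s w).continuous.comp (cst n).continuous
  have h2 : Continuous (Ft g C (s - w.length)) :=
    Ft_continuous S.hC S.hg S.hfr S.hgd.continuous (by linarith)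
  exact (continuous_const.mul h1).mul (Complex.continuous_ofReal.comp h2)

lemma Setup.parts (S : Setup f g C η) (w : List (Fin n)) (ψ : (Fin n → ℝ) → ℂ)
    (hψ : ContDiff ℝ ∞ ψ) (hψc : HasCompactSupport ψ) :
    ∃ ψ' : (Fin n → ℝ) → ℂ, Continuous ψ' ∧ HasCompactSupport ψ' ∧
      ∀ s : ℝ, (w.length : ℝ) + 1 < s →
        ∫ x, ψ x * Uw f g C η s w x = ∫ x, ψ' x * (Ft g C (s + 1) x : ℂ) := by
  induction w generalizing ψ with
  | nil =>
    refine ⟨fun x => ψ x * η, hψ.continuous.mul continuous_const, hψc.mul_right, fun s _ => ?_⟩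
    refine integral_congr_ae (Eventually.of_forall fun x => ?_)
    simp only [Uw, Nw, List.length_nil, pow_zero, one_mul, Nat.cast_zero, sub_zero]
    rw [S.hfg x, ← Ft_mul S.hg s x]
    push_cast
    ring
  | cons i w ih =>
    have hψ1 : ContDiff ℝ ∞ fun x => -(fderiv ℝ ψ x (Pi.single i 1)) :=
      ((hψ.fderiv_right (m := ∞) le_rfl).clm_apply contDiff_const).neg
    have hψ1c : HasCompactSupport fun x => -(fderiv ℝ ψ x (Pi.single i 1)) :=
      (hψc.fderiv_apply ℝ (Pi.single i 1)).comp_left (g := fun z : ℂ => -z) neg_zero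
    obtain ⟨ψ', h1, h2, h3⟩ := ih _ hψ1 hψ1c
    refine ⟨ψ', h1, h2, fun s hs => ?_⟩
    simp only [List.length_cons] at hs
    push_cast at hs
    rw [← h3 s (by linarith)]
    have hUd : ∀ x, fderiv ℝ (Uw f g C η s w) x (Pi.single i 1) = Uw f g C η s (i :: w) x := by
      intro x
      obtain ⟨L, hL, hL2⟩ := S.Uw_hasFDerivAt w (s := s) (by linarith) x
      rw [hL.fderiv, hL2]
    have hUdiff : Differentiable ℝ (Uw f g C η s w) := by
      intro x
      obtain ⟨L, hL, _⟩ := S.Uw_hasFDerivAt w (s := s) (by linarith) x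
      exact hL.differentiableAt
    have hUc : Continuous (Uw f g C η s w) := S.Uw_continuous w (by linarith)
    have hUc2 : Continuous (Uw f g C η s (i :: w)) := S.Uw_continuous (i :: w) (by
      simp only [List.length_cons]; push_cast; linarith)
    have hdψc : Continuous fun x => fderiv ℝ ψ x (Pi.single i 1) :=
      ((hψ.fderiv_right (m := ∞) le_rfl).clm_apply contDiff_const).continuous
    have key := integral_mul_fderiv_eq_neg_fderiv_mul_of_integrable (μ := volume)
      (f := ψ) (g := Uw f g C η s w) (v := Pi.single i 1)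
      ((hdψc.mul hUc).integrable_of_hasCompactSupport
        ((hψc.fderiv_apply ℝ (Pi.single i 1)).mul_right))
      (by
        simp_rw [hUd]
        exact (hψ.continuous.mul hUc2).integrable_of_hasCompactSupport hψc.mul_right)
      ((hψ.continuous.mul hUc).integrable_of_hasCompactSupport hψc.mul_right)
      (fun x _ => (hψ.differentiable (by simp)).differentiableAt)
      (fun x _ => hUdiff x)
    simp_rw [hUd] at key
    rw [key, ← integral_neg]
    exact integral_congr_ae (Eventually.of_forall fun x => by simp)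

end parts

end Pool.Agent.helper14.ND
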