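import Mathlib
import Pool.Agent.helper14.NDParts

/-! Analyticity in `s` of integrals of powers. -/

namespace Pool.Agent.helper14.ND

open Filter Topology MeasureTheory Set ProbabilityTheory

open scoped NNReal

variable {E : Type*} [MeasurableSpace E] {μ : Measure E}

lemma integrableOn_aux {𝕜 : Type*} [RCLike 𝕜] {g : E → ℝ} {D : Set E} (hD : MeasurableSet D)
    (hpos : ∀ x ∈ D, 0 < g x) {s : ℝ}
    (hint : IntegrableOn (fun x => g x ^ s) D μ) {h : E → 𝕜} (hh : Measurable h)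
    {K : ℝ} (hK : ∀ x, ‖h x‖ ≤ K) :
    IntegrableOn (fun x => h x * ((g x ^ s : ℝ) : 𝕜)) D μ := by
  refine Integrable.mono' (hint.const_mul K)
    (hh.aestronglyMeasurable.mul hint.ofReal.aestronglyMeasurable) ?_
  refine (ae_restrict_iff' hD).mpr (Eventually.of_forall fun x hx => ?_)
  rw [norm_mul, RCLike.norm_ofReal, abs_of_nonneg (Real.rpow_nonneg (hpos x hx).le _)]
  exact mul_le_mul_of_nonneg_right (hK x) (Real.rpow_nonneg (hpos x hx).le _)

lemma analytic_mgf_aux {g : E → ℝ} (_hg : Measurable g) {D : Set E} (hD : MeasurableSet D)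
    (hpos : ∀ x ∈ D, 0 < g x) {s₁ : ℝ}
    (hint : ∀ s > s₁, IntegrableOn (fun x => g x ^ s) D μ) {h : E → ℝ} (hh : Measurable h)
    (h0 : ∀ x, 0 ≤ h x) {K : ℝ} (hK : ∀ x, h x ≤ K) :
    AnalyticOnNhd ℝ (fun s : ℝ => ∫ x in D, h x * g x ^ s ∂μ) (Set.Ioi s₁) := by
  set X : E → ℝ := fun x => Real.log (g x) with hX
  let hn : E → ℝ≥0 := fun x => (h x).toNNReal
  have hnm : Measurable hn := hh.real_toNNReal
  set ρ : Measure E := (μ.restrict D).withDensity fun x => (hn x : ENNReal) with hρ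
  have hexp : ∀ s : ℝ, ∀ x ∈ D, Real.exp (s * X x) = g x ^ s := by
    intro s x hx
    rw [hX, Real.rpow_def_of_pos (hpos x hx), mul_comm]
  have hint2 : ∀ s > s₁, IntegrableOn (fun x => h x * g x ^ s) D μ := fun s hs =>
    integrableOn_aux hD hpos (hint s hs) hh fun x => by
      rw [Real.norm_of_nonneg (h0 x)]; exact hK x
  have hmgf : ∀ s, mgf X ρ s = ∫ x in D, h x * g x ^ s ∂μ := by
    intro s
    rw [mgf, hρ, integral_withDensity_eq_integral_smul hnm]
    refine setIntegral_congr_fun hD fun x hx => ?_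
    simp only [hn, NNReal.smul_def, smul_eq_mul, Real.coe_toNNReal _ (h0 x)]
    rw [hexp s x hx]
  have hsub : Set.Ioi s₁ ⊆ interior (integrableExpSet X ρ) := by
    refine interior_maximal (fun s hs => ?_) isOpen_Ioi
    change Integrable (fun ω => Real.exp (s * X ω)) ρ
    rw [hρ, integrable_withDensity_iff_integrable_coe_smul hnm]
    refine (hint2 s hs).congr ?_
    refine (ae_restrict_iff' hD).mpr (Eventually.of_forall fun x hx => ?_)
    simp only [hn, smul_eq_mul, Real.coe_toNNReal _ (h0 x)]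
    rw [hexp s x hx]
  have := (analyticOnNhd_mgf (X := X) (μ := ρ)).mono hsub
  exact this.congr isOpen_Ioi (fun s _ => hmgf s)

lemma analytic_integral {g : E → ℝ} (hg : Measurable g) {C B : Set E} (hC : MeasurableSet C)
    (hB : MeasurableSet B) (hpos : ∀ x ∈ C, 0 < g x) {s₁ : ℝ}
    (hint : ∀ s > s₁, IntegrableOn (fun x => g x ^ s) (C ∩ B) μ) {ψ : E → ℂ}
    (hψ : Measurable ψ) {K : ℝ} (hK : ∀ x, ‖ψ x‖ ≤ K) (hsupp : ∀ x ∉ B, ψ x = 0) :
    AnalyticOnNhd ℝ (fun s : ℝ => ∫ x, ψ x * ((C.indicator (fun x => g x ^ s) x : ℝ) : ℂ) ∂μ)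
      (Set.Ioi s₁) := by
  set D := C ∩ B with hDdef
  have hD : MeasurableSet D := hC.inter hB
  have hposD : ∀ x ∈ D, 0 < g x := fun x hx => hpos x hx.1
  have hre : Measurable fun x => (ψ x).re := Complex.measurable_re.comp hψ
  have him : Measurable fun x => (ψ x).im := Complex.measurable_im.comp hψ
  have hreK : ∀ x, |(ψ x).re| ≤ K := fun x => (Complex.abs_re_le_norm _).trans (hK x)
  have himK : ∀ x, |(ψ x).im| ≤ K := fun x => (Complex.abs_im_le_norm _).trans (hK x)
  have hK0 : ∀ _ : E, 0 ≤ K := fun x => (norm_nonneg _).trans (hK x)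
  have A0 := analytic_mgf_aux hg hD hposD hint (h := fun _ => K) measurable_const hK0 (K := K)
    (fun _ => le_rfl)
  have A1 := analytic_mgf_aux hg hD hposD hint (h := fun x => K + (ψ x).re) (hre.const_add K)
    (fun x => by linarith [(abs_le.mp (hreK x)).1]) (K := K + K)
    (fun x => by linarith [(abs_le.mp (hreK x)).2])
  have A2 := analytic_mgf_aux hg hD hposD hint (h := fun x => K + (ψ x).im) (him.const_add K)
    (fun x => by linarith [(abs_le.mp (himK x)).1]) (K := K + K)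
    (fun x => by linarith [(abs_le.mp (himK x)).2])
  have hcast : ∀ {F : ℝ → ℝ}, AnalyticOnNhd ℝ F (Set.Ioi s₁) →
      AnalyticOnNhd ℝ (fun s => ((F s : ℝ) : ℂ)) (Set.Ioi s₁) := by
    intro F hF s hs
    exact (Complex.ofRealCLM.analyticAt (F s)).comp (hF s hs)
  have key : AnalyticOnNhd ℝ (fun s : ℝ =>
      (((∫ x in D, (K + (ψ x).re) * g x ^ s ∂μ) - ∫ x in D, K * g x ^ s ∂μ : ℝ) : ℂ) +
      (((∫ x in D, (K + (ψ x).im) * g x ^ s ∂μ) - ∫ x in D, K * g x ^ s ∂μ : ℝ) : ℂ) *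
        Complex.I) (Set.Ioi s₁) :=
    (hcast (A1.sub A0)).add ((hcast (A2.sub A0)).mul analyticOnNhd_const)
  refine key.congr isOpen_Ioi fun s hs => ?_
  have hs' : s₁ < s := hs
  have e1 : (fun x => ψ x * ((C.indicator (fun x => g x ^ s) x : ℝ) : ℂ)) =
      D.indicator fun x => ψ x * ((g x ^ s : ℝ) : ℂ) := by
    ext x
    by_cases hxB : x ∈ B
    · by_cases hxC : x ∈ C
      · rw [Set.indicator_of_mem hxC, Set.indicator_of_mem (show x ∈ D from ⟨hxC, hxB⟩)]
      · rw [Set.indicator_of_notMem hxC, Set.indicator_of_notMem (fun h => hxC h.1)]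
        simp
    · rw [Set.indicator_of_notMem (show x ∉ D from fun h => hxB h.2), hsupp x hxB, zero_mul]
  have hI : IntegrableOn (fun x => ψ x * ((g x ^ s : ℝ) : ℂ)) D μ :=
    integrableOn_aux hD hposD (hint s hs') hψ hK
  have e2 : ∫ x, ψ x * ((C.indicator (fun x => g x ^ s) x : ℝ) : ℂ) ∂μ =
      ∫ x in D, ψ x * ((g x ^ s : ℝ) : ℂ) ∂μ := by
    rw [e1, integral_indicator hD]
  have i0 : IntegrableOn (fun x => K * g x ^ s) D μ := (hint s hs').const_mul K
  have i1 : IntegrableOn (fun x => (ψ x).re * g x ^ s) D μ := by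
    simpa using integrableOn_aux (𝕜 := ℝ) hD hposD (hint s hs') hre hreK
  have i2 : IntegrableOn (fun x => (ψ x).im * g x ^ s) D μ := by
    simpa using integrableOn_aux (𝕜 := ℝ) hD hposD (hint s hs') him himK
  have e3 : (∫ x in D, (K + (ψ x).re) * g x ^ s ∂μ) - ∫ x in D, K * g x ^ s ∂μ =
      ∫ x in D, (ψ x).re * g x ^ s ∂μ := by
    have : (∫ x in D, (K + (ψ x).re) * g x ^ s ∂μ) =
        ∫ x in D, (K * g x ^ s + (ψ x).re * g x ^ s) ∂μ := by
      congr 1; ext x; ring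
    rw [this, integral_add i0 i1]; ring
  have e4 : (∫ x in D, (K + (ψ x).im) * g x ^ s ∂μ) - ∫ x in D, K * g x ^ s ∂μ =
      ∫ x in D, (ψ x).im * g x ^ s ∂μ := by
    have : (∫ x in D, (K + (ψ x).im) * g x ^ s ∂μ) =
        ∫ x in D, (K * g x ^ s + (ψ x).im * g x ^ s) ∂μ := by
      congr 1; ext x; ring
    rw [this, integral_add i0 i2]; ring
  rw [e2, e3, e4, ← integral_re_add_im hI]
  simp

end Pool.Agent.helper14.ND
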