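import Mathlib
import Pool.Agent.helper14.NDChamber

/-! Integrability of products of powers of linear forms on a chamber. -/

namespace Pool.Agent.helper14.ND

open Finset Module Filter Topology MeasureTheory Set

variable {ι : Type*} [DecidableEq ι]

section algebra

variable {E : Type*} [AddCommGroup E] [Module ℝ E]

/-- common zero set of the forms in `S` -/
def ann (l : ι → Dual ℝ E) (S : Finset ι) : Submodule ℝ E := (spn l S).dualCoannihilator

omit [DecidableEq ι] in
lemma mem_ann {l : ι → Dual ℝ E} {S : Finset ι} {x : E} :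
    x ∈ ann l S ↔ ∀ i ∈ S, l i x = 0 := by
  rw [ann, Submodule.mem_dualCoannihilator]
  constructor
  · intro h i hi
    exact h _ (mem_spn hi)
  · intro h a ha
    obtain ⟨c, rfl⟩ := mem_spn_iff.mp ha
    simp only [LinearMap.sum_apply, LinearMap.smul_apply, smul_eq_mul]
    exact Finset.sum_eq_zero fun i hi => by rw [h i hi, mul_zero]

omit [DecidableEq ι] in
lemma exists_proj (l : ι → Dual ℝ E) (S : Finset ι) :
    ∃ p : E →ₗ[ℝ] E, (∀ x, p x ∈ ann l S) ∧ ∀ x ∈ ann l S, p x = x := by
  obtain ⟨f, hf⟩ := LinearMap.exists_leftInverse_of_injective (ann l S).subtype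
    (Submodule.ker_subtype _)
  refine ⟨(ann l S).subtype ∘ₗ f, fun x => (f x).2, fun x hx => ?_⟩
  have := LinearMap.congr_fun hf ⟨x, hx⟩
  simp only [LinearMap.comp_apply, Submodule.subtype_apply, LinearMap.id_apply] at this ⊢
  rw [this]

/-- the dilation by `1/2` transversal to the image of the projection `p` -/
noncomputable def dil (p : E →ₗ[ℝ] E) : E →ₗ[ℝ] E := (1 / 2 : ℝ) • (LinearMap.id + p)

lemma dil_apply (p : E →ₗ[ℝ] E) (x : E) : dil p x = (1 / 2 : ℝ) • (x + p x) := rfl

omit [DecidableEq ι] in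
lemma det_dil [FiniteDimensional ℝ E] (l : ι → Dual ℝ E) (S : Finset ι) (p : E →ₗ[ℝ] E)
    (hp : ∀ x, p x ∈ ann l S) (hp' : ∀ x ∈ ann l S, p x = x) :
    LinearMap.det (dil p) = (1 / 2) ^ finrank ℝ (spn l S) := by
  set e : E →ₗ[ℝ] E := dil p with he_def
  have heW : ∀ x ∈ ann l S, e x = x := by
    intro x hx
    rw [he_def, dil_apply, hp' x hx]
    module
  have he : ann l S ≤ (ann l S).comap e := by
    intro x hx
    rw [Submodule.mem_comap, heW x hx]; exact hx
  rw [LinearMap.det_eq_det_mul_det (ann l S) e he]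
  have h1 : e.restrict he = LinearMap.id := by
    ext x
    simp only [LinearMap.restrict_apply, LinearMap.id_apply]
    exact heW x x.2
  have h2 : (ann l S).mapQ (ann l S) e he = (1 / 2 : ℝ) • LinearMap.id := by
    ext x
    simp only [LinearMap.comp_apply, Submodule.mkQ_apply, Submodule.mapQ_apply,
      LinearMap.smul_apply, LinearMap.id_apply]
    rw [← Submodule.Quotient.mk_smul, Submodule.Quotient.eq]
    have : e x - (1 / 2 : ℝ) • x = (1 / 2 : ℝ) • p x := by
      rw [he_def, dil_apply]
      module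
    rw [this]
    exact Submodule.smul_mem _ _ (hp x)
  rw [h1, h2, LinearMap.det_id, LinearMap.det_smul, LinearMap.det_id, one_mul, mul_one]
  congr 1
  have h3 := Subspace.finrank_add_finrank_dualCoannihilator_eq (spn l S)
  have h4 := Submodule.finrank_quotient_add_finrank (ann l S)
  rw [← ann] at h3
  omega

end algebra

variable {E : Type*} [NormedAddCommGroup E] [NormedSpace ℝ E]

/-- open chamber cut out by the forms in `S` -/
def cham (l : ι → Dual ℝ E) (S : Finset ι) : Set E := {x | ∀ i ∈ S, 0 < l i x}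

/-- product of real powers of the forms -/
noncomputable def Phi (l : ι → Dual ℝ E) (a : ι → ℝ) (S : Finset ι) (x : E) : ℝ :=
  ∏ i ∈ S, (l i x) ^ (a i)

variable [FiniteDimensional ℝ E]

omit [DecidableEq ι] in
lemma cont_form (l : ι → Dual ℝ E) (i : ι) : Continuous fun x => l i x :=
  (l i).continuous_of_finiteDimensional

omit [DecidableEq ι] in
lemma isOpen_cham (l : ι → Dual ℝ E) (S : Finset ι) : IsOpen (cham l S) := by
  have : cham l S = ⋂ i ∈ S, {x | 0 < l i x} := by
    ext x; simp [cham]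
  rw [this]
  exact isOpen_biInter_finset fun i _ => isOpen_lt continuous_const (cont_form l i)

variable [MeasurableSpace E] [BorelSpace E]

omit [DecidableEq ι] in
lemma measurable_Phi (l : ι → Dual ℝ E) (a : ι → ℝ) (S : Finset ι) :
    Measurable (Phi l a S) := by
  unfold Phi
  exact Finset.measurable_fun_prod _ fun i _ => ((cont_form l i).measurable.pow_const _)

variable (μ : Measure E)

/-- the measure with density `Phi` on the chamber -/
noncomputable def nu (l : ι → Dual ℝ E) (a : ι → ℝ) (S : Finset ι) : Measure E :=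
  (μ.restrict (cham l S)).withDensity fun x => ENNReal.ofReal (Phi l a S x)

omit [DecidableEq ι] in
lemma nu_apply (l : ι → Dual ℝ E) (a : ι → ℝ) (S : Finset ι) {A : Set E}
    (hA : MeasurableSet A) :
    nu μ l a S A = ∫⁻ x, (A ∩ cham l S).indicator (fun x => ENNReal.ofReal (Phi l a S x)) x ∂μ := by
  rw [nu, withDensity_apply _ hA, Measure.restrict_restrict hA,
    lintegral_indicator (hA.inter (isOpen_cham l S).measurableSet)]

variable [μ.IsAddHaarMeasure]

omit [DecidableEq ι] in
/-- behaviour of `nu` under the transversal dilation -/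
lemma nu_scale (l : ι → Dual ℝ E) (a : ι → ℝ) (S : Finset ι) (p : E →ₗ[ℝ] E)
    (hp : ∀ x, p x ∈ ann l S) (hp' : ∀ x ∈ ann l S, p x = x) {A : Set E}
    (hA : MeasurableSet A) :
    nu μ l a S A = ENNReal.ofReal ((1 / 2) ^ ((finrank ℝ (spn l S) : ℝ) + ∑ i ∈ S, a i)) *
      nu μ l a S (dil p ⁻¹' A) := by
  set D : E →ₗ[ℝ] E := dil p with hD
  set r := finrank ℝ (spn l S) with hr
  have hdet : LinearMap.det D = (1 / 2) ^ r := det_dil l S p hp hp'
  have hdet0 : LinearMap.det D ≠ 0 := by rw [hdet]; positivity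
  have hDm : Measurable D := D.continuous_of_finiteDimensional.measurable
  have hlD : ∀ i ∈ S, ∀ x, l i (D x) = (1 / 2) * l i x := by
    intro i hi x
    rw [hD, dil_apply, map_smul, map_add, smul_eq_mul]
    rw [mem_ann.mp (hp x) i hi, add_zero]
  have hDC : ∀ x, D x ∈ cham l S ↔ x ∈ cham l S := by
    intro x
    simp only [cham, Set.mem_ofPred_eq]
    refine forall₂_congr fun i hi => ?_
    rw [hlD i hi]
    constructor <;> intro h <;> linarith
  have hPhi : ∀ x ∈ cham l S, Phi l a S (D x) = (1 / 2) ^ (∑ i ∈ S, a i) * Phi l a S x := by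
    intro x hx
    simp only [Phi]
    rw [Real.rpow_sum_of_pos (by norm_num : (0:ℝ) < 1 / 2), ← Finset.prod_mul_distrib]
    refine Finset.prod_congr rfl fun i hi => ?_
    rw [hlD i hi, Real.mul_rpow (by norm_num) (hx i hi).le]
  have hDA : MeasurableSet (D ⁻¹' A) := hDm hA
  rw [nu_apply μ l a S hA, nu_apply μ l a S hDA]
  set G : E → ENNReal := (A ∩ cham l S).indicator (fun x => ENNReal.ofReal (Phi l a S x)) with hG
  have hGm : Measurable G :=
    (measurable_Phi l a S).ennreal_ofReal.indicator (hA.inter (isOpen_cham l S).measurableSet)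
  have hGD : ∀ x, G (D x) = ENNReal.ofReal ((1 / 2) ^ (∑ i ∈ S, a i)) *
      (D ⁻¹' A ∩ cham l S).indicator (fun x => ENNReal.ofReal (Phi l a S x)) x := by
    intro x
    rw [hG]
    by_cases h : D x ∈ A ∧ x ∈ cham l S
    · have m1 : D x ∈ A ∩ cham l S := ⟨h.1, (hDC x).mpr h.2⟩
      have m2 : x ∈ D ⁻¹' A ∩ cham l S := ⟨h.1, h.2⟩
      rw [Set.indicator_of_mem m1, Set.indicator_of_mem m2, hPhi x h.2,
        ENNReal.ofReal_mul (by positivity)]
    · have m1 : D x ∉ A ∩ cham l S := fun hh => h ⟨hh.1, (hDC x).mp hh.2⟩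
      have m2 : x ∉ D ⁻¹' A ∩ cham l S := fun hh => h ⟨hh.1, hh.2⟩
      rw [Set.indicator_of_notMem m1, Set.indicator_of_notMem m2, mul_zero]
  have h1 : ∫⁻ x, G x ∂(Measure.map D μ) = ∫⁻ x, G (D x) ∂μ := lintegral_map hGm hDm
  rw [Measure.map_linearMap_addHaar_eq_smul_addHaar μ hdet0, lintegral_smul_measure] at h1
  simp_rw [hGD] at h1
  rw [lintegral_const_mul _ ((measurable_Phi l a S).ennreal_ofReal.indicator
    (hDA.inter (isOpen_cham l S).measurableSet)), hdet] at h1
  have h2 : ENNReal.ofReal ((1 / 2) ^ r) * (ENNReal.ofReal |((1 / 2 : ℝ) ^ r)⁻¹| • ∫⁻ x, G x ∂μ) =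
      ∫⁻ x, G x ∂μ := by
    rw [smul_eq_mul, ← mul_assoc, ← ENNReal.ofReal_mul (by positivity), abs_of_pos (by positivity),
      mul_inv_cancel₀ (by positivity), ENNReal.ofReal_one, one_mul]
  rw [← h2, h1, ← mul_assoc, ← ENNReal.ofReal_mul (by positivity),
    Real.rpow_add (by norm_num), Real.rpow_natCast]

omit [DecidableEq ι] [BorelSpace E] [μ.IsAddHaarMeasure] [FiniteDimensional ℝ E] in
lemma nu_empty (l : ι → Dual ℝ E) (a : ι → ℝ) : nu μ l a ∅ = μ := by
  have h1 : cham l (∅ : Finset ι) = Set.univ := by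
    ext x; simp [cham]
  have h2 : (fun x : E => ENNReal.ofReal (Phi l a ∅ x)) = 1 := by
    ext x; simp [Phi]
  rw [nu, h1, h2, Measure.restrict_univ, withDensity_one]

omit [DecidableEq ι] [μ.IsAddHaarMeasure] in
lemma nu_cham_compl (l : ι → Dual ℝ E) (a : ι → ℝ) (S : Finset ι) :
    nu μ l a S (cham l S)ᶜ = 0 := by
  rw [nu_apply μ l a S (isOpen_cham l S).measurableSet.compl]
  simp

omit [DecidableEq ι] [μ.IsAddHaarMeasure] in
/-- comparison of the measures of two sets of forms near a point -/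
lemma nu_le' (l : ι → Dual ℝ E) (a : ι → ℝ) {S Y : Finset ι} {U : Set E}
    (hU : MeasurableSet U) {M : ℝ} (hM : 0 ≤ M)
    (h : ∀ x ∈ U, x ∈ cham l S → x ∈ cham l Y ∧ Phi l a S x ≤ M * Phi l a Y x) :
    nu μ l a S U ≤ ENNReal.ofReal M * nu μ l a Y U := by
  rw [nu_apply μ l a S hU, nu_apply μ l a Y hU, ← lintegral_const_mul _
    ((measurable_Phi l a Y).ennreal_ofReal.indicator (hU.inter (isOpen_cham l Y).measurableSet))]
  refine lintegral_mono fun x => ?_
  by_cases hx : x ∈ U ∩ cham l S
  · have hx2 : x ∈ U ∩ cham l Y := ⟨hx.1, (h x hx.1 hx.2).1⟩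
    rw [Set.indicator_of_mem hx, Set.indicator_of_mem hx2, ← ENNReal.ofReal_mul hM]
    exact ENNReal.ofReal_le_ofReal (h x hx.1 hx.2).2
  · rw [Set.indicator_of_notMem hx]; exact zero_le

omit [DecidableEq ι] [μ.IsAddHaarMeasure] in
/-- comparison of the measures of two sets of forms near a point -/
lemma nu_le (l : ι → Dual ℝ E) (a : ι → ℝ) {S Y : Finset ι} (hYS : Y ⊆ S) {U : Set E}
    (hU : MeasurableSet U) {M : ℝ} (hM : 0 ≤ M)
    (h : ∀ x ∈ U, x ∈ cham l S → Phi l a S x ≤ M * Phi l a Y x) :
    nu μ l a S U ≤ ENNReal.ofReal M * nu μ l a Y U :=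
  nu_le' μ l a hU hM fun x hx hxS => ⟨fun i hi => hxS i (hYS hi), h x hx hxS⟩

/-- face of the chamber containing `q` -/
noncomputable def face (l : ι → Dual ℝ E) (S : Finset ι) (q : E) : Finset ι :=
  S.filter fun i => l i q = 0

/-- **Integrability of products of powers on a chamber.** -/
theorem nu_ball_lt_top (l : ι → Dual ℝ E) (a : ι → ℝ) (S : Finset ι)
    (hS : ∀ q : E, (∀ i ∈ S, 0 ≤ l i q) → (face l S q).Nonempty →
      0 < (finrank ℝ (spn l (face l S q)) : ℝ) + ∑ i ∈ face l S q, a i) (R : ℝ) :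
    nu μ l a S (Metric.closedBall 0 R) < ⊤ := by
  induction hk : S.card using Nat.strong_induction_on generalizing S R with
  | _ k ih =>
  rcases S.eq_empty_or_nonempty with rfl | hSne
  · rw [nu_empty]; exact measure_closedBall_lt_top
  obtain ⟨p, hp, hp'⟩ := exists_proj l S
  have hpc : Continuous p := p.continuous_of_finiteDimensional
  obtain ⟨C, hC⟩ : ∃ C, ∀ x, ‖p x‖ ≤ C * ‖x‖ := by
    refine ⟨‖p.toContinuousLinearMap‖, fun x => ?_⟩
    exact p.toContinuousLinearMap.le_opNorm x
  set R' : ℝ := (|C| + 1) * (|R| + 1) with hR'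
  have hR'pos : 0 < R' := by positivity
  let V : Set E := {x | ‖p x‖ ≤ R' ∧ ‖x - p x‖ ≤ R'}
  let A : ℕ → Set E := fun k => {x | ‖p x‖ ≤ R' ∧ R' * (1 / 2) ^ (k + 1) ≤ ‖x - p x‖ ∧
    ‖x - p x‖ ≤ R' * (1 / 2) ^ k}
  have hAclosed : ∀ k, IsClosed (A k) := by
    intro k
    refine IsClosed.and ?_ (IsClosed.and ?_ ?_)
    · exact isClosed_le hpc.norm continuous_const
    · exact isClosed_le continuous_const (continuous_id.sub hpc).norm
    · exact isClosed_le (continuous_id.sub hpc).norm continuous_const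
  -- `S` itself is a face
  have hθ : 0 < (finrank ℝ (spn l S) : ℝ) + ∑ i ∈ S, a i := by
    have hf : face l S (0 : E) = S := by
      simp [face]
    have := hS 0 (fun i _ => by simp) (by rw [hf]; exact hSne)
    rwa [hf] at this
  set θ : ENNReal := ENNReal.ofReal ((1 / 2) ^ ((finrank ℝ (spn l S) : ℝ) + ∑ i ∈ S, a i))
    with hθdef
  have hθ1 : θ < 1 := by
    rw [hθdef, ← ENNReal.ofReal_one]
    refine (ENNReal.ofReal_lt_ofReal_iff (by norm_num)).mpr ?_
    exact Real.rpow_lt_one (by norm_num) (by norm_num) hθ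
  have hpp : ∀ x, p (p x) = p x := fun x => hp' _ (hp x)
  have hpd : ∀ x, p (dil p x) = p x := by
    intro x
    rw [dil_apply, map_smul, map_add, hpp]
    module
  have hdd : ∀ x, dil p x - p (dil p x) = (1 / 2 : ℝ) • (x - p x) := by
    intro x
    rw [hpd, dil_apply]
    module
  have hpre : ∀ k, dil p ⁻¹' (A (k + 1)) = A k := by
    intro k
    ext x
    simp only [A, Set.mem_preimage, Set.mem_ofPred_eq]
    rw [hpd x, show dil p x - p x = (1 / 2 : ℝ) • (x - p x) by rw [← hdd x, hpd x], norm_smul,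
      Real.norm_of_nonneg (by norm_num : (0:ℝ) ≤ 1 / 2)]
    have e1 : R' * (1 / 2 : ℝ) ^ (k + 1 + 1) = (1 / 2) * (R' * (1 / 2) ^ (k + 1)) := by ring
    have e2 : R' * (1 / 2 : ℝ) ^ (k + 1) = (1 / 2) * (R' * (1 / 2) ^ k) := by ring
    constructor
    · rintro ⟨h1, h2, h3⟩
      exact ⟨h1, by linarith, by linarith⟩
    · rintro ⟨h1, h2, h3⟩
      exact ⟨h1, by linarith, by linarith⟩
  have hAk : ∀ k, nu μ l a S (A k) = θ ^ k * nu μ l a S (A 0) := by
    intro k
    induction k with
    | zero => simp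
    | succ k ihk =>
      rw [nu_scale μ l a S p hp hp' (hAclosed (k + 1)).measurableSet, hpre k, ihk, ← hθdef,
        pow_succ]
      ring
  -- finiteness on the shell
  have hA0 : nu μ l a S (A 0) < ⊤ := by
    have hcomp : IsCompact (A 0) := by
      refine Metric.isCompact_of_isClosed_isBounded (hAclosed 0) ?_
      refine (Metric.isBounded_iff_subset_closedBall 0).mpr ⟨R' + R', fun x hx => ?_⟩
      rw [mem_closedBall_zero_iff]
      calc ‖x‖ = ‖p x + (x - p x)‖ := by congr 1; abel
        _ ≤ ‖p x‖ + ‖x - p x‖ := norm_add_le _ _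
        _ ≤ R' + R' := by
          have h3 := hx.2.2
          rw [pow_zero, mul_one] at h3
          exact add_le_add hx.1 h3
    refine hcomp.measure_lt_top_of_nhdsWithin fun q hq => ?_
    by_cases hneg : ∃ i ∈ S, l i q < 0
    · obtain ⟨i, hi, hiq⟩ := hneg
      refine ⟨{x | l i x < 0}, mem_nhdsWithin_of_mem_nhds
        ((isOpen_lt (cont_form l i) continuous_const).mem_nhds hiq), ?_⟩
      have : {x | l i x < 0} ⊆ (cham l S)ᶜ := by
        intro x hx hx2
        have h1 := hx2 i hi
        have h2 : l i x < 0 := hx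
        linarith
      exact lt_of_le_of_lt (measure_mono this) (by rw [nu_cham_compl]; exact ENNReal.zero_lt_top)
    · push Not at hneg
      set Y := face l S q with hY
      have hYS : Y ⊆ S := Finset.filter_subset _ _
      have hYne : Y ≠ S := by
        intro hYeq
        have hqW : q ∈ ann l S := by
          rw [mem_ann]
          intro i hi
          rw [← hYeq] at hi
          exact (Finset.mem_filter.mp hi).2
        have h1 := hq.2.1
        rw [hp' q hqW, sub_self, norm_zero] at h1
        have h2 : 0 < R' * (1 / 2) ^ (0 + 1) := by positivity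
        linarith
      have hcard : Y.card < k := by
        rw [← hk]
        exact Finset.card_lt_card ((Finset.ssubset_iff_subset_ne).mpr ⟨hYS, hYne⟩)
      -- the hypothesis is inherited by the face
      have hYhyp : ∀ q' : E, (∀ i ∈ Y, 0 ≤ l i q') → (face l Y q').Nonempty →
          0 < (finrank ℝ (spn l (face l Y q')) : ℝ) + ∑ i ∈ face l Y q', a i := by
        intro q' hq' hne
        have hev : ∀ᶠ t : ℝ in 𝓝 0, ∀ i ∈ S, 0 < l i q → 0 < l i (q + t • q') := by
          rw [Filter.eventually_all_finset]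
          intro i _
          by_cases hiq : 0 < l i q
          · have h2 : Tendsto (fun t : ℝ => l i (q + t • q')) (𝓝 0) (𝓝 (l i (q + (0:ℝ) • q'))) := by
              apply Continuous.tendsto
              exact (cont_form l i).comp (by fun_prop)
            have h3 : 0 < l i (q + (0:ℝ) • q') := by simpa using hiq
            filter_upwards [h2.eventually (lt_mem_nhds h3)] with t ht _ using ht
          · exact Filter.Eventually.of_forall fun t h => absurd h hiq
        have hev2 : ∀ᶠ t : ℝ in 𝓝[>] 0, ∀ i ∈ S, 0 < l i q → 0 < l i (q + t • q') :=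
          hev.filter_mono nhdsWithin_le_nhds
        obtain ⟨t, ht, ht0⟩ := (hev2.and self_mem_nhdsWithin).exists
        have ht0' : 0 < t := ht0
        have hface : face l S (q + t • q') = face l Y q' := by
          ext i
          simp only [face, Finset.mem_filter]
          constructor
          · rintro ⟨hiS, hi0⟩
            have hiq : l i q = 0 := by
              rcases lt_or_eq_of_le (hneg i hiS) with h | h
              · have := ht i hiS h; linarith
              · exact h.symm
            refine ⟨Finset.mem_filter.mpr ⟨hiS, hiq⟩, ?_⟩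
            rw [map_add, map_smul, hiq, zero_add, smul_eq_mul] at hi0
            exact (mul_eq_zero.mp hi0).resolve_left (ne_of_gt ht0')
          · rintro ⟨hiY, hi0⟩
            have := Finset.mem_filter.mp hiY
            refine ⟨this.1, ?_⟩
            rw [map_add, map_smul, this.2, hi0, smul_zero, add_zero]
        rw [← hface]
        refine hS _ ?_ (by rw [hface]; exact hne)
        intro i hi
        rcases lt_or_eq_of_le (hneg i hi) with h | h
        · exact (ht i hi h).le
        · have hiY : i ∈ Y := Finset.mem_filter.mpr ⟨hi, h.symm⟩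
          rw [map_add, map_smul, ← h, zero_add, smul_eq_mul]
          exact mul_nonneg ht0'.le (hq' i hiY)
      have hfin := ih Y.card hcard Y hYhyp (‖q‖ + 1) rfl
      -- comparison near `q`
      let h : E → ℝ := Phi l a (S \ Y)
      have hpos : ∀ i ∈ S \ Y, 0 < l i q := by
        intro i hi
        obtain ⟨hiS, hiY⟩ := Finset.mem_sdiff.mp hi
        refine lt_of_le_of_ne (hneg i hiS) fun h0 => hiY (Finset.mem_filter.mpr ⟨hiS, h0.symm⟩)
      have hcont : ContinuousAt h q := by
        refine tendsto_finsetProd _ fun i hi => ?_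
        exact ((cont_form l i).continuousAt).rpow_const (Or.inl (ne_of_gt (hpos i hi)))
      have hev : ∀ᶠ x in 𝓝 q, h x < h q + 1 ∧ x ∈ Metric.closedBall (0 : E) (‖q‖ + 1) := by
        refine (hcont.eventually (gt_mem_nhds (lt_add_one _))).and ?_
        refine Metric.closedBall_mem_nhds_of_mem ?_
        rw [mem_ball_zero_iff]; linarith
      obtain ⟨U, hU, hUo, hqU⟩ := _root_.mem_nhds_iff.mp hev
      refine ⟨U, mem_nhdsWithin_of_mem_nhds (hUo.mem_nhds hqU), ?_⟩
      have hM : 0 ≤ h q + 1 := by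
        have : 0 ≤ h q := Finset.prod_nonneg fun i hi => Real.rpow_nonneg (hpos i hi).le _
        linarith
      refine lt_of_le_of_lt (nu_le μ l a hYS hUo.measurableSet hM ?_) ?_
      · intro x hxU hxC
        have e1 : Phi l a S x = h x * Phi l a Y x := by
          simp only [Phi, h]
          exact (Finset.prod_sdiff hYS).symm
        rw [e1]
        refine mul_le_mul_of_nonneg_right (hU hxU).1.le ?_
        exact Finset.prod_nonneg fun i hi => Real.rpow_nonneg (hxC i (hYS hi)).le _
      · refine ENNReal.mul_lt_top ENNReal.ofReal_lt_top ?_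
        refine lt_of_le_of_lt (measure_mono fun x hx => ?_) hfin
        exact (hU hx).2
  -- covering by the shells
  have hVcov : Metric.closedBall (0 : E) R ⊆ (cham l S)ᶜ ∪ ⋃ k, A k := by
    intro x hx
    rw [mem_closedBall_zero_iff] at hx
    by_cases hxC : x ∈ cham l S
    · right
      have hx1 : ‖p x‖ ≤ R' := by
        refine (hC x).trans ?_
        have h1 : C * ‖x‖ ≤ |C| * |R| :=
          mul_le_mul (le_abs_self C) (hx.trans (le_abs_self R)) (norm_nonneg _) (abs_nonneg _)
        have h2 : 0 ≤ |C| := abs_nonneg _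
        have h3 : 0 ≤ |R| := abs_nonneg _
        rw [hR']
        nlinarith
      have hx2 : ‖x - p x‖ ≤ R' := by
        refine (norm_sub_le _ _).trans ?_
        have h1 : C * ‖x‖ ≤ |C| * |R| :=
          mul_le_mul (le_abs_self C) (hx.trans (le_abs_self R)) (norm_nonneg _) (abs_nonneg _)
        have h2 : 0 ≤ |C| := abs_nonneg _
        have h3 : 0 ≤ |R| := abs_nonneg _
        have h4 := hx.trans (le_abs_self R)
        have h5 := hC x
        rw [hR']
        nlinarith
      have hx0 : 0 < ‖x - p x‖ := by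
        rw [norm_pos_iff, sub_ne_zero]
        intro hxp
        obtain ⟨i, hi⟩ := hSne
        have h1 := hxC i hi
        have h2 := mem_ann.mp (hp x) i hi
        rw [← hxp] at h2
        linarith
      obtain ⟨n, hn1, hn2⟩ := exists_nat_pow_near_of_lt_one (div_pos hx0 hR'pos)
        ((div_le_one hR'pos).mpr hx2) (by norm_num : (0:ℝ) < 1 / 2) (by norm_num)
      refine Set.mem_iUnion.mpr ⟨n, hx1, ?_, ?_⟩
      · rw [lt_div_iff₀ hR'pos] at hn1; linarith
      · rw [div_le_iff₀ hR'pos] at hn2; linarith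
    · left; exact hxC
  calc nu μ l a S (Metric.closedBall 0 R) ≤ nu μ l a S ((cham l S)ᶜ ∪ ⋃ k, A k) :=
        measure_mono hVcov
    _ ≤ nu μ l a S (cham l S)ᶜ + nu μ l a S (⋃ k, A k) := measure_union_le _ _
    _ ≤ 0 + ∑' k, nu μ l a S (A k) := by
        rw [nu_cham_compl]
        exact add_le_add le_rfl (measure_iUnion_le _)
    _ = (∑' k, θ ^ k) * nu μ l a S (A 0) := by
        rw [zero_add, ← ENNReal.tsum_mul_right]
        exact tsum_congr hAk
    _ < ⊤ := by
        refine ENNReal.mul_lt_top ?_ hA0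
        rw [ENNReal.tsum_geometric]
        exact ENNReal.inv_lt_top.mpr (tsub_pos_of_lt hθ1)

omit [DecidableEq ι] in
/-- translation by a common zero of the forms -/
lemma nu_translate (l : ι → Dual ℝ E) (a : ι → ℝ) (S : Finset ι) {c : E} (hc : c ∈ ann l S)
    (ε : ℝ) :
    nu μ l a S (Metric.closedBall c ε) = nu μ l a S (Metric.closedBall 0 ε) := by
  rw [nu_apply μ l a S measurableSet_closedBall, nu_apply μ l a S measurableSet_closedBall,
    ← lintegral_add_left_eq_self _ c]
  refine lintegral_congr fun x => ?_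
  have hl : ∀ i ∈ S, l i (c + x) = l i x := by
    intro i hi
    rw [map_add, mem_ann.mp hc i hi, zero_add]
  have hch : c + x ∈ cham l S ↔ x ∈ cham l S := by
    simp only [cham, Set.mem_ofPred_eq]
    exact forall₂_congr fun i hi => by rw [hl i hi]
  have hb : c + x ∈ Metric.closedBall c ε ↔ x ∈ Metric.closedBall 0 ε := by
    rw [Metric.mem_closedBall, Metric.mem_closedBall, dist_eq_norm, dist_eq_norm,
      add_sub_cancel_left, sub_zero]
  have hP : Phi l a S (c + x) = Phi l a S x := by
    simp only [Phi]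
    exact Finset.prod_congr rfl fun i hi => by rw [hl i hi]
  by_cases h : x ∈ Metric.closedBall 0 ε ∩ cham l S
  · rw [Set.indicator_of_mem h, Set.indicator_of_mem
      (show c + x ∈ Metric.closedBall c ε ∩ cham l S from ⟨hb.mpr h.1, hch.mpr h.2⟩), hP]
  · rw [Set.indicator_of_notMem h, Set.indicator_of_notMem
      (show c + x ∉ Metric.closedBall c ε ∩ cham l S from
        fun hh => h ⟨hb.mp hh.1, hch.mp hh.2⟩)]

omit [DecidableEq ι] in
/-- **Divergence at the critical exponent.** -/
theorem nu_ball_eq_top (l : ι → Dual ℝ E) (a : ι → ℝ) (S : Finset ι) (hS : S.Nonempty) {x₀ : E}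
    (hx₀ : x₀ ∈ cham l S) (hcrit : (finrank ℝ (spn l S) : ℝ) + ∑ i ∈ S, a i = 0) {c : E}
    (hc : c ∈ ann l S) {ε : ℝ} (hε : 0 < ε) :
    nu μ l a S (Metric.closedBall c ε) = ⊤ := by
  rw [nu_translate μ l a S hc]
  by_contra hcon
  obtain ⟨p, hp, hp'⟩ := exists_proj l S
  have hpc : Continuous p := p.continuous_of_finiteDimensional
  have hpp : ∀ x, p (p x) = p x := fun x => hp' _ (hp x)
  have hpd : ∀ x, p (dil p x) = p x := by
    intro x
    rw [dil_apply, map_smul, map_add, hpp]
    module
  set δ : ℝ := ε / 2 with hδ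
  have hδpos : 0 < δ := by positivity
  let V : Set E := {x | ‖p x‖ ≤ δ ∧ ‖x - p x‖ ≤ δ}
  have hVclosed : IsClosed V := IsClosed.and (isClosed_le hpc.norm continuous_const)
    (isClosed_le (continuous_id.sub hpc).norm continuous_const)
  have hVball : V ⊆ Metric.closedBall 0 ε := by
    intro x hx
    rw [mem_closedBall_zero_iff]
    calc ‖x‖ = ‖p x + (x - p x)‖ := by congr 1; abel
      _ ≤ ‖p x‖ + ‖x - p x‖ := norm_add_le _ _
      _ ≤ δ + δ := add_le_add hx.1 hx.2
      _ = ε := by rw [hδ]; ring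
  have hVfin : nu μ l a S V ≠ ⊤ := fun h => hcon (top_le_iff.mp (h ▸ measure_mono hVball))
  have hscale : nu μ l a S V = nu μ l a S (dil p ⁻¹' V) := by
    have := nu_scale μ l a S p hp hp' hVclosed.measurableSet
    rwa [hcrit, Real.rpow_zero, ENNReal.ofReal_one, one_mul] at this
  have hdpre : ∀ x, x ∈ dil p ⁻¹' V ↔ ‖p x‖ ≤ δ ∧ ‖x - p x‖ ≤ 2 * δ := by
    intro x
    simp only [V, Set.mem_preimage, Set.mem_ofPred_eq, hpd x]
    rw [show dil p x - p x = (1 / 2 : ℝ) • (x - p x) by rw [dil_apply]; module, norm_smul,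
      Real.norm_of_nonneg (by norm_num : (0:ℝ) ≤ 1 / 2)]
    constructor
    · rintro ⟨h1, h2⟩; exact ⟨h1, by linarith⟩
    · rintro ⟨h1, h2⟩; exact ⟨h1, by linarith⟩
  have hsub : V ⊆ dil p ⁻¹' V := by
    intro x hx
    rw [hdpre]
    exact ⟨hx.1, by linarith [hx.2]⟩
  have hdiff : nu μ l a S (dil p ⁻¹' V \ V) = 0 := by
    rw [measure_sdiff hsub hVclosed.measurableSet.nullMeasurableSet hVfin, ← hscale, tsub_self]
  -- a nonempty open set in the difference
  let O : Set E := {x | ‖p x‖ < δ ∧ δ < ‖x - p x‖ ∧ ‖x - p x‖ < 2 * δ} ∩ cham l S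
  have hOopen : IsOpen O := by
    refine IsOpen.inter ?_ (isOpen_cham l S)
    refine IsOpen.and (isOpen_lt hpc.norm continuous_const) (IsOpen.and ?_ ?_)
    · exact isOpen_lt continuous_const (continuous_id.sub hpc).norm
    · exact isOpen_lt (continuous_id.sub hpc).norm continuous_const
  have hOsub : O ⊆ dil p ⁻¹' V \ V := by
    intro x hx
    refine ⟨(hdpre x).mpr ⟨hx.1.1.le, hx.1.2.2.le⟩, fun hxV => ?_⟩
    have h1 := hx.1.2.1
    have h2 := hxV.2
    linarith
  have hx₀0 : 0 < ‖x₀ - p x₀‖ := by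
    rw [norm_pos_iff, sub_ne_zero]
    intro hxp
    obtain ⟨i, hi⟩ := hS
    have h1 := hx₀ i hi
    have h2 := mem_ann.mp (hp x₀) i hi
    rw [← hxp] at h2
    linarith
  have hOne : O.Nonempty := by
    set t : ℝ := (3 / 2 * δ) / ‖x₀ - p x₀‖ with ht
    have htpos : 0 < t := by positivity
    refine ⟨t • (x₀ - p x₀), ?_, ?_⟩
    · have h0 : p (t • (x₀ - p x₀)) = 0 := by
        rw [map_smul, map_sub, hpp, sub_self, smul_zero]
      have h1 : ‖t • (x₀ - p x₀)‖ = 3 / 2 * δ := by
        rw [norm_smul, Real.norm_of_nonneg htpos.le, ht, div_mul_cancel₀ _ hx₀0.ne']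
      refine ⟨?_, ?_, ?_⟩
      · rw [h0, norm_zero]; exact hδpos
      · rw [h0, sub_zero, h1]; linarith
      · rw [h0, sub_zero, h1]; linarith
    · intro i hi
      rw [map_smul, map_sub, mem_ann.mp (hp x₀) i hi, sub_zero, smul_eq_mul]
      exact mul_pos htpos (hx₀ i hi)
  have hO0 : nu μ l a S O = 0 := measure_mono_null hOsub hdiff
  rw [nu_apply μ l a S hOopen.measurableSet, lintegral_eq_zero_iff
    ((measurable_Phi l a S).ennreal_ofReal.indicator
      (hOopen.measurableSet.inter (isOpen_cham l S).measurableSet))] at hO0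
  have hμO : μ O = 0 := by
    refine measure_mono_null (fun x hx => ?_) hO0
    have hx2 : x ∈ O ∩ cham l S := ⟨hx, hx.2⟩
    simp only [Set.mem_compl_iff, Set.mem_ofPred_eq, Pi.zero_apply]
    rw [Set.indicator_of_mem hx2, ENNReal.ofReal_eq_zero, not_le]
    exact Finset.prod_pos fun i hi => Real.rpow_pos_of_pos (hx.2 i hi) _
  exact (hOopen.measure_pos μ hOne).ne' hμO

end Pool.Agent.helper14.ND
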