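import Mathlib
import Pool.Agent.helper14.NDIntegrable
import Pool.Agent.helper14.NDCont

/-! The core argument: a chamber all of whose faces are good forces a root. -/

namespace Pool.Agent.helper14.ND

open Finset Module Filter Topology MeasureTheory Set

open scoped ContDiff

variable {n : ℕ} {ι : Type*} [DecidableEq ι] [Fintype ι]

/-- smoothness of a holomorphic coefficient times a bump function -/
lemma contDiff_coeff {a : (Fin n → ℂ) → ℂ} {p : Fin n → ℝ} (φ : ContDiffBump p)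
    (ha : ∀ x ∈ Metric.closedBall p φ.rOut, AnalyticAt ℂ a (cst n x)) :
    ContDiff ℝ ∞ fun x : Fin n → ℝ => a (cst n x) * ((φ x : ℝ) : ℂ) := by
  rw [contDiff_iff_contDiffAt]
  intro x
  by_cases hx : x ∈ Metric.closedBall p φ.rOut
  · have h1 : ContDiffAt ℝ ∞ a (cst n x) := ((ha x hx).contDiffAt (n := ∞)).restrict_scalars ℝ
    have h2 : ContDiffAt ℝ ∞ (fun x => a (cst n x)) x := h1.comp x (cst n).contDiff.contDiffAt
    have h3 : ContDiffAt ℝ ∞ (fun x => ((φ x : ℝ) : ℂ)) x :=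
      Complex.ofRealCLM.contDiff.contDiffAt.comp x φ.contDiff.contDiffAt
    exact h2.mul h3
  · have : (fun x : Fin n → ℝ => a (cst n x) * ((φ x : ℝ) : ℂ)) =ᶠ[𝓝 x] fun _ => 0 := by
      filter_upwards [(Metric.isClosed_closedBall.isOpen_compl).mem_nhds hx] with y hy
      rw [φ.zero_of_le_dist (le_of_lt (by simpa using hy))]
      simp
    exact contDiffAt_const.congr_of_eventuallyEq this

/-- uniform bound of the right-hand sides -/
lemma bound_rhs {g : (Fin n → ℝ) → ℝ} (hgc : Continuous g) {C : Set (Fin n → ℝ)}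
    (hg : ∀ x ∈ C, 0 < g x) {ψ : (Fin n → ℝ) → ℂ} (hψ : Continuous ψ)
    (hψc : HasCompactSupport ψ) :
    ∃ K : ℝ, ∀ t : ℝ, 0 < t → t < 2 → ‖∫ x, ψ x * (Ft g C t x : ℂ)‖ ≤ K := by
  refine ⟨∫ x, ‖ψ x‖ * (1 + |g x|) ^ 2, fun t ht ht2 => ?_⟩
  refine norm_integral_le_of_norm_le ?_ (Eventually.of_forall fun x => ?_)
  · refine Continuous.integrable_of_hasCompactSupport ?_ (hψc.norm.mul_right)
    exact hψ.norm.mul ((continuous_const.add (continuous_abs.comp hgc)).pow 2)
  · rw [norm_mul, Complex.norm_real]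
    refine mul_le_mul_of_nonneg_left ?_ (norm_nonneg _)
    refine (Ft_abs_le hg t x).trans ?_
    have h0 : (0:ℝ) ≤ |g x| := abs_nonneg _
    calc |g x| ^ t ≤ (1 + |g x|) ^ t :=
          Real.rpow_le_rpow h0 (by linarith) ht.le
      _ ≤ (1 + |g x|) ^ (2:ℝ) := Real.rpow_le_rpow_of_exponent_le (by linarith) ht2.le
      _ = (1 + |g x|) ^ 2 := by norm_cast

/-- the functional equation, integrated, for large `s` -/
lemma func_eq {f : (Fin n → ℂ) → ℂ} {g : (Fin n → ℝ) → ℝ} {C : Set (Fin n → ℝ)} {η : ℂ}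
    (S : Setup f g C η) {b : Polynomial ℂ} {T : Finset (List (Fin n) × ℕ)}
    {a : List (Fin n) × ℕ → (Fin n → ℂ) → ℂ} {p : Fin n → ℝ} (φ : ContDiffBump p)
    (ha : ∀ t ∈ T, ∀ x ∈ Metric.closedBall p φ.rOut, AnalyticAt ℂ (a t) (cst n x))
    (hrel : ∀ x ∈ Metric.closedBall p φ.rOut, f (cst n x) ≠ 0 → ∀ s : ℂ,
      ∑ t ∈ T, a t (cst n x) * s ^ t.2 * (t.1.foldr (nabla f s) f) (cst n x) = b.eval s) :
    ∃ (ψ : List (Fin n) × ℕ → (Fin n → ℝ) → ℂ) (K : ℝ),
      (∀ t ∈ T, Continuous (ψ t) ∧ HasCompactSupport (ψ t)) ∧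
      ∀ s : ℝ, K < s → b.eval (s : ℂ) * ∫ x, ((φ x : ℝ) : ℂ) * (Ft g C s x : ℂ) =
        ∑ t ∈ T, (s : ℂ) ^ t.2 * ∫ x, ψ t x * (Ft g C (s + 1) x : ℂ) := by
  have hψ0 : ∀ t : List (Fin n) × ℕ, ∃ ψ' : (Fin n → ℝ) → ℂ, t ∈ T →
      (Continuous ψ' ∧ HasCompactSupport ψ' ∧ ∀ s : ℝ, (t.1.length : ℝ) + 1 < s →
        ∫ x, (a t (cst n x) * ((φ x : ℝ) : ℂ)) * Uw f g C η s t.1 x =
          ∫ x, ψ' x * (Ft g C (s + 1) x : ℂ)) := by
    intro t
    by_cases ht : t ∈ T
    · have hsupp : HasCompactSupport fun x => a t (cst n x) * ((φ x : ℝ) : ℂ) := by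
        have : HasCompactSupport fun x => ((φ x : ℝ) : ℂ) :=
          φ.hasCompactSupport.comp_left (g := fun r : ℝ => (r : ℂ)) Complex.ofReal_zero
        exact this.mul_left
      obtain ⟨ψ', h1, h2, h3⟩ := S.parts t.1 _ (contDiff_coeff φ (ha t ht)) hsupp
      exact ⟨ψ', fun _ => ⟨h1, h2, h3⟩⟩
    · exact ⟨0, fun h => absurd h ht⟩
  choose ψ hψ using hψ0
  refine ⟨ψ, ∑ t ∈ T, ((t.1.length : ℝ) + 1), fun t ht => ⟨(hψ t ht).1, (hψ t ht).2.1⟩, ?_⟩
  intro s hs
  have hsT : ∀ t ∈ T, (t.1.length : ℝ) + 1 < s := by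
    intro t ht
    refine lt_of_le_of_lt ?_ hs
    exact Finset.single_le_sum (f := fun t : List (Fin n) × ℕ => (t.1.length : ℝ) + 1)
      (fun i _ => by positivity) ht
  have e1 : ∀ t ∈ T, (s : ℂ) ^ t.2 * ∫ x, ψ t x * (Ft g C (s + 1) x : ℂ) =
      ∫ x, (s : ℂ) ^ t.2 * ((a t (cst n x) * ((φ x : ℝ) : ℂ)) * Uw f g C η s t.1 x) := by
    intro t ht
    rw [integral_const_mul, (hψ t ht).2.2 s (hsT t ht)]
  rw [Finset.sum_congr rfl e1, ← integral_finsetSum, ← integral_const_mul]
  · refine integral_congr_ae (Eventually.of_forall fun x => ?_)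
    simp only
    by_cases hxC : x ∈ C
    · by_cases hxB : x ∈ Metric.closedBall p φ.rOut
      · have hgx := S.hg x hxC
        have hη0 : η ≠ 0 := by
          intro h0
          have := S.hη
          rw [h0, mul_zero] at this
          exact zero_ne_one this
        have hfx : f (cst n x) ≠ 0 := by
          rw [S.hfg x]
          exact mul_ne_zero hη0 (by exact_mod_cast hgx.ne')
        rw [← hrel x hxB hfx s, Finset.sum_mul]
        refine Finset.sum_congr rfl fun t _ => ?_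
        rw [foldr_nabla_eq S.hf _ _ _ hfx, Uw, S.hfg x]
        have hF : (Ft g C s x : ℂ) = (g x : ℂ) ^ t.1.length * (Ft g C (s - t.1.length) x : ℂ) := by
          rw [Ft, Ft, Set.indicator_of_mem hxC, Set.indicator_of_mem hxC]
          norm_cast
          rw [← Real.rpow_natCast, ← Real.rpow_add hgx]
          congr 1; ring
        have hηk : η ^ t.1.length * η ^ t.1.length = 1 := by
          rw [← mul_pow, S.hη, one_pow]
        have hg0 : (g x : ℂ) ≠ 0 := by exact_mod_cast hgx.ne'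
        rw [hF, mul_pow]
        have hdiv : Nw f (s : ℂ) t.1 (cst n x) / (η ^ t.1.length * (g x : ℂ) ^ t.1.length) =
            η ^ t.1.length * Nw f (s : ℂ) t.1 (cst n x) / (g x : ℂ) ^ t.1.length := by
          rw [div_eq_div_iff (mul_ne_zero (pow_ne_zero _ hη0) (pow_ne_zero _ hg0))
            (pow_ne_zero _ hg0)]
          linear_combination (-(Nw f (s : ℂ) t.1 (cst n x)) * (g x : ℂ) ^ t.1.length) * hηk
        rw [hdiv]
        field_simp
      · rw [φ.zero_of_le_dist (le_of_lt (by simpa using hxB))]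
        simp
    · have h1 : ∀ t, Ft g C t x = 0 := fun t => by rw [Ft, Set.indicator_of_notMem hxC]
      simp [Uw, h1]
  · intro t ht
    refine Integrable.const_mul ?_ _
    refine Continuous.integrable_of_hasCompactSupport
      ((contDiff_coeff φ (ha t ht)).continuous.mul
        (S.Uw_continuous t.1 (by linarith [hsT t ht]))) ?_
    have : HasCompactSupport fun x => ((φ x : ℝ) : ℂ) :=
      φ.hasCompactSupport.comp_left (g := fun r : ℝ => (r : ℂ)) Complex.ofReal_zero
    exact (this.mul_left).mul_right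

lemma Setup.integrableOn_pos {f : (Fin n → ℂ) → ℂ} {g : (Fin n → ℝ) → ℝ} {C : Set (Fin n → ℝ)}
    {η : ℂ} (S : Setup f g C η) {B : Set (Fin n → ℝ)} (hB : IsCompact B) {t : ℝ} (ht : 0 < t) :
    IntegrableOn (fun x => g x ^ t) (C ∩ B) := by
  have h1 : Continuous (Ft g C t) := Ft_continuous S.hC S.hg S.hfr S.hgd.continuous ht
  have h2 : IntegrableOn (Ft g C t) (C ∩ B) :=
    (h1.continuousOn.integrableOn_compact hB).mono_set inter_subset_right
  refine h2.congr_fun (fun x hx => ?_) (S.hC.measurableSet.inter hB.measurableSet)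
  rw [Ft, Set.indicator_of_mem hx.1]

/-- if `b (s₀) ≠ 0` then the local integrals stay bounded at `s₀` -/
lemma bounded_near {f : (Fin n → ℂ) → ℂ} {g : (Fin n → ℝ) → ℝ} {C : Set (Fin n → ℝ)} {η : ℂ}
    (S : Setup f g C η) {b : Polynomial ℂ} {T : Finset (List (Fin n) × ℕ)}
    {a : List (Fin n) × ℕ → (Fin n → ℂ) → ℂ} {p : Fin n → ℝ} (φ : ContDiffBump p)
    (ha : ∀ t ∈ T, ∀ x ∈ Metric.closedBall p φ.rOut, AnalyticAt ℂ (a t) (cst n x))
    (hrel : ∀ x ∈ Metric.closedBall p φ.rOut, f (cst n x) ≠ 0 → ∀ s : ℂ,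
      ∑ t ∈ T, a t (cst n x) * s ^ t.2 * (t.1.foldr (nabla f s) f) (cst n x) = b.eval s)
    {s₀ : ℝ} (hs₀ : -1 ≤ s₀) (hs₀' : s₀ < 1)
    (hint : ∀ s > s₀, IntegrableOn (fun x => g x ^ s) (C ∩ Metric.closedBall p φ.rOut))
    (hb : b.eval (s₀ : ℂ) ≠ 0) :
    ∃ K : ℝ, ∀ᶠ s in 𝓝[>] s₀, ∫ x, φ x * Ft g C s x ≤ K := by
  obtain ⟨ψ, K₀, hψ, hfun⟩ := func_eq S φ ha hrel
  have hgm : Measurable g := S.hgd.continuous.measurable
  -- analyticity of the two sides
  have hL : AnalyticOnNhd ℝ (fun s : ℝ => b.eval (s : ℂ) *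
      ∫ x, ((φ x : ℝ) : ℂ) * (Ft g C s x : ℂ)) (Set.Ioi s₀) := by
    refine AnalyticOnNhd.mul ?_ ?_
    · have h1 : AnalyticOnNhd ℝ (fun s : ℝ => (s : ℂ)) (Set.Ioi s₀) := fun s _ =>
        Complex.ofRealCLM.analyticAt s
      have h2 := h1.aeval_polynomial b
      simpa [Polynomial.aeval_def, Polynomial.eval₂_eq_eval_map] using h2
    · refine analytic_integral hgm S.hC.measurableSet
        (Metric.isClosed_closedBall (x := p) (ε := φ.rOut)).measurableSet S.hg hint
        (ψ := fun x => ((φ x : ℝ) : ℂ)) ?_ (K := 1) ?_ ?_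
      · exact Complex.measurable_ofReal.comp φ.continuous.measurable
      · intro x
        rw [Complex.norm_real, Real.norm_of_nonneg φ.nonneg]
        exact φ.le_one
      · intro x hx
        rw [φ.zero_of_le_dist (le_of_lt (by simpa using hx))]
        simp
  have hR : AnalyticOnNhd ℝ (fun s : ℝ =>
      ∑ t ∈ T, (s : ℂ) ^ t.2 * ∫ x, ψ t x * (Ft g C (s + 1) x : ℂ)) (Set.Ioi s₀) := by
    have hterm : ∀ t ∈ T, AnalyticOnNhd ℝ (fun s : ℝ =>
        (s : ℂ) ^ t.2 * ∫ x, ψ t x * (Ft g C (s + 1) x : ℂ)) (Set.Ioi s₀) := by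
      intro t ht
      have h1 : AnalyticOnNhd ℝ (fun s : ℝ => (s : ℂ)) (Set.Ioi s₀) := fun s _ =>
        Complex.ofRealCLM.analyticAt s
      refine (h1.pow t.2).mul ?_
      obtain ⟨K, hK⟩ := (hψ t ht).1.bounded_above_of_compact_support (hψ t ht).2
      have h2 : AnalyticOnNhd ℝ (fun s : ℝ => ∫ x, ψ t x * (Ft g C s x : ℂ)) (Set.Ioi 0) := by
        refine analytic_integral hgm S.hC.measurableSet
          (isClosed_tsupport (ψ t)).measurableSet S.hg ?_ (hψ t ht).1.measurable hK ?_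
        · intro s hs
          exact S.integrableOn_pos (hψ t ht).2 hs
        · intro x hx
          exact image_eq_zero_of_notMem_tsupport hx
      intro s hs
      have hs' : s₀ < s := hs
      have h3 : AnalyticAt ℝ (fun s : ℝ => s + 1) s := analyticAt_id.add analyticAt_const
      exact AnalyticAt.fun_comp (f := fun s : ℝ => s + 1) (h2 (s + 1) (by
        show (0:ℝ) < s + 1
        linarith)) h3
    exact Finset.analyticOnNhd_fun_sum T hterm
  -- identity theorem
  have hEq : Set.EqOn (fun s : ℝ => b.eval (s : ℂ) *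
      ∫ x, ((φ x : ℝ) : ℂ) * (Ft g C s x : ℂ)) (fun s : ℝ =>
      ∑ t ∈ T, (s : ℂ) ^ t.2 * ∫ x, ψ t x * (Ft g C (s + 1) x : ℂ)) (Set.Ioi s₀) := by
    set s₂ : ℝ := max s₀ K₀ + 1 with hs₂
    have h1 : s₂ ∈ Set.Ioi s₀ := by
      have := le_max_left s₀ K₀
      show s₀ < s₂
      linarith
    refine hL.eqOn_of_preconnected_of_eventuallyEq hR isPreconnected_Ioi h1 ?_
    have h2 : K₀ < s₂ := by
      have := le_max_right s₀ K₀
      linarith
    filter_upwards [lt_mem_nhds h2] with s hs using hfun s hs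
  -- bound
  have hbd : ∀ t : List (Fin n) × ℕ, ∃ K : ℝ, t ∈ T → ∀ r : ℝ, 0 < r → r < 2 →
      ‖∫ x, ψ t x * (Ft g C r x : ℂ)‖ ≤ K := by
    intro t
    by_cases ht : t ∈ T
    · obtain ⟨K, hK⟩ := bound_rhs S.hgd.continuous S.hg (hψ t ht).1 (hψ t ht).2
      exact ⟨K, fun _ => hK⟩
    · exact ⟨0, fun h => absurd h ht⟩
  choose K hK using hbd
  set M : ℝ := ∑ t ∈ T, (|s₀| + 1) ^ t.2 * K t with hM
  have hbcont : Tendsto (fun s : ℝ => ‖b.eval (s : ℂ)‖) (𝓝 s₀) (𝓝 ‖b.eval (s₀ : ℂ)‖) := by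
    apply Continuous.tendsto
    exact (b.continuous.comp Complex.continuous_ofReal).norm
  have hb2 : ‖b.eval (s₀ : ℂ)‖ / 2 < ‖b.eval (s₀ : ℂ)‖ := by
    have : 0 < ‖b.eval (s₀ : ℂ)‖ := norm_pos_iff.mpr hb
    linarith
  refine ⟨M / (‖b.eval (s₀ : ℂ)‖ / 2), ?_⟩
  have e1 : ∀ᶠ s : ℝ in 𝓝[>] s₀, ‖b.eval (s₀ : ℂ)‖ / 2 < ‖b.eval (s : ℂ)‖ :=
    (hbcont.eventually (lt_mem_nhds hb2)).filter_mono nhdsWithin_le_nhds
  have e2 : ∀ᶠ s : ℝ in 𝓝[>] s₀, s < 1 := (gt_mem_nhds hs₀').filter_mono nhdsWithin_le_nhds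
  have e3 : ∀ᶠ s : ℝ in 𝓝[>] s₀, s < s₀ + 1 :=
    (gt_mem_nhds (lt_add_one s₀)).filter_mono nhdsWithin_le_nhds
  filter_upwards [e1, e2, e3, self_mem_nhdsWithin] with s h1 h2 h3 h4
  have h4' : s₀ < s := h4
  have hbpos : 0 < ‖b.eval (s₀ : ℂ)‖ / 2 := by
    have : 0 < ‖b.eval (s₀ : ℂ)‖ := norm_pos_iff.mpr hb
    linarith
  have hcast : (∫ x, ((φ x : ℝ) : ℂ) * (Ft g C s x : ℂ)) = ((∫ x, φ x * Ft g C s x : ℝ) : ℂ) := by
    rw [← integral_complex_ofReal]
    exact integral_congr_ae (Eventually.of_forall fun x => by push_cast; ring)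
  have hI := hEq h4
  simp only [hcast] at hI
  have hnorm : ‖b.eval (s : ℂ)‖ * |∫ x, φ x * Ft g C s x| ≤ M := by
    have e4 : ‖b.eval (s : ℂ) * ((∫ x, φ x * Ft g C s x : ℝ) : ℂ)‖ =
        ‖b.eval (s : ℂ)‖ * |∫ x, φ x * Ft g C s x| := by
      rw [norm_mul, Complex.norm_real, Real.norm_eq_abs]
    rw [← e4, hI, hM]
    refine norm_sum_le_of_le _ fun t ht => ?_
    rw [norm_mul, norm_pow, Complex.norm_real, Real.norm_eq_abs]
    have habs : |s| ≤ |s₀| + 1 := by
      have : |s| ≤ |s₀| + |s - s₀| := by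
        have := abs_add_le s₀ (s - s₀)
        rwa [add_sub_cancel] at this
      have h5 : |s - s₀| ≤ 1 := by rw [abs_le]; constructor <;> linarith
      linarith
    have hk := hK t ht (s + 1) (by linarith) (by linarith)
    exact mul_le_mul (pow_le_pow_left₀ (abs_nonneg _) habs _) hk (norm_nonneg _) (by positivity)
  rw [le_div_iff₀ hbpos]
  calc (∫ x, φ x * Ft g C s x) * (‖b.eval (s₀ : ℂ)‖ / 2)
      ≤ |∫ x, φ x * Ft g C s x| * (‖b.eval (s₀ : ℂ)‖ / 2) :=
        mul_le_mul_of_nonneg_right (le_abs_self _) hbpos.le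
    _ ≤ |∫ x, φ x * Ft g C s x| * ‖b.eval (s : ℂ)‖ :=
        mul_le_mul_of_nonneg_left h1.le (abs_nonneg _)
    _ ≤ M := by rw [mul_comm]; exact hnorm

/-- Fatou: boundedness at `s₀` gives integrability at `s₀` -/
lemma fatou_step {g : (Fin n → ℝ) → ℝ} {C : Set (Fin n → ℝ)} (hC : MeasurableSet C)
    (hgm : Measurable g) (hg : ∀ x ∈ C, 0 < g x) {p : Fin n → ℝ} (φ : ContDiffBump p) {s₀ K : ℝ}
    (hint : ∀ s > s₀, IntegrableOn (fun x => g x ^ s) (C ∩ Metric.closedBall p φ.rOut))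
    (hK : ∀ᶠ s in 𝓝[>] s₀, ∫ x, φ x * Ft g C s x ≤ K) :
    ∫⁻ x, (C ∩ Metric.closedBall p φ.rIn).indicator
      (fun x => ENNReal.ofReal (g x ^ s₀)) x < ⊤ := by
  -- a sequence decreasing to `s₀`
  obtain ⟨u, hu1, hu2⟩ : ∃ u : ℕ → ℝ, Tendsto u atTop (𝓝[>] s₀) ∧ ∀ k, s₀ < u k := by
    refine ⟨fun k => s₀ + 1 / ((k : ℝ) + 1), ?_, fun k => by
      have : (0:ℝ) < 1 / ((k : ℝ) + 1) := by positivity
      linarith⟩
    rw [tendsto_nhdsWithin_iff]
    constructor
    · have := (tendsto_one_div_add_atTop_nhds_zero_nat (𝕜 := ℝ)).const_add s₀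
      simpa using this
    · refine Eventually.of_forall fun k => ?_
      have : (0:ℝ) < 1 / ((k : ℝ) + 1) := by positivity
      show s₀ < s₀ + 1 / ((k : ℝ) + 1)
      linarith
  have hmeas : ∀ s, Measurable fun x => ENNReal.ofReal (φ x * Ft g C s x) := fun s =>
    (φ.continuous.measurable.mul ((hgm.pow_const s).indicator hC)).ennreal_ofReal
  have hnonneg : ∀ s x, 0 ≤ φ x * Ft g C s x := by
    intro s x
    refine mul_nonneg φ.nonneg ?_
    by_cases hx : x ∈ C
    · rw [Ft, Set.indicator_of_mem hx]; exact Real.rpow_nonneg (hg x hx).le _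
    · rw [Ft, Set.indicator_of_notMem hx]
  have hintφ : ∀ s > s₀, Integrable fun x => φ x * Ft g C s x := by
    intro s hs
    have h1 : IntegrableOn (fun x => φ x * ((g x ^ s : ℝ) : ℝ)) (C ∩ Metric.closedBall p φ.rOut) :=
      integrableOn_aux (𝕜 := ℝ) (hC.inter Metric.isClosed_closedBall.measurableSet)
        (fun x hx => hg x hx.1) (hint s hs) φ.continuous.measurable (K := 1) fun x => by
          rw [Real.norm_of_nonneg φ.nonneg]; exact φ.le_one
    rw [← integrable_indicator_iff (hC.inter Metric.isClosed_closedBall.measurableSet)] at h1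
    refine h1.congr (Eventually.of_forall fun x => ?_)
    change _ = φ x * Ft g C s x
    by_cases hx : x ∈ C
    · by_cases hxB : x ∈ Metric.closedBall p φ.rOut
      · rw [Set.indicator_of_mem (show x ∈ C ∩ Metric.closedBall p φ.rOut from ⟨hx, hxB⟩), Ft,
          Set.indicator_of_mem hx]
      · rw [Set.indicator_of_notMem (fun h => hxB h.2),
          φ.zero_of_le_dist (le_of_lt (by simpa using hxB)), zero_mul]
    · rw [Set.indicator_of_notMem (fun h => hx h.1), Ft, Set.indicator_of_notMem hx, mul_zero]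
  have hlim : ∀ x, Tendsto (fun k => ENNReal.ofReal (φ x * Ft g C (u k) x)) atTop
      (𝓝 (ENNReal.ofReal (φ x * Ft g C s₀ x))) := by
    intro x
    refine ENNReal.tendsto_ofReal (Tendsto.const_mul _ ?_)
    by_cases hx : x ∈ C
    · simp only [Ft, Set.indicator_of_mem hx]
      have h1 : ContinuousAt (fun s : ℝ => g x ^ s) s₀ :=
        Real.continuousAt_const_rpow (hg x hx).ne'
      exact h1.tendsto.comp (hu1.mono_right nhdsWithin_le_nhds)
    · simp only [Ft, Set.indicator_of_notMem hx]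
      exact tendsto_const_nhds
  have hF : ∫⁻ x, ENNReal.ofReal (φ x * Ft g C s₀ x) ≤ ENNReal.ofReal K := by
    calc ∫⁻ x, ENNReal.ofReal (φ x * Ft g C s₀ x)
        = ∫⁻ x, liminf (fun k => ENNReal.ofReal (φ x * Ft g C (u k) x)) atTop :=
          lintegral_congr fun x => (hlim x).liminf_eq.symm
      _ ≤ liminf (fun k => ∫⁻ x, ENNReal.ofReal (φ x * Ft g C (u k) x)) atTop :=
          lintegral_liminf_le fun k => hmeas (u k)
      _ ≤ ENNReal.ofReal K := by
          refine liminf_le_of_frequently_le' ?_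
          refine (hu1.eventually hK).frequently.mono fun k hk => ?_
          rw [← ofReal_integral_eq_lintegral_ofReal (hintφ _ (hu2 k))
            (Eventually.of_forall (hnonneg _))]
          exact ENNReal.ofReal_le_ofReal hk
  refine lt_of_le_of_lt (le_trans (lintegral_mono fun x => ?_) hF) ENNReal.ofReal_lt_top
  by_cases hx : x ∈ C ∩ Metric.closedBall p φ.rIn
  · rw [Set.indicator_of_mem hx, φ.one_of_mem_closedBall hx.2, one_mul, Ft,
      Set.indicator_of_mem hx.1]
  · rw [Set.indicator_of_notMem hx]; exact zero_le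

omit [DecidableEq ι] in
lemma gpow_eq_Phi {m : ι → Dual ℝ (Fin n → ℝ)} {mu : ι → ℕ} {x : Fin n → ℝ}
    (hx : x ∈ cham m Finset.univ) (s : ℝ) :
    (∏ i, (m i x) ^ mu i) ^ s = Phi m (fun i => s * mu i) Finset.univ x := by
  rw [Phi, ← Real.finsetProd_rpow _ _ (fun i hi => pow_nonneg (hx i hi).le _)]
  refine Finset.prod_congr rfl fun i hi => ?_
  rw [← Real.rpow_natCast, ← Real.rpow_mul (hx i hi).le, mul_comm]

/-- **Core theorem.** -/
theorem core (m : ι → Dual ℝ (Fin n → ℝ)) (mu : ι → ℕ) (hmu : ∀ i, 0 < mu i) (X : Finset ι)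
    (hX : X.Nonempty) {f : (Fin n → ℂ) → ℂ} {η : ℂ} (hη : η * η = 1) (hf : ContDiff ℂ ∞ f)
    (hfg : ∀ x, f (cst n x) = η * ((∏ i, (m i x) ^ mu i : ℝ) : ℂ))
    {x₀ : Fin n → ℝ} (hx₀ : x₀ ∈ cham m X)
    {p₀ : Fin n → ℝ} (hp₀ : p₀ ∈ ann m X) (hp₀' : ∀ i ∉ X, 0 < m i p₀)
    (hgood : ∀ q, (∀ i ∈ X, 0 ≤ m i q) → (∃ i ∈ X, m i q ≠ 0) → (face m X q).Nonempty →
      (∑ i ∈ face m X q, mu i) * finrank ℝ (spn m X) <
        (∑ i ∈ X, mu i) * finrank ℝ (spn m (face m X q)))
    {b : Polynomial ℂ} (hb : IsBernstein f b) :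
    b.eval (-((finrank ℝ (spn m X) : ℂ) / ((∑ i ∈ X, mu i : ℕ) : ℂ))) = 0 := by
  classical
  obtain ⟨T, a, ha, hrel⟩ := hb
  set r := finrank ℝ (spn m X) with hr
  set d : ℕ := ∑ i ∈ X, mu i with hd
  have hdpos : 0 < d := Finset.sum_pos (fun i _ => hmu i) hX
  have hdpos' : (0:ℝ) < d := by exact_mod_cast hdpos
  -- `r ≤ d`
  have hrd : r ≤ d := by
    have h1 : r ≤ X.card := by
      have h2 : (spn m X) = Submodule.span ℝ ((X.image m : Finset (Dual ℝ (Fin n → ℝ))) :
          Set (Dual ℝ (Fin n → ℝ))) := by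
        rw [spn, Finset.coe_image]
      rw [hr, h2]
      exact (finrank_span_finset_le_card _).trans Finset.card_image_le
    refine h1.trans ?_
    rw [hd, Finset.card_eq_sum_ones]
    exact Finset.sum_le_sum fun i _ => hmu i
  set s₀ : ℝ := -((r : ℝ) / d) with hs₀
  have hs₀1 : -1 ≤ s₀ := by
    rw [hs₀, neg_le_neg_iff, div_le_one hdpos']
    exact_mod_cast hrd
  have hs₀2 : s₀ < 1 := by
    have : 0 ≤ (r : ℝ) / d := by positivity
    rw [hs₀]; linarith
  by_contra hcon
  have hbs₀ : b.eval (s₀ : ℂ) ≠ 0 := by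
    rw [hs₀]; push_cast; exact hcon
  -- a ball where the relation holds
  have hev : ∀ᶠ x in 𝓝 (0 : Fin n → ℝ), (∀ t ∈ T, AnalyticAt ℂ (a t) (cst n x)) ∧
      (f (cst n x) ≠ 0 → ∀ s : ℂ,
      ∑ t ∈ T, a t (cst n x) * s ^ t.2 * (t.1.foldr (nabla f s) f) (cst n x) = b.eval s) := by
    have hc : Tendsto (cst n) (𝓝 0) (𝓝 0) := by
      have := (cst n).continuous.tendsto 0
      rwa [map_zero] at this
    have h1 : ∀ᶠ z in 𝓝 (0 : Fin n → ℂ), ∀ t ∈ T, AnalyticAt ℂ (a t) z := by
      rw [Filter.eventually_all_finset]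
      exact fun t ht => (ha t ht).eventually_analyticAt
    exact hc.eventually (h1.and hrel)
  obtain ⟨R, hRpos, hR⟩ := Metric.eventually_nhds_iff_ball.mp hev
  -- the base point
  set τ : ℝ := R / (2 * (‖p₀‖ + 1)) with hτ
  have hτpos : 0 < τ := by positivity
  set p : Fin n → ℝ := τ • p₀ with hp
  have hpann : p ∈ ann m X := Submodule.smul_mem _ _ hp₀
  have hpR : p ∈ Metric.ball (0 : Fin n → ℝ) R := by
    rw [mem_ball_zero_iff, hp, norm_smul, Real.norm_of_nonneg hτpos.le, hτ, div_mul_eq_mul_div,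
      div_lt_iff₀ (by positivity)]
    nlinarith [norm_nonneg p₀]
  have hpX : ∀ i ∉ X, 0 < m i p := by
    intro i hi
    rw [hp, map_smul, smul_eq_mul]
    exact mul_pos hτpos (hp₀' i hi)
  have hev2 : ∀ᶠ x in 𝓝 p, x ∈ Metric.ball (0 : Fin n → ℝ) R ∧ ∀ i ∈ Finset.univ \ X, 0 < m i x := by
    refine Filter.Eventually.and (Metric.isOpen_ball.mem_nhds hpR) ?_
    rw [Filter.eventually_all_finset]
    intro i hi
    have hi' : i ∉ X := (Finset.mem_sdiff.mp hi).2
    exact (isOpen_lt continuous_const (cont_form m i)).mem_nhds (hpX i hi')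
  obtain ⟨ρ, hρpos, hρ⟩ := Metric.nhds_basis_closedBall.mem_iff.mp hev2
  let φ : ContDiffBump p := ⟨ρ / 2, ρ, by positivity, by linarith⟩
  have hφout : φ.rOut = ρ := rfl
  have hφin : φ.rIn = ρ / 2 := rfl
  set B := Metric.closedBall p ρ with hB
  have hBX : ∀ x ∈ B, ∀ i ∈ Finset.univ \ X, 0 < m i x := fun x hx => (hρ hx).2
  -- the set-up
  set g : (Fin n → ℝ) → ℝ := fun x => ∏ i, (m i x) ^ mu i with hg
  set C := cham m (Finset.univ : Finset ι) with hC
  have hgpos : ∀ x ∈ C, 0 < g x := fun x hx =>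
    Finset.prod_pos fun i hi => pow_pos (hx i hi) _
  have hcontm : ∀ i, ContDiff ℝ ∞ fun x => m i x := fun i =>
    ((m i).toContinuousLinearMap : (Fin n → ℝ) →L[ℝ] ℝ).contDiff
  have S : Setup f g C η := by
    refine ⟨hf, isOpen_cham m _, hgpos, ?_, ?_, hη, hfg⟩
    · intro x hx
      rw [(isOpen_cham m _).frontier_eq] at hx
      obtain ⟨hx1, hx2⟩ := hx
      have hnn : ∀ i, 0 ≤ m i x := by
        intro i
        have hcl : IsClosed {y | 0 ≤ m i y} := isClosed_le continuous_const (cont_form m i)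
        have hsub : C ⊆ {y | 0 ≤ m i y} := fun y hy => (hy i (Finset.mem_univ i)).le
        exact closure_minimal hsub hcl hx1
      obtain ⟨i, hi⟩ : ∃ i, ¬ 0 < m i x := by
        by_contra hcc
        push Not at hcc
        exact hx2 fun i _ => hcc i
      have hi0 : m i x = 0 := le_antisymm (not_lt.mp hi) (hnn i)
      exact Finset.prod_eq_zero (Finset.mem_univ i) (by rw [hi0, zero_pow (hmu i).ne'])
    · exact contDiff_prod fun i _ => (hcontm i).pow _
  have hgm : Measurable g := S.hgd.continuous.measurable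
  -- bound of the factors outside `X`
  have hbound : ∀ s : ℝ, ∃ M : ℝ, 0 ≤ M ∧ ∀ x ∈ B,
      Phi m (fun i => s * mu i) (Finset.univ \ X) x ≤ M := by
    intro s
    have hcont : ContinuousOn (Phi m (fun i => s * mu i) (Finset.univ \ X)) B := by
      refine continuousOn_finsetProd _ fun i hi => ?_
      exact (cont_form m i).continuousOn.rpow_const fun x hx => Or.inl (hBX x hx i hi).ne'
    obtain ⟨M, hM⟩ := (isCompact_closedBall p ρ).exists_bound_of_continuousOn hcont
    refine ⟨max M 0, le_max_right _ _, fun x hx => ?_⟩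
    exact ((le_abs_self _).trans (hM x hx)).trans (le_max_left _ _)
  have hsplit : ∀ (s : ℝ) (x : Fin n → ℝ), Phi m (fun i => s * mu i) Finset.univ x =
      Phi m (fun i => s * mu i) (Finset.univ \ X) x * Phi m (fun i => s * mu i) X x := by
    intro s x
    exact (Finset.prod_sdiff (Finset.subset_univ X)).symm
  -- integrability to the right of `s₀`
  have hint : ∀ s > s₀, IntegrableOn (fun x => g x ^ s) (C ∩ B) := by
    intro s hs
    have hfin : nu volume m (fun i => s * mu i) X (Metric.closedBall 0 R) < ⊤ := by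
      refine nu_ball_lt_top volume m _ X (fun q hq hne => ?_) R
      rw [← Finset.mul_sum]
      by_cases hq2 : ∃ i ∈ X, m i q ≠ 0
      · have h1 := hgood q hq hq2 hne
        have h2 : ((∑ i ∈ face m X q, (mu i : ℝ))) * r < d * finrank ℝ (spn m (face m X q)) := by
          exact_mod_cast h1
        have h3 : 0 < ∑ i ∈ face m X q, (mu i : ℝ) :=
          Finset.sum_pos (fun i _ => by exact_mod_cast hmu i) hne
        have h4 : -((r : ℝ) / d) * (∑ i ∈ face m X q, (mu i : ℝ)) <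
            s * ∑ i ∈ face m X q, (mu i : ℝ) := mul_lt_mul_of_pos_right hs h3
        have h5 : (r : ℝ) / d * (∑ i ∈ face m X q, (mu i : ℝ)) <
            finrank ℝ (spn m (face m X q)) := by
          rw [div_mul_eq_mul_div, div_lt_iff₀ hdpos']
          linarith
        linarith
      · have hface : face m X q = X := by
          push Not at hq2
          exact Finset.filter_true_of_mem hq2
        rw [hface, ← hr]
        have h1 : (∑ i ∈ X, (mu i : ℝ)) = d := by rw [hd]; push_cast; rfl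
        rw [h1]
        have h2 : -((r : ℝ) / d) < s := hs
        have h3 : -((r : ℝ) / d) * d < s * d := mul_lt_mul_of_pos_right h2 hdpos'
        have h4 : -((r : ℝ) / d) * d = -r := by field_simp
        linarith
    obtain ⟨M, hM0, hM⟩ := hbound s
    have hfin2 : nu volume m (fun i => s * mu i) Finset.univ B < ⊤ := by
      refine lt_of_le_of_lt (nu_le volume m _ (Finset.subset_univ X)
        Metric.isClosed_closedBall.measurableSet hM0 ?_) (ENNReal.mul_lt_top ENNReal.ofReal_lt_top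
        (lt_of_le_of_lt (measure_mono ?_) hfin))
      · intro x hxB hxC
        rw [hsplit]
        exact mul_le_mul_of_nonneg_right (hM x hxB)
          (Finset.prod_nonneg fun i hi => Real.rpow_nonneg (hxC i (Finset.mem_univ i)).le _)
      · intro x hx
        exact Metric.ball_subset_closedBall (hρ hx).1
    rw [nu_apply volume m _ _ Metric.isClosed_closedBall.measurableSet,
      lintegral_indicator (Metric.isClosed_closedBall.measurableSet.inter
        (isOpen_cham m _).measurableSet), Set.inter_comm] at hfin2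
    have hmeasCB : MeasurableSet (C ∩ B) :=
      (isOpen_cham m _).measurableSet.inter Metric.isClosed_closedBall.measurableSet
    have hI : IntegrableOn (Phi m (fun i => s * mu i) Finset.univ) (C ∩ B) := by
      refine (lintegral_ofReal_ne_top_iff_integrable
        (measurable_Phi m _ _).aestronglyMeasurable ?_).mp hfin2.ne
      refine (ae_restrict_iff' hmeasCB).mpr (Eventually.of_forall fun x hx => ?_)
      exact Finset.prod_nonneg fun i hi => Real.rpow_nonneg (hx.1 i hi).le _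
    exact hI.congr_fun (fun x hx => (gpow_eq_Phi hx.1 s).symm) hmeasCB
  -- boundedness and Fatou
  obtain ⟨K, hK⟩ := bounded_near S φ
    (fun t ht x hx => (hR x (hρ hx).1).1 t ht)
    (fun x hx hfx s => (hR x (hρ hx).1).2 hfx s) hs₀1 hs₀2 hint hbs₀
  have hfat := fatou_step (isOpen_cham m _).measurableSet hgm hgpos φ hint hK
  -- contradiction with the divergence
  have htop : nu volume m (fun i => s₀ * mu i) X (Metric.closedBall p (ρ / 2)) = ⊤ := by
    refine nu_ball_eq_top volume m _ X hX hx₀ ?_ hpann (by positivity)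
    rw [← Finset.mul_sum, ← hr]
    have h1 : (∑ i ∈ X, (mu i : ℝ)) = d := by rw [hd]; push_cast; rfl
    rw [h1, hs₀]
    field_simp
    ring
  obtain ⟨M, hM0, hM⟩ := hbound (-s₀)
  have hle : nu volume m (fun i => s₀ * mu i) X (Metric.closedBall p (ρ / 2)) ≤
      ENNReal.ofReal M * nu volume m (fun i => s₀ * mu i) Finset.univ
        (Metric.closedBall p (ρ / 2)) := by
    refine nu_le' volume m _ Metric.isClosed_closedBall.measurableSet hM0 ?_
    intro x hx hxX
    have hxB : x ∈ B := Metric.closedBall_subset_closedBall (by linarith) hx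
    have hxC : x ∈ cham m Finset.univ := by
      intro i _
      by_cases hi : i ∈ X
      · exact hxX i hi
      · exact hBX x hxB i (Finset.mem_sdiff.mpr ⟨Finset.mem_univ i, hi⟩)
    refine ⟨hxC, ?_⟩
    have h1 : Phi m (fun i => -s₀ * mu i) (Finset.univ \ X) x *
        Phi m (fun i => s₀ * mu i) (Finset.univ \ X) x = 1 := by
      rw [Phi, Phi, ← Finset.prod_mul_distrib]
      refine Finset.prod_eq_one fun i hi => ?_
      rw [← Real.rpow_add (hBX x hxB i hi)]
      have : -s₀ * (mu i : ℝ) + s₀ * mu i = 0 := by ring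
      rw [this, Real.rpow_zero]
    have h2 : Phi m (fun i => s₀ * mu i) X x =
        Phi m (fun i => -s₀ * mu i) (Finset.univ \ X) x *
          Phi m (fun i => s₀ * mu i) Finset.univ x := by
      rw [hsplit, ← mul_assoc, h1, one_mul]
    rw [h2]
    exact mul_le_mul_of_nonneg_right (hM x hxB)
      (Finset.prod_nonneg fun i hi => Real.rpow_nonneg (hxC i hi).le _)
  have hfin3 : nu volume m (fun i => s₀ * mu i) Finset.univ (Metric.closedBall p (ρ / 2)) < ⊤ := by
    rw [nu_apply volume m _ _ Metric.isClosed_closedBall.measurableSet]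
    refine lt_of_le_of_lt (lintegral_mono fun x => ?_) hfat
    rw [Set.inter_comm]
    by_cases hx : x ∈ C ∩ Metric.closedBall p φ.rIn
    · rw [Set.indicator_of_mem hx, Set.indicator_of_mem
        (show x ∈ cham m Finset.univ ∩ Metric.closedBall p (ρ / 2) from hx), hg]
      simp only
      rw [gpow_eq_Phi hx.1 s₀]
    · rw [Set.indicator_of_notMem
        (show x ∉ cham m Finset.univ ∩ Metric.closedBall p (ρ / 2) from hx)]
      exact zero_le
  rw [htop, top_le_iff] at hle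
  exact (ENNReal.mul_lt_top ENNReal.ofReal_lt_top hfin3).ne hle

end Pool.Agent.helper14.ND
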