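import Mathlib
import Pool.Agent.helper14.NDCore
import Pool.Agent.helper14.NDCombin

/-! The criterion: if all the large flats of a dense edge share a hyperplane, then `-r/d` is a
root. -/

namespace Pool.Agent.helper14.ND

open Finset Module Filter Topology MeasureTheory Set

open scoped ContDiff

variable {n : ℕ} {ι : Type*}

/-- the real linear forms -/
noncomputable def lform (A : ι → Fin n → ℝ) (i : ι) : Dual ℝ (Fin n → ℝ) :=
  dotProductEquiv ℝ (Fin n) (A i)

lemma lform_apply (A : ι → Fin n → ℝ) (i : ι) (x : Fin n → ℝ) :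
    lform A i x = ∑ j, A i j * x j := rfl

lemma spn_lform (A : ι → Fin n → ℝ) (S : Finset ι) :
    spn (lform A) S = (Submodule.span ℝ (A '' (S : Set ι))).map
      (dotProductEquiv ℝ (Fin n) : (Fin n → ℝ) →ₗ[ℝ] Dual ℝ (Fin n → ℝ)) := by
  rw [spn, Submodule.map_span, ← Set.image_comp]
  rfl

lemma rho_lform (A : ι → Fin n → ℝ) (S : Finset ι) : rho (lform A) S = rk A S := by
  rw [rho, spn_lform, rk]
  exact LinearEquiv.finrank_map_eq (dotProductEquiv ℝ (Fin n)) _

lemma mem_spn_lform (A : ι → Fin n → ℝ) (S : Finset ι) (i : ι) :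
    lform A i ∈ spn (lform A) S ↔ A i ∈ Submodule.span ℝ (A '' (S : Set ι)) := by
  rw [spn_lform, Submodule.mem_map]
  constructor
  · rintro ⟨y, hy, hyi⟩
    have : y = A i := (dotProductEquiv ℝ (Fin n)).injective hyi
    rwa [← this]
  · intro h
    exact ⟨A i, h, rfl⟩

lemma spn_smul_eq {E : Type*} [AddCommGroup E] [Module ℝ E] (l : ι → Dual ℝ E) (σ : ι → ℝ)
    (hσ : ∀ i, σ i ≠ 0) (S : Finset ι) : spn (fun i => σ i • l i) S = spn l S := by
  apply le_antisymm
  · rw [spn, Submodule.span_le]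
    rintro _ ⟨i, hi, rfl⟩
    exact Submodule.smul_mem _ _ (mem_spn hi)
  · rw [spn, Submodule.span_le]
    rintro _ ⟨i, hi, rfl⟩
    have h1 : (fun i => σ i • l i) i ∈ spn (fun i => σ i • l i) S := mem_spn hi
    have h2 := Submodule.smul_mem _ (σ i)⁻¹ h1
    simpa [smul_smul, inv_mul_cancel₀ (hσ i)] using h2

/-- **Criterion.** -/
theorem criterion [Fintype ι] [DecidableEq ι] (A : ι → Fin n → ℝ) (mu : ι → ℕ)
    (hmu : ∀ i, 0 < mu i) (hA : ∀ i, A i ≠ 0) {X : Finset ι} (hX : IsDenseEdge A X)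
    {e : ι} (he : e ∈ X)
    (hcommon : ∀ Y ⊆ X, (∀ i ∈ X, A i ∈ Submodule.span ℝ (A '' (Y : Set ι)) → i ∈ Y) →
      Y.Nonempty → Y ≠ X → (∑ i ∈ X, mu i) * rk A Y ≤ (∑ i ∈ Y, mu i) * rk A X → e ∈ Y)
    {b : Polynomial ℂ} (hb : IsBernstein (arrPolyMul A mu) b) :
    b.eval (-((rk A X : ℂ) / ((∑ i ∈ X, mu i : ℕ) : ℂ))) = 0 := by
  classical
  set l := lform A with hl
  have hl0 : l e ≠ 0 := by
    rw [hl, lform]
    intro h
    exact hA e ((LinearEquiv.map_eq_zero_iff _).mp h)
  -- indecomposability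
  have hind : ∀ S ⊆ X, S.Nonempty → S ≠ X → ¬ Disjoint (spn l S) (spn l (X \ S)) := by
    intro S hS hSne hSX hdisj
    apply hX.indec S hS hSne hSX
    have h1 := Submodule.finrank_sup_add_finrank_inf_eq (spn l S) (spn l (X \ S))
    rw [hdisj.eq_bot, finrank_bot, add_zero, ← spn_union, Finset.union_sdiff_of_subset hS] at h1
    rw [← rho_lform, ← rho_lform, ← rho_lform, rho, rho, rho]
    exact h1.symm
  obtain ⟨x, hx, hbdd⟩ := exists_bounded_chamber he hl0 hind
  -- a generic point of the edge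
  obtain ⟨p₀, hp₀, hp₀'⟩ : ∃ p₀ ∈ ann l X, ∀ i : {i // i ∉ X}, l i p₀ ≠ 0 := by
    refine Module.Dual.exists_forall_mem_ne_zero_of_forall_exists (ann l X)
      (fun i : {i // i ∉ X} => l i) fun i => ?_
    have hi : l i ∉ spn l X := fun h => i.2 (hX.flat i ((mem_spn_lform A X i).mp h))
    obtain ⟨w, hw, hw'⟩ := exists_point_of_notMem hi
    exact ⟨w, mem_ann.mpr hw, by rw [hw']; exact one_ne_zero⟩
  -- signs
  let v : ι → ℝ := fun i => if i ∈ X then l i x else l i p₀
  have hv : ∀ i, v i ≠ 0 := by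
    intro i
    by_cases hi : i ∈ X
    · simp only [v, if_pos hi]; exact hx i hi
    · simp only [v, if_neg hi]; exact hp₀' ⟨i, hi⟩
  let σ : ι → ℝ := fun i => if 0 < v i then 1 else -1
  have hσ2 : ∀ i, σ i * σ i = 1 := by
    intro i
    simp only [σ]
    split_ifs <;> norm_num
  have hσ0 : ∀ i, σ i ≠ 0 := by
    intro i h
    have := hσ2 i
    rw [h, mul_zero] at this
    exact zero_ne_one this
  have hσv : ∀ i, 0 < σ i * v i := by
    intro i
    simp only [σ]
    split_ifs with h
    · rw [one_mul]; exact h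
    · have := lt_of_le_of_ne (not_lt.mp h) (hv i)
      linarith
  let m : ι → Dual ℝ (Fin n → ℝ) := fun i => σ i • l i
  have hspn : ∀ S, spn m S = spn l S := spn_smul_eq l σ hσ0
  have hmx : ∀ i q, m i q = σ i * l i q := fun i q => rfl
  have hxm : x ∈ cham m X := by
    intro i hi
    rw [hmx]
    have := hσv i
    simp only [v, if_pos hi] at this
    exact this
  have hpm : p₀ ∈ ann m X := by
    rw [mem_ann]
    intro i hi
    rw [hmx, mem_ann.mp hp₀ i hi, mul_zero]
  have hpm' : ∀ i ∉ X, 0 < m i p₀ := by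
    intro i hi
    rw [hmx]
    have := hσv i
    simp only [v, if_neg hi] at this
    exact this
  have hf : ContDiff ℂ ∞ (arrPolyMul A mu) := by
    refine contDiff_prod fun i _ => ContDiff.pow ?_ _
    refine ContDiff.sum fun j _ => ?_
    exact contDiff_const.mul (contDiff_apply ℂ ℂ j)
  have hη : (∏ i, ((σ i : ℝ) : ℂ) ^ mu i) * (∏ i, ((σ i : ℝ) : ℂ) ^ mu i) = 1 := by
    rw [← Finset.prod_mul_distrib]
    refine Finset.prod_eq_one fun i _ => ?_
    rw [← mul_pow]
    norm_cast
    rw [hσ2 i, one_pow]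
  have hfg : ∀ y, arrPolyMul A mu (cst n y) =
      (∏ i, ((σ i : ℝ) : ℂ) ^ mu i) * ((∏ i, (m i y) ^ mu i : ℝ) : ℂ) := by
    intro y
    push_cast
    rw [arrPolyMul, ← Finset.prod_mul_distrib]
    refine Finset.prod_congr rfl fun i _ => ?_
    rw [← mul_pow, hmx]
    congr 1
    have h1 : ((σ i : ℝ) : ℂ) * ((σ i * l i y : ℝ) : ℂ) = ((l i y : ℝ) : ℂ) := by
      rw [← Complex.ofReal_mul, ← mul_assoc, hσ2, one_mul]
    rw [h1, hl, lform_apply]
    push_cast
    rfl
  have hrk : ∀ S, finrank ℝ (spn m S) = rk A S := by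
    intro S
    rw [hspn, ← rho_lform, rho]
  have key := core m mu hmu X hX.nonempty hη hf hfg hxm hpm hpm' ?_ hb
  · rw [hrk] at key
    exact key
  · intro q hq hq2 hne
    by_contra hcon
    rw [not_lt, hrk, hrk] at hcon
    have hlq : ∀ i, m i q = 0 ↔ l i q = 0 := by
      intro i
      rw [hmx, mul_eq_zero, or_iff_right (hσ0 i)]
    have hYX : face m X q ⊆ X := Finset.filter_subset _ _
    have heY : e ∈ face m X q := by
      refine hcommon _ hYX ?_ hne ?_ hcon
      · intro i hi hmem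
        have h1 : l i ∈ spn l (face m X q) := (mem_spn_lform A _ i).mpr hmem
        obtain ⟨c, hc⟩ := mem_spn_iff.mp h1
        refine Finset.mem_filter.mpr ⟨hi, ?_⟩
        rw [hlq, ← hc]
        simp only [LinearMap.sum_apply, LinearMap.smul_apply, smul_eq_mul]
        refine Finset.sum_eq_zero fun j hj => ?_
        rw [(hlq j).mp (Finset.mem_filter.mp hj).2, mul_zero]
      · intro h
        obtain ⟨i, hi, hi2⟩ := hq2
        rw [← h] at hi
        exact hi2 (Finset.mem_filter.mp hi).2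
    have h0 : l e q = 0 := (hlq e).mp (Finset.mem_filter.mp heY).2
    obtain ⟨i, hi, hi2⟩ := hq2
    refine hi2 ((hlq i).mpr (hbdd q (fun j hj => ?_) h0 i hi))
    have h1 := hq j hj
    have h2 := hσv j
    simp only [v, if_pos hj] at h2
    rw [hmx] at h1
    have h3 : 0 ≤ (σ j * l j x) * (σ j * l j q) := mul_nonneg h2.le h1
    have h4 : (σ j * l j x) * (σ j * l j q) = (σ j * σ j) * (l j x * l j q) := by ring
    rwa [h4, hσ2, one_mul] at h3

/-- **Dense edges of rank at most four of reduced real arrangements.** -/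
theorem rank_four [Fintype ι] [DecidableEq ι] (A : ι → Fin n → ℝ)
    (hA : ∀ i, A i ≠ 0) (hpar : ∀ i j, i ≠ j → ∀ c : ℝ, A i ≠ c • A j)
    {X : Finset ι} (hX : IsDenseEdge A X) (hr : rk A X ≤ 4)
    {b : Polynomial ℂ} (hb : IsBernstein (arrPoly A) b) :
    b.eval (-((rk A X : ℂ) / (X.card : ℂ))) = 0 := by
  classical
  have hsimple : ∀ i ∈ X, ∀ j ∈ X, i ≠ j → rho (lform A) {i, j} = 2 := by
    intro i _ j _ hij
    rw [rho_lform, rk]
    have hli : LinearIndependent ℝ ![A i, A j] := by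
      rw [LinearIndependent.pair_iff]
      intro s t hst
      by_cases hs : s = 0
      · refine ⟨hs, ?_⟩
        rw [hs, zero_smul, zero_add] at hst
        exact (smul_eq_zero.mp hst).resolve_right (hA j)
      · exfalso
        apply hpar i j hij (-(s⁻¹ * t))
        have h1 : s • A i = -(t • A j) := eq_neg_of_add_eq_zero_left hst
        have h2 : A i = s⁻¹ • (s • A i) := by rw [smul_smul, inv_mul_cancel₀ hs, one_smul]
        rw [h2, h1, smul_neg, smul_smul, neg_smul]
    have h3 := finrank_span_eq_card hli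
    have h4 : Set.range ![A i, A j] = A '' (({i, j} : Finset ι) : Set ι) := by
      rw [Matrix.range_cons, Matrix.range_cons, Matrix.range_empty, Set.union_empty]
      ext y
      simp [eq_comm]
      exact or_comm
    rw [h4] at h3
    simpa using h3
  have hne : ∀ i ∈ X, lform A i ≠ 0 := by
    intro i _ h
    exact hA i ((LinearEquiv.map_eq_zero_iff _).mp h)
  obtain ⟨e, he, hcommon⟩ := exists_common (l := lform A) hX.nonempty hsimple hne
    (fun S h1 h2 h3 => by
      rw [rho_lform, rho_lform, rho_lform]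
      exact hX.indec S h1 h2 h3) (by rw [rho_lform]; exact hr)
  have hsum : ∀ S : Finset ι, ∑ _i ∈ S, 1 = S.card := fun S => by simp
  have hpoly : arrPolyMul A (fun _ => 1) = arrPoly A := by
    ext z
    simp [arrPolyMul, arrPoly]
  rw [← hpoly] at hb
  have key := criterion A (fun _ => 1) (fun _ => Nat.one_pos) hA hX he ?_ hb
  · rw [hsum] at key
    exact key
  · intro Y hY hfl hYne hYX hbad
    rw [hsum, hsum] at hbad
    refine hcommon Y ⟨hY, fun i hi h => hfl i hi ((mem_spn_lform A Y i).mp h)⟩ hYne hYX ?_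
    rw [rho_lform, rho_lform]
    exact hbad

end Pool.Agent.helper14.ND
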