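import Mathlib
import Pool.Agent.helper67.ND.Defs
import Pool.Agent.helper14.ND_E1

/-! Reduction of the functional equation to a transversal slice. -/

namespace Pool.Agent.helper14.CND

open Filter Topology MvPolynomial
open Pool.Agent.helper67 Pool.Agent.helper67.ND

section Slice

variable {n r : ℕ}

/-- `u (s, z)` is near `x0` a finite sum `∑ a_t(z) s ^ k_t (∇_{w_t} g) (ψ z)` with `a_t` holomorphic
at `x0`. -/
def InM (g : MvPolynomial (Fin r) ℂ) (psi : (Fin n → ℂ) →L[ℂ] (Fin r → ℂ)) (x0 : Fin n → ℂ)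
    (u : ℂ → (Fin n → ℂ) → ℂ) : Prop :=
  ∃ (T : Type) (_ : Fintype T) (a : T → (Fin n → ℂ) → ℂ) (w : T → List (Fin r)) (k : T → ℕ),
    (∀ t, AnalyticAt ℂ (a t) x0) ∧
    ∀ᶠ z in 𝓝 x0, eval (psi z) g ≠ 0 → ∀ s : ℂ,
      u s z = ∑ t, a t z * s ^ (k t) *
        ((w t).foldr (nabla (fun y => eval y g) s) (fun y => eval y g)) (psi z)

variable {g : MvPolynomial (Fin r) ℂ} {psi : (Fin n → ℂ) →L[ℂ] (Fin r → ℂ)} {x0 : Fin n → ℂ}

lemma InM.smul {u : ℂ → (Fin n → ℂ) → ℂ} (hu : InM g psi x0 u) {c : (Fin n → ℂ) → ℂ}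
    (hc : AnalyticAt ℂ c x0) (m : ℕ) : InM g psi x0 (fun s z => c z * s ^ m * u s z) := by
  obtain ⟨T, hT, a, w, k, ha, h⟩ := hu
  refine ⟨T, hT, fun t z => c z * a t z, w, fun t => m + k t, fun t => hc.mul (ha t), ?_⟩
  filter_upwards [h] with z hz hg s
  rw [hz hg s, Finset.mul_sum]
  refine Finset.sum_congr rfl fun t _ => ?_
  rw [pow_add]; ring

lemma InM.add {u v : ℂ → (Fin n → ℂ) → ℂ} (hu : InM g psi x0 u) (hv : InM g psi x0 v) :
    InM g psi x0 (fun s z => u s z + v s z) := by
  obtain ⟨T, hT, a, w, k, ha, h⟩ := hu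
  obtain ⟨T', hT', a', w', k', ha', h'⟩ := hv
  refine ⟨T ⊕ T', inferInstance, Sum.elim a a', Sum.elim w w', Sum.elim k k', ?_, ?_⟩
  · rintro (t | t)
    · exact ha t
    · exact ha' t
  · filter_upwards [h, h'] with z hz hz' hg s
    rw [hz hg s, hz' hg s, Fintype.sum_sum_type]
    simp

lemma InM.zero : InM g psi x0 (fun _ _ => 0) :=
  ⟨Empty, inferInstance, Empty.elim, Empty.elim, Empty.elim, fun t => t.elim,
    Filter.Eventually.of_forall fun _ _ _ => by simp⟩

lemma InM.sum {α : Type*} (S : Finset α) {u : α → ℂ → (Fin n → ℂ) → ℂ}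
    (hu : ∀ t ∈ S, InM g psi x0 (u t)) : InM g psi x0 (fun s z => ∑ t ∈ S, u t s z) := by
  classical
  induction S using Finset.induction_on with
  | empty => simpa using InM.zero
  | insert t S hS ih =>
    have h1 := (hu t (Finset.mem_insert_self _ _)).add
      (ih fun t' ht' => hu t' (Finset.mem_insert_of_mem ht'))
    have e : (fun (s : ℂ) (z : Fin n → ℂ) => ∑ t ∈ insert t S, u t s z) =
        fun s z => u t s z + ∑ t ∈ S, u t s z := by
      funext s z; rw [Finset.sum_insert hS]
    rw [e]; exact h1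

lemma fderiv_apply_sum {G : (Fin r → ℂ) → ℂ} {y v : Fin r → ℂ} :
    fderiv ℂ G y v = ∑ j, v j * fderiv ℂ G y (Pi.single j 1) := by
  have hv : v = ∑ j, v j • (Pi.single j (1 : ℂ) : Fin r → ℂ) := by
    funext j; simp [Finset.sum_apply, Pi.single_apply]
  conv_lhs => rw [hv]
  rw [map_sum]
  refine Finset.sum_congr rfl fun j _ => ?_
  rw [map_smul, smul_eq_mul]

/-- The condition is stable under the twisted derivatives of `f = h · (g ∘ ψ)`, `h (x0) ≠ 0`. -/
lemma InM.nabla {u : ℂ → (Fin n → ℂ) → ℂ} (hu : InM g psi x0 u) {f h : MvPolynomial (Fin n) ℂ}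
    (hfac : ∀ z, eval z f = eval z h * eval (psi z) g) (hx0 : eval x0 h ≠ 0) (i : Fin n) :
    InM g psi x0 (fun s => ND.nabla (fun z => eval z f) s i (u s)) := by
  classical
  obtain ⟨T, hT, a, w, k, ha, hev⟩ := hu
  have hPA : ∀ P : MvPolynomial (Fin n) ℂ, AnalyticAt ℂ (fun z : Fin n → ℂ => eval z P) x0 :=
    fun P => AnalyticOnNhd.eval_mvPolynomial P x0 (Set.mem_univ _)
  have hdA : ∀ c : (Fin n → ℂ) → ℂ, AnalyticAt ℂ c x0 →
      AnalyticAt ℂ (fun z => fderiv ℂ c z (Pi.single i 1)) x0 := by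
    intro c hc
    have h1 := ((ContinuousLinearMap.apply ℂ ℂ (Pi.single i 1 : Fin n → ℂ)).analyticAt
      (fderiv ℂ c x0)).comp hc.fderiv
    exact h1
  refine ⟨T ⊕ (T × Fin r) ⊕ T, inferInstance,
    Sum.elim (fun t z => fderiv ℂ (a t) z (Pi.single i 1))
      (Sum.elim (fun t z => psi (Pi.single i 1) t.2 * a t.1 z)
        (fun t z => a t z * (eval z (pderiv i h) / eval z h))),
    Sum.elim w (Sum.elim (fun t => t.2 :: w t.1) w),
    Sum.elim k (Sum.elim (fun t => k t.1) (fun t => k t + 1)), ?_, ?_⟩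
  · rintro (t | t | t)
    · exact hdA _ (ha t)
    · exact analyticAt_const.mul (ha t.1)
    · exact (ha t).mul ((hPA _).div (hPA h) hx0)
  · have hh : ∀ᶠ z in 𝓝 x0, eval z h ≠ 0 := (hPA h).continuousAt.eventually_ne hx0
    have haz : ∀ᶠ z in 𝓝 x0, ∀ t, AnalyticAt ℂ (a t) z := by
      rw [Filter.eventually_all]
      exact fun t => (ha t).eventually_analyticAt
    filter_upwards [hev.eventually_nhds, hh, haz] with z hz hhz hazz hg s
    have hgopen : ∀ᶠ y in 𝓝 z, eval (psi y) g ≠ 0 := by
      have hc : ContinuousAt (fun y : Fin n → ℂ => eval (psi y) g) z :=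
        ContinuousAt.comp (g := fun y : Fin r → ℂ => eval y g)
          (differentiableAt_eval g (psi z)).continuousAt psi.continuous.continuousAt
      exact hc.eventually_ne hg
    -- abbreviation
    set G : T → (Fin r → ℂ) → ℂ := fun t =>
      (w t).foldr (ND.nabla (fun y => eval y g) s) (fun y => eval y g) with hG
    have hus : u s =ᶠ[𝓝 z] fun y => ∑ t, a t y * s ^ (k t) * G t (psi y) := by
      filter_upwards [hz, hgopen] with y hy hgy using hy hgy s
    have hGd : ∀ t, DifferentiableAt ℂ (G t) (psi z) := fun t =>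
      foldr_nabla_differentiableAt g s (w t) (psi z) hg
    have hterm : ∀ t, HasFDerivAt (fun y => a t y * s ^ (k t) * G t (psi y))
        ((a t z * s ^ k t) • ((fderiv ℂ (G t) (psi z)).comp psi) +
          (G t (psi z)) • (s ^ k t • fderiv ℂ (a t) z)) z := by
      intro t
      have h1 : HasFDerivAt (fun y => a t y * s ^ (k t)) (s ^ k t • fderiv ℂ (a t) z) z :=
        ((hazz t).differentiableAt.hasFDerivAt).mul_const (s ^ k t)
      have h2 : HasFDerivAt (fun y => G t (psi y)) ((fderiv ℂ (G t) (psi z)).comp psi) z :=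
        (hGd t).hasFDerivAt.comp z psi.hasFDerivAt
      exact h1.fun_mul h2
    have hsum : HasFDerivAt (fun y => ∑ t, a t y * s ^ (k t) * G t (psi y))
        (∑ t, ((a t z * s ^ k t) • ((fderiv ℂ (G t) (psi z)).comp psi) +
          (G t (psi z)) • (s ^ k t • fderiv ℂ (a t) z))) z :=
      HasFDerivAt.fun_sum fun t _ => hterm t
    have hd1 : fderiv ℂ (u s) z (Pi.single i 1) =
        ∑ t, (a t z * s ^ k t * (∑ j, psi (Pi.single i 1) j *
          fderiv ℂ (G t) (psi z) (Pi.single j 1)) +
          G t (psi z) * (s ^ k t * fderiv ℂ (a t) z (Pi.single i 1))) := by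
      rw [hus.fderiv_eq, hsum.fderiv]
      simp only [sum_apply, add_apply, smul_apply, smul_eq_mul,
        ContinuousLinearMap.comp_apply]
      refine Finset.sum_congr rfl fun t _ => ?_
      rw [fderiv_apply_sum (G := G t) (v := psi (Pi.single i 1))]
    have hd2 : fderiv ℂ (fun z => eval z f) z (Pi.single i 1) =
        eval z h * (∑ j, psi (Pi.single i 1) j * eval (psi z) (pderiv j g)) +
          eval (psi z) g * eval z (pderiv i h) := by
      have e1 : (fun z => eval z f) = fun z => eval z h * eval (psi z) g := funext hfac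
      have h1 : HasFDerivAt (fun z => eval z h) (fderiv ℂ (fun z => eval z h) z) z :=
        (differentiableAt_eval h z).hasFDerivAt
      have h2 : HasFDerivAt (fun y => eval (psi y) g)
          ((fderiv ℂ (fun y => eval y g) (psi z)).comp psi) z :=
        ((differentiableAt_eval g (psi z)).hasFDerivAt).comp z psi.hasFDerivAt
      rw [e1, (h1.fun_mul h2).fderiv]
      simp only [add_apply, smul_apply, smul_eq_mul, ContinuousLinearMap.comp_apply]
      rw [fderiv_eval, fderiv_apply_sum (v := psi (Pi.single i 1))]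
      simp only [fderiv_eval]
    have hG' : ∀ t (j : Fin r), ((j :: w t).foldr (ND.nabla (fun y => eval y g) s)
        (fun y => eval y g)) (psi z) = fderiv ℂ (G t) (psi z) (Pi.single j 1) +
          s * (eval (psi z) (pderiv j g) / eval (psi z) g) * G t (psi z) := by
      intro t j
      rw [List.foldr_cons]
      simp only [ND.nabla]
      rw [fderiv_eval]
    rw [Fintype.sum_sum_type, Fintype.sum_sum_type, Fintype.sum_prod_type]
    simp only [Sum.elim_inl, Sum.elim_inr, hG']
    simp only [ND.nabla]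
    rw [hd1, hd2, hz.self_of_nhds hg s, hfac]
    have hgg : eval (psi z) g ≠ 0 := hg
    rw [Finset.mul_sum, ← Finset.sum_add_distrib, ← Finset.sum_add_distrib,
      ← Finset.sum_add_distrib]
    refine Finset.sum_congr rfl fun t _ => ?_
    have e2 : ∀ j, psi (Pi.single i 1) j * a t z * s ^ k t *
        (fderiv ℂ (G t) (psi z) (Pi.single j 1) +
          s * (eval (psi z) (pderiv j g) / eval (psi z) g) * G t (psi z)) =
        (a t z * s ^ k t) * (psi (Pi.single i 1) j * fderiv ℂ (G t) (psi z) (Pi.single j 1)) +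
        (a t z * s ^ k t * s * G t (psi z) / eval (psi z) g) *
          (psi (Pi.single i 1) j * eval (psi z) (pderiv j g)) := by
      intro j; field_simp
    rw [Finset.sum_congr rfl fun j _ => e2 j, Finset.sum_add_distrib, ← Finset.mul_sum,
      ← Finset.mul_sum, pow_succ]
    simp only [hG]
    field_simp
    ring

lemma InM.word {f h : MvPolynomial (Fin n) ℂ}
    (hfac : ∀ z, eval z f = eval z h * eval (psi z) g) (hx0 : eval x0 h ≠ 0)
    (w : List (Fin n)) :
    InM g psi x0 (fun s => w.foldr (ND.nabla (fun z => eval z f) s) (fun z => eval z f)) := by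
  induction w with
  | nil =>
    refine ⟨Unit, inferInstance, fun _ z => eval z h, fun _ => [], fun _ => 0,
      fun _ => AnalyticOnNhd.eval_mvPolynomial h x0 (Set.mem_univ _), ?_⟩
    refine Filter.Eventually.of_forall fun z _ s => ?_
    simp [hfac]
  | cons i w ih => exact InM.nabla ih hfac hx0 i

/-- A finite family of terms gives a sum over a finite set of pairs (word, exponent). -/
lemma isBernstein_of_family {f : (Fin r → ℂ) → ℂ} {b : Polynomial ℂ} {T : Type} [Fintype T]
    (a : T → (Fin r → ℂ) → ℂ) (w : T → List (Fin r)) (k : T → ℕ)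
    (ha : ∀ t, AnalyticAt ℂ (a t) 0)
    (h : ∀ᶠ y in 𝓝 (0 : Fin r → ℂ), f y ≠ 0 → ∀ s : ℂ,
      ∑ t, a t y * s ^ (k t) * ((w t).foldr (ND.nabla f s) f) y = b.eval s) :
    IsBernstein f b := by
  classical
  refine ⟨Finset.univ.image (fun t => (w t, k t)),
    fun p y => ∑ t ∈ Finset.univ.filter (fun t => (w t, k t) = p), a t y, ?_, ?_⟩
  · intro p _
    exact Finset.analyticAt_fun_sum _ fun t _ => ha t
  · filter_upwards [h] with y hy hf s
    rw [← hy hf s]
    rw [← Finset.sum_fiberwise_of_maps_to (s := Finset.univ)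
      (t := Finset.univ.image (fun t => (w t, k t))) (g := fun t => (w t, k t))
      (fun t _ => Finset.mem_image_of_mem _ (Finset.mem_univ t))]
    refine Finset.sum_congr rfl fun p _ => ?_
    rw [Finset.sum_mul, Finset.sum_mul]
    refine Finset.sum_congr rfl fun t ht => ?_
    have := (Finset.mem_filter.1 ht).2
    rw [← this]

/-- If `f = h · (g ∘ ψ)` and there are points `x0` arbitrarily close to `0` with `ψ x0 = 0` and
`h (x0) ≠ 0`, then every `b` satisfying a functional equation for `f` satisfies one for `g`. -/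
theorem isBernstein_slice {f h : MvPolynomial (Fin n) ℂ} {g : MvPolynomial (Fin r) ℂ}
    (psi : (Fin n → ℂ) →L[ℂ] (Fin r → ℂ)) (phi : (Fin r → ℂ) →L[ℂ] (Fin n → ℂ))
    (hpp : ∀ y, psi (phi y) = y) (hfac : ∀ z, eval z f = eval z h * eval (psi z) g)
    (hx : ∃ᶠ x0 in 𝓝 (0 : Fin n → ℂ), psi x0 = 0 ∧ eval x0 h ≠ 0) (b : Polynomial ℂ)
    (hb : IsBernstein (fun z => eval z f) b) : IsBernstein (fun y => eval y g) b := by
  obtain ⟨T, a, ha, hev⟩ := hb
  have ha' : ∀ᶠ x0 in 𝓝 (0 : Fin n → ℂ), ∀ t ∈ T, AnalyticAt ℂ (a t) x0 :=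
    (Finset.eventually_all T).2 fun t ht => (ha t ht).eventually_analyticAt
  obtain ⟨x0, ⟨hx1, hx2⟩, hx3, hx4⟩ := (hx.and_eventually (ha'.and hev.eventually_nhds)).exists
  -- the constant `b (s)` is in the module
  have hM : InM g psi x0 (fun s _ => b.eval s) := by
    have h1 : InM g psi x0 (fun s z => ∑ t ∈ T, a t z * s ^ t.2 *
        (t.1.foldr (ND.nabla (fun z => eval z f) s) (fun z => eval z f)) z) :=
      InM.sum T fun t ht => (InM.word hfac hx2 t.1).smul (hx3 t ht) t.2
    obtain ⟨T', hT', a', w', k', ha1, ha2⟩ := h1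
    refine ⟨T', hT', a', w', k', ha1, ?_⟩
    have hh : ∀ᶠ z in 𝓝 x0, eval z h ≠ 0 :=
      (AnalyticOnNhd.eval_mvPolynomial h x0 (Set.mem_univ _)).continuousAt.eventually_ne hx2
    filter_upwards [ha2, hx4, hh] with z h2 h3 h4 h5 s
    rw [← h2 h5 s]
    refine (h3 ?_ s).symm
    rw [hfac]
    exact mul_ne_zero h4 h5
  obtain ⟨T', hT', a', w', k', ha1, ha2⟩ := hM
  have hline : Tendsto (fun y : Fin r → ℂ => x0 + phi y) (𝓝 0) (𝓝 x0) := by
    have : ContinuousAt (fun y : Fin r → ℂ => x0 + phi y) 0 := by fun_prop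
    simpa [ContinuousAt] using this
  refine isBernstein_of_family (T := T') (fun t y => a' t (x0 + phi y)) w' k' ?_ ?_
  · intro t
    have h1 : AnalyticAt ℂ (fun y : Fin r → ℂ => x0 + phi y) 0 :=
      analyticAt_const.add (phi.analyticAt 0)
    have h2 : AnalyticAt ℂ (a' t) ((fun y : Fin r → ℂ => x0 + phi y) 0) := by
      simpa using ha1 t
    exact AnalyticAt.comp (g := a' t) (f := fun y : Fin r → ℂ => x0 + phi y) h2 h1
  · filter_upwards [hline.eventually ha2] with y hy hf s
    have e : psi (x0 + phi y) = y := by rw [map_add, hx1, hpp, zero_add]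
    rw [e] at hy
    exact (hy hf s).symm

end Slice

/-- The linear form with coefficient vector `v`. -/
noncomputable def dotL (n : ℕ) : (Fin n → ℂ) →ₗ[ℂ] ((Fin n → ℂ) →ₗ[ℂ] ℂ) where
  toFun v := ∑ j, v j • LinearMap.proj j
  map_add' a b := by simp [add_smul, Finset.sum_add_distrib]
  map_smul' c a := by simp [Finset.smul_sum, smul_smul]

lemma dotL_apply {n : ℕ} (v z : Fin n → ℂ) : dotL n v z = ∑ j, v j * z j := by
  simp [dotL]

lemma dotL_injective (n : ℕ) : Function.Injective (dotL n) := by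
  intro a b h
  funext j
  have := congrArg (fun F : (Fin n → ℂ) →ₗ[ℂ] ℂ => F (Pi.single j 1)) h
  simpa [dotL_apply, Pi.single_apply] using this

lemma eval_arrP {n : ℕ} {ι : Type} [Fintype ι] (A : ι → Fin n → ℂ) (mu : ι → ℕ)
    (z : Fin n → ℂ) : eval z (arrP A mu) = arrC A mu z := by
  simp [arrP, arrC, map_prod, map_sum]

lemma dotL_family_surjective {n r : ℕ} (w : Fin r → Fin n → ℂ) (hw : LinearIndependent ℂ w) :
    Function.Surjective (LinearMap.pi (fun k => dotL n (w k)) : (Fin n → ℂ) →ₗ[ℂ] (Fin r → ℂ)) := by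
  have hM : (Matrix.of w : Matrix (Fin r) (Fin n) ℂ).rank = r := by
    have : LinearIndependent ℂ (Matrix.of w : Matrix (Fin r) (Fin n) ℂ).row := hw
    simpa using this.rank_matrix
  have h1 : (LinearMap.pi (fun k => dotL n (w k)) : (Fin n → ℂ) →ₗ[ℂ] (Fin r → ℂ)) =
      (Matrix.of w : Matrix (Fin r) (Fin n) ℂ).mulVecLin := by
    ext z k
    simp [dotL_apply, Matrix.mulVec, dotProduct]
  rw [h1, ← LinearMap.range_eq_top]
  apply Submodule.eq_top_of_finrank_eq
  rw [← Matrix.rank, hM]
  simp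

/-- (E0) localisation at a flat: the functional equation of an arrangement gives one for the
arrangement of any flat `X`, in its own rank. -/
theorem bernstein_localize {n : ℕ} {ι : Type} [Fintype ι] (A : ι → Fin n → ℂ)
    (mu : ι → ℕ) (X : Finset ι)
    (hX : ∀ i, A i ∈ Submodule.span ℂ (A '' (X : Set ι)) → i ∈ X)
    (b : Polynomial ℂ) (hb : IsBernstein (arrC A mu) b) :
    ∃ (Φ : (Fin (Module.finrank ℂ (Submodule.span ℂ (A '' (X : Set ι)))) → ℂ) →ₗ[ℂ]
        (Fin n → ℂ)) (l : X → (Fin (Module.finrank ℂ (Submodule.span ℂ (A '' (X : Set ι)))) → ℂ)),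
      Function.Injective Φ ∧ (∀ i, Φ (l i) = A i.1) ∧
      IsBernstein (arrC l (fun i => mu i.1)) b := by
  classical
  set W : Submodule ℂ (Fin n → ℂ) := Submodule.span ℂ (A '' (X : Set ι)) with hW
  have hmem : ∀ i : X, A i.1 ∈ W := fun i => Submodule.subset_span ⟨i.1, i.2, rfl⟩
  let B := Module.finBasis ℂ W
  let Φ : (Fin (Module.finrank ℂ W) → ℂ) →ₗ[ℂ] (Fin n → ℂ) :=
    W.subtype ∘ₗ B.equivFun.symm.toLinearMap
  let l : X → (Fin (Module.finrank ℂ W) → ℂ) := fun i => B.equivFun ⟨A i.1, hmem i⟩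
  let w : Fin (Module.finrank ℂ W) → Fin n → ℂ := fun k => (B k : Fin n → ℂ)
  have hΦl : ∀ i, Φ (l i) = A i.1 := by
    intro i
    simp [Φ, l]
  have hwli : LinearIndependent ℂ w :=
    B.linearIndependent.map' W.subtype (Submodule.ker_subtype W)
  have hwspan : Submodule.span ℂ (Set.range w) = W := by
    have h1 : Set.range w = W.subtype '' (Set.range B) := by
      ext v; constructor
      · rintro ⟨k, rfl⟩; exact ⟨B k, ⟨k, rfl⟩, rfl⟩
      · rintro ⟨_, ⟨k, rfl⟩, rfl⟩; exact ⟨k, rfl⟩
    rw [h1, Submodule.span_image, B.span_eq, Submodule.map_top, Submodule.range_subtype]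
  let psiL : (Fin n → ℂ) →ₗ[ℂ] (Fin (Module.finrank ℂ W) → ℂ) :=
    LinearMap.pi (fun k => dotL n (w k))
  have hpsi_surj : Function.Surjective psiL := dotL_family_surjective w hwli
  obtain ⟨phiL, hphiL⟩ := psiL.exists_rightInverse_of_surjective
    (LinearMap.range_eq_top.2 hpsi_surj)
  -- the forms of `X` factor through `psi`
  have hform : ∀ (i : X) (z : Fin n → ℂ), ∑ j, A i.1 j * z j = ∑ k, l i k * psiL z k := by
    intro i z
    have h1 : A i.1 = ∑ k, l i k • w k := by
      have h0 := congrArg Subtype.val (B.sum_equivFun ⟨A i.1, hmem i⟩)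
      rw [Submodule.coe_sum] at h0
      exact h0.symm
    have h2 : dotL n (A i.1) z = ∑ k, l i k * dotL n (w k) z := by
      rw [h1, map_sum]
      simp [LinearMap.sum_apply]
    rw [dotL_apply] at h2
    rw [h2]
    rfl
  -- a generic point of the flat
  have hgen : ∃ x1 ∈ LinearMap.ker psiL, ∀ i : {i // i ∉ X}, dotL n (A i.1) x1 ≠ 0 := by
    refine Module.Dual.exists_forall_mem_ne_zero_of_forall_exists (LinearMap.ker psiL)
      (fun i : {i // i ∉ X} => dotL n (A i.1)) ?_
    intro i
    by_contra hcon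
    push Not at hcon
    apply i.2
    apply hX
    have h1 : dotL n (A i.1) ∈ Submodule.span ℂ (Set.range fun k => dotL n (w k)) := by
      apply mem_span_of_iInf_ker_le_ker
      intro z hz
      rw [LinearMap.mem_ker]
      refine hcon z ?_
      rw [LinearMap.mem_ker]
      funext k
      have := (Submodule.mem_iInf _).1 hz k
      simpa [psiL] using this
    have h2 : Submodule.span ℂ (Set.range fun k => dotL n (w k)) =
        (Submodule.span ℂ (Set.range w)).map (dotL n) := by
      rw [Submodule.map_span, ← Set.range_comp]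
      rfl
    rw [h2, hwspan] at h1
    obtain ⟨v, hv, hve⟩ := h1
    have := dotL_injective n hve
    rwa [← this]
  obtain ⟨x1, hx1, hx1'⟩ := hgen
  refine ⟨Φ, l, ?_, hΦl, ?_⟩
  · exact (Submodule.subtype_injective W).comp B.equivFun.symm.injective
  · -- the polynomials
    let f : MvPolynomial (Fin n) ℂ := arrP A mu
    let h : MvPolynomial (Fin n) ℂ := ∏ i ∈ Xᶜ, (∑ j, C (A i j) * MvPolynomial.X j) ^ mu i
    let g : MvPolynomial (Fin (Module.finrank ℂ W)) ℂ := arrP l (fun i => mu i.1)
    have hh : ∀ z, eval z h = ∏ i ∈ Xᶜ, (∑ j, A i j * z j) ^ mu i := by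
      intro z; simp [h, map_prod, map_sum]
    have hfac : ∀ z, eval z f = eval z h *
        eval ((LinearMap.toContinuousLinearMap psiL) z) g := by
      intro z
      rw [hh, eval_arrP, eval_arrP]
      simp only [arrC, LinearMap.coe_toContinuousLinearMap']
      have h1 : ∏ i : X, (∑ j, l i j * psiL z j) ^ mu i.1 =
          ∏ i ∈ X, (∑ j, A i j * z j) ^ mu i := by
        rw [← Finset.prod_coe_sort X]
        refine Finset.prod_congr rfl fun i _ => ?_
        rw [hform]
      rw [h1, mul_comm, Finset.prod_mul_prod_compl]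
    have key := isBernstein_slice (f := f) (h := h) (g := g)
      (LinearMap.toContinuousLinearMap psiL) (LinearMap.toContinuousLinearMap phiL) ?_ hfac ?_ b ?_
    · have e : (fun y => eval y g) = arrC l (fun i => mu i.1) := by
        funext y; exact eval_arrP _ _ _
      rwa [e] at key
    · intro y
      exact LinearMap.congr_fun hphiL y
    · -- points `ε x1`
      have hlim : Tendsto (fun e : ℂ => e • x1) (𝓝[≠] 0) (𝓝 0) := by
        have h1 : ContinuousAt (fun e : ℂ => e • x1) 0 := by fun_prop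
        have h2 : Tendsto (fun e : ℂ => e • x1) (𝓝 0) (𝓝 0) := by
          simpa [ContinuousAt] using h1
        exact h2.mono_left nhdsWithin_le_nhds
      refine hlim.frequently (Eventually.frequently ?_)
      filter_upwards [self_mem_nhdsWithin] with e he
      refine ⟨?_, ?_⟩
      · have := LinearMap.mem_ker.1 hx1
        simp [this]
      · rw [hh]
        refine Finset.prod_ne_zero_iff.2 fun i hi => pow_ne_zero _ ?_
        have h1 := hx1' ⟨i, Finset.mem_compl.1 hi⟩
        have h2 : dotL n (A i) (e • x1) = e * dotL n (A i) x1 := by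
          rw [map_smul, smul_eq_mul]
        rw [← dotL_apply, h2]
        exact mul_ne_zero he h1
    · have e : (fun z => eval z f) = arrC A mu := by
        funext y; exact eval_arrP _ _ _
      rwa [e]

end Pool.Agent.helper14.CND
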