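import Mathlib
import Pool.Agent.helper67.ND.Defs
import Pool.Agent.helper14.ND_E0
import Pool.Agent.helper14.ND_E2

/-! The final statement, from the algebraic main theorem. -/

namespace Pool.Agent.helper14.CND

open Filter Topology MvPolynomial
open Pool.Agent.helper67 Pool.Agent.helper67.ND

/-- The statement of the algebraic main theorem over the complex numbers. -/
def AlgMain : Prop :=
  ∀ (ι : Type) [Fintype ι] (n : ℕ) (_ : 1 ≤ n) (l : ι → Fin n → ℂ)
    (_ : ∀ i, l i ≠ 0) (μ : ι → ℕ) (_ : ∀ i, 1 ≤ μ i) (_ : Nonempty ι)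
    (_ : Submodule.span ℂ (Set.range l) = ⊤) (_ : Conn (k := ℂ) l)
    (R : Subring KK) (_ : ∀ c : ℂ, algebraMap ℂ KK c ∈ R) (t : KK) (_ : t ∈ R)
    (_ : ∀ m : ℕ, 1 ≤ m → ∃ u ∈ R, u * ((m : KK) + t * (∑ i, μ i : ℕ)) = 1)
    (_ : ∀ (c : ℂ) (m : ℕ), 1 ≤ m → algebraMap ℂ KK c + m * t ≠ 0),
    ∃ (κ : Fin n → KK) (L : ℕ → MvPolynomial (Fin n) KK →ₗ[KK] KK),
      (∀ i, κ i ∈ R) ∧
      (∀ m p, L (m + 1) (map (algebraMap ℂ KK) (arrP l μ) * p) = L m p) ∧
      (∀ (i : Fin n) (m e : ℕ) (p : MvPolynomial (Fin n) KK), p.IsHomogeneous e →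
        L (m + 1) (map (algebraMap ℂ KK) (arrP l μ) * pderiv i p +
          C (- (n : KK) / (∑ i, μ i : ℕ) + t - m) *
            (pderiv i (map (algebraMap ℂ KK) (arrP l μ)) * p)) =
          κ i * ((e : KK) - m * (∑ i, μ i : ℕ) - 1 + t * (∑ i, μ i : ℕ)) * L m p) ∧
      (∀ h : MvPolynomial (Fin n) KK, (∀ m, h.coeff m ∈ R) →
        L 0 (map (algebraMap ℂ KK) (arrP l μ) * h) ∈ R) ∧
      ∃ u ∈ R, u * L 0 1 = 1

lemma linForm_ne_zero {n : ℕ} {v : Fin n → ℂ} (hv : v ≠ 0) :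
    (∑ j, C (v j) * X j : MvPolynomial (Fin n) ℂ) ≠ 0 := by
  intro h
  apply hv
  funext j
  have h1 := congrArg (eval (Pi.single j 1)) h
  simpa [map_sum, Pi.single_apply] using h1

lemma arrP_ne_zero {ι : Type} [Fintype ι] {n : ℕ} (l : ι → Fin n → ℂ) (hl : ∀ i, l i ≠ 0)
    (μ : ι → ℕ) : arrP l μ ≠ 0 :=
  Finset.prod_ne_zero_iff.2 fun i _ => pow_ne_zero _ (linForm_ne_zero (hl i))

lemma arrP_homog {ι : Type} [Fintype ι] {n : ℕ} (l : ι → Fin n → ℂ) (μ : ι → ℕ) :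
    (arrP l μ).IsHomogeneous (∑ i, μ i) := by
  refine IsHomogeneous.prod _ _ _ fun i _ => ?_
  have h1 : (∑ j, C (l i j) * X j : MvPolynomial (Fin n) ℂ).IsHomogeneous 1 := by
    refine IsHomogeneous.sum _ _ _ fun j _ => ?_
    have := (isHomogeneous_C (Fin n) (l i j)).mul (isHomogeneous_X ℂ j)
    simpa using this
  simpa using h1.pow (μ i)

/-- (E2) the conclusion from the algebraic main theorem. -/
theorem indecomposable_case (halg : AlgMain) {ι : Type} [Fintype ι] {n : ℕ} (hn : 1 ≤ n)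
    (l : ι → Fin n → ℂ)
    (hl : ∀ i, l i ≠ 0) (μ : ι → ℕ) (hμ : ∀ i, 1 ≤ μ i) (hne : Nonempty ι)
    (hspan : Submodule.span ℂ (Set.range l) = ⊤) (hconn : Conn (k := ℂ) l)
    (b : Polynomial ℂ) (hb : IsBernstein (arrC l μ) b) :
    b.eval (- (n : ℂ) / (∑ i, μ i : ℕ)) = 0 := by
  have hd : 1 ≤ ∑ i, μ i := by
    obtain ⟨i⟩ := hne
    exact (hμ i).trans (Finset.single_le_sum (fun j _ => Nat.zero_le _) (Finset.mem_univ i))
  obtain ⟨κ, L, h0, h1, h2, h3, h4⟩ := halg ι n hn l hl μ hμ hne hspan hconn RR KK_const_mem tt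
    KK_t_mem (KK_unit _) KK_tr
  have e : (fun z => eval z (arrP l μ)) = arrC l μ := by
    funext z; exact eval_arrP _ _ _
  exact eval_zero_of_functional (arrP l μ) (arrP_ne_zero l hl μ) hd (arrP_homog l μ) b
    (by rwa [e]) κ L h0 h1 h2 h3 h4

/-- (F) final statement. -/
theorem final (halg : AlgMain) {ι : Type} [Fintype ι] [DecidableEq ι] {n : ℕ}
    (A : ι → Fin n → ℂ)
    (hA : ∀ i, A i ≠ 0) (mu : ι → ℕ) (hmu : ∀ i, 1 ≤ mu i) (X : Finset ι)
    (hX : IsDenseEdgeC A X) (b : Polynomial ℂ) (hb : IsBernstein (arrC A mu) b) :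
    b.eval (- (rkC A X : ℂ) / (∑ i ∈ X, mu i : ℕ)) = 0 := by
  classical
  obtain ⟨Φ, l, hΦ, hΦl, hb'⟩ := bernstein_localize A mu X hX.flat b hb
  change ∀ i : X, Φ (l i) = A i.1 at hΦl
  -- ranks of subsets
  have hrk : ∀ s : Set X, Module.finrank ℂ (Submodule.span ℂ (l '' s)) =
      Module.finrank ℂ (Submodule.span ℂ (A '' ((fun i : X => (i : ι)) '' s))) := by
    intro s
    have h1 : A '' ((fun i : X => (i : ι)) '' s) = Φ '' (l '' s) := by
      ext v
      constructor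
      · rintro ⟨_, ⟨i, hi, rfl⟩, rfl⟩
        exact ⟨l i, ⟨i, hi, rfl⟩, hΦl i⟩
      · rintro ⟨_, ⟨i, hi, rfl⟩, rfl⟩
        exact ⟨i, ⟨i, hi, rfl⟩, (hΦl i).symm⟩
    rw [h1, Submodule.span_image]
    exact (Submodule.equivMapOfInjective Φ hΦ _).finrank_eq
  have hspanX : Submodule.span ℂ (Set.range l) = ⊤ := by
    apply Submodule.eq_top_of_finrank_eq
    have h1 := hrk Set.univ
    rw [Set.image_univ] at h1
    rw [h1]
    have h2 : (fun i : X => (i : ι)) '' Set.univ = (X : Set ι) := by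
      ext i; simp
    rw [h2, Module.finrank_fin_fun]
  have hne : Nonempty X := hX.nonempty.to_subtype
  have hl0 : ∀ i, l i ≠ 0 := by
    intro i h
    apply hA i.1
    rw [← hΦl i, h, map_zero]
  have hr : 1 ≤ Module.finrank ℂ (Submodule.span ℂ (A '' (X : Set ι))) := by
    obtain ⟨i, hi⟩ := hX.nonempty
    have : Nontrivial (Submodule.span ℂ (A '' (X : Set ι))) := by
      refine ⟨⟨⟨A i, Submodule.subset_span ⟨i, hi, rfl⟩⟩, 0, fun h => hA i ?_⟩⟩
      exact congrArg Subtype.val h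
    exact Module.finrank_pos
  have hconn : Conn (k := ℂ) l := by
    intro s hs hsc hdis
    let S : Finset ι := Finset.univ.filter (fun i => ∃ h : i ∈ X, (⟨i, h⟩ : X) ∈ s)
    have hSX : S ⊆ X := by
      intro i hi
      obtain ⟨h, _⟩ := (Finset.mem_filter.1 hi).2
      exact h
    have hS : (S : Set ι) = (fun i : X => (i : ι)) '' s := by
      ext i
      simp only [S, Finset.coe_filter, Finset.mem_univ, true_and, Set.mem_ofPred_eq, Set.mem_image]
      constructor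
      · rintro ⟨h, hi⟩; exact ⟨⟨i, h⟩, hi, rfl⟩
      · rintro ⟨j, hj, rfl⟩; exact ⟨j.2, hj⟩
    have hSc : ((X \ S : Finset ι) : Set ι) = (fun i : X => (i : ι)) '' sᶜ := by
      ext i
      rw [Finset.coe_sdiff, hS]
      simp only [Set.mem_sdiff, Finset.mem_coe, Set.mem_image, Set.mem_compl_iff]
      constructor
      · rintro ⟨h, hi⟩
        exact ⟨⟨i, h⟩, fun h' => hi ⟨⟨i, h⟩, h', rfl⟩, rfl⟩
      · rintro ⟨j, hj, rfl⟩
        refine ⟨j.2, ?_⟩
        rintro ⟨j', hj', h⟩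
        exact hj (by rwa [← Subtype.ext h])
    have hSne : S.Nonempty := by
      obtain ⟨i, hi⟩ := hs
      exact ⟨i.1, Finset.mem_filter.2 ⟨Finset.mem_univ _, i.2, hi⟩⟩
    have hSneX : S ≠ X := by
      intro h
      obtain ⟨i, hi⟩ := hsc
      have h1 : i.1 ∈ S := by rw [h]; exact i.2
      obtain ⟨_, h2⟩ := (Finset.mem_filter.1 h1).2
      exact hi h2
    apply hX.indec S hSX hSne hSneX
    have h1 : rkC A S = Module.finrank ℂ (Submodule.span ℂ (l '' s)) := by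
      rw [hrk s, rkC, hS]
    have h2 : rkC A (X \ S) = Module.finrank ℂ (Submodule.span ℂ (l '' sᶜ)) := by
      rw [hrk sᶜ, rkC, hSc]
    have h3 : rkC A X = Module.finrank ℂ (⊤ : Submodule ℂ
        (Fin (Module.finrank ℂ (Submodule.span ℂ (A '' (X : Set ι)))) → ℂ)) := by
      rw [finrank_top, Module.finrank_fin_fun, rkC]
    rw [h1, h2, h3]
    have h4 := Submodule.finrank_sup_add_finrank_inf_eq (Submodule.span ℂ (l '' s))
      (Submodule.span ℂ (l '' sᶜ))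
    rw [hdis.eq_bot, finrank_bot, add_zero, ← Submodule.span_union, ← Set.image_union,
      Set.union_compl_self, Set.image_univ, hspanX] at h4
    exact h4.symm
  have key := indecomposable_case halg hr l hl0 (fun i => mu i.1) (fun i => hmu i.1) hne hspanX
    hconn b hb'
  have e1 : ∑ i : X, mu i.1 = ∑ i ∈ X, mu i := Finset.sum_coe_sort X mu
  rw [e1] at key
  exact key

open Classical in
/-- Poles of sums over sets of dense edges, with arbitrary coefficients. -/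
theorem zeta_poles (halg : AlgMain) {ι : Type} [Fintype ι] {n : ℕ}
    (A : ι → Fin n → ℂ) (hA : ∀ i, A i ≠ 0) (mu : ι → ℕ) (hmu : ∀ i, 1 ≤ mu i)
    (b : Polynomial ℂ) (hb : IsBernstein (arrC A mu) b)
    (S : Finset (Finset (Finset ι))) (hS : ∀ I ∈ S, ∀ X ∈ I, IsDenseEdgeC A X)
    (c : Finset (Finset ι) → ℂ) (s₀ : ℂ)
    (hpole : meromorphicOrderAt (fun s : ℂ => ∑ I ∈ S, c I *
      ∏ X ∈ I, (((∑ i ∈ X, mu i : ℕ) : ℂ) * s + (rkC A X : ℂ))⁻¹) s₀ < 0) :
    b.eval s₀ = 0 := by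
  by_contra hne
  have hne' : ∀ I ∈ S, ∀ X ∈ I, ((∑ i ∈ X, mu i : ℕ) : ℂ) * s₀ + (rkC A X : ℂ) ≠ 0 := by
    intro I hI X hX h
    apply hne
    have hX' := hS I hI X hX
    have hd : 1 ≤ ∑ i ∈ X, mu i := by
      obtain ⟨i, hi⟩ := hX'.nonempty
      exact (hmu i).trans (Finset.single_le_sum (fun j _ => Nat.zero_le _) hi)
    have hd' : ((∑ i ∈ X, mu i : ℕ) : ℂ) ≠ 0 := by
      exact_mod_cast (by omega : (∑ i ∈ X, mu i) ≠ 0)
    have h1 : s₀ = - (rkC A X : ℂ) / (∑ i ∈ X, mu i : ℕ) := by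
      rw [eq_div_iff hd']
      linear_combination h
    rw [h1]
    exact final halg A hA mu hmu X hX' b hb
  have han : AnalyticAt ℂ (fun s : ℂ => ∑ I ∈ S, c I *
      ∏ X ∈ I, (((∑ i ∈ X, mu i : ℕ) : ℂ) * s + (rkC A X : ℂ))⁻¹) s₀ := by
    refine Finset.analyticAt_fun_sum _ fun I hI => analyticAt_const.mul ?_
    refine Finset.analyticAt_fun_prod _ fun X hX => ?_
    exact ((analyticAt_const.mul analyticAt_id).add analyticAt_const).inv (hne' I hI X hX)
  exact absurd hpole (not_lt.2 han.meromorphicOrderAt_nonneg)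

end Pool.Agent.helper14.CND
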