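import Pool.Agent.helper14.KusMain

/-!
# An unstable cluster with spherical interfaces obeying Plateau's laws

One cell consists of two unit balls, each of which is wrapped in its own concentric shell of
outer radius two; each shell is a cell.  All interfaces are round spheres, Plateau's laws and
Laplace's law hold, and moving volume from one ball to the other, while the volume of each of the
three bounded cells stays fixed, decreases the area to second order.
-/

open MeasureTheory Kusner
open scoped ContDiff

namespace Pool.Agent.helper14.WrappedTwins

/-- There are a cluster with spherical interfaces obeying Plateau's laws and Laplace's law, and a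
smooth volume-preserving family of deformations, such that the total interface area is finite and
smooth along the family and has first derivative zero and second derivative negative. -/
theorem result : ∃ Ω : Fin 3 → Set E3,
    IsCluster Ω ∧ HasSphericalInterfaces Ω ∧ ObeysPlateau Ω ∧ PressureBalanced Ω ∧
    ∃ φ : ℝ → E3 → E3, IsDeformation φ ∧ PreservesVolumes Ω φ ∧
      (∀ t i j, i ≠ j → μH[2] (φ t '' interface Ω i j) < ⊤) ∧
      ContDiff ℝ ∞ (area Ω φ) ∧ deriv (area Ω φ) 0 = 0 ∧
      deriv (deriv (area Ω φ)) 0 < 0 :=
  exists_unstable

end Pool.Agent.helper14.WrappedTwins
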